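import Pool.Agent.Lib.MP_6ff0c5_lc.Net.Cover
import Pool.Agent.Lib.MP_6ff0c5_lc.Net.Bound
import Pool.Agent.Lib.MP_6ff0c5_lc.Gap.Main
import Pool.Agent.Lib.MP_6ff0c5_lc.K.Comp

/-!
MP_6ff0c5_lc, part B, soundness: the crossbar.
-/

set_option autoImplicit false

namespace Pool.Agent.Lib.MP_6ff0c5_lc.N

variable {P : Lay} {a : ℤ → ℤ → ℝ × ℝ}

/-- The main rooms: the crossbar and the sources, without the comparator and the path that leads to it. -/
def Lay.Main (P : Lay) (x y : ℤ) : Prop :=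
  (netOf P.tile).act x y = true ∧ 0 ≤ y ∧ x < 9 * P.ns + 9 ∧ ¬ (9 * (P.ns : ℤ) ≤ x ∧ y = 15)

/-- the bound `|·| ≤ M` for both coordinates -/
def Bdd (p : ℝ × ℝ) (M : ℝ) : Prop := |p.1| ≤ M ∧ |p.2| ≤ M

/-- the value with which the lane `j` leaves its source -/
def srcv (P : Lay) (a : ℤ → ℤ → ℝ × ℝ) (j : ℕ) : ℝ := -(a (9 * P.ns) (9 * j + 5)).2

/-- constraints of a block hold locally -/
theorem holds_loc {b : Blk} {L J : ℤ} (hr : (netOf P.tile).Red a) (hb : b.At P.tile L J) {c : Con} (hc : c ∈ b.cons) :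
    c.Holds (loc a L J) := by
  have h1 : c.chk b.ka b.kc = some true := by
    unfold Blk.cons at hc
    rw [List.mem_flatMap] at hc
    obtain ⟨r, _, hc⟩ := hc
    rw [List.mem_filter] at hc
    have h2 := hc.2
    rw [Bool.and_eq_true, beq_iff_eq] at h2
    exact h2.1
  exact (holds_shift a L J c).1 (hr _ (hb.chk c h1))

theorem mem_rooms_iff {b : Blk} {r : ℤ × ℤ} :
    r ∈ b.rooms ↔ b.inside r.1 r.2 = true ∧ tbit masks (b.tid r.1 r.2) (r.1 % 9) (r.2 % 9) = true := by
  obtain ⟨x, y⟩ := r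
  unfold Blk.rooms
  rw [Blk.inside_iff]
  simp only [List.mem_flatMap, List.mem_filter, List.mem_map, List.mem_range, Prod.mk.injEq]
  constructor
  · rintro ⟨k, hk, ⟨i, hi, hx, hy⟩, ht⟩
    exact ⟨⟨⟨by omega, by omega⟩, by omega, by omega⟩, ht⟩
  · rintro ⟨⟨⟨h1, h2⟩, h3, h4⟩, ht⟩
    exact ⟨y.toNat, by omega, ⟨x.toNat, by omega, by omega, by omega⟩, ht⟩

/-- rooms of a block are active -/
theorem act_of_room {b : Blk} {L J : ℤ} (hb : b.At P.tile L J) {r : ℤ × ℤ} (hr : r ∈ b.rooms) :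
    (netOf P.tile).act (9 * L + r.1) (9 * J + r.2) = true := by
  obtain ⟨h1, h2⟩ := mem_rooms_iff.1 hr
  apply hb.ka
  unfold Blk.ka
  rw [if_pos h1, h2]

theorem room_of_act {b : Blk} {L J : ℤ} (hb : b.At P.tile L J) {r : ℤ × ℤ} (hi : b.inside r.1 r.2 = true)
    (ha : (netOf P.tile).act (9 * L + r.1) (9 * J + r.2) = true) : r ∈ b.rooms := by
  refine mem_rooms_iff.2 ⟨hi, ?_⟩
  have h1 : b.ka r.1 r.2 = some (tbit masks (b.tid r.1 r.2) (r.1 % 9) (r.2 % 9)) := by
    unfold Blk.ka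
    rw [if_pos hi]
  rw [← hb.ka h1]
  exact ha

/-- the slack of a constraint between main rooms -/
theorem cross_slack (hr : (netOf P.tile).Red a) {M : ℝ} (hM : 0 ≤ M) (hmain : ∀ x y, P.Main x y → Bdd (a x y) M)
    {c : Con} (hc : c.In (netOf P.tile) = true) (hrm : ∀ r ∈ c.rooms, P.Main r.1 r.2) : -(18 * M ^ 2) ≤ c.slack a :=
  slack_ge hM (hr c hc) fun r h => hmain _ _ (hrm r h)

/-- the slack of an internal constraint of a tile of the crossbar -/
theorem tile_slack (hr : (netOf P.tile).Red a) {M : ℝ} (hM : 0 ≤ M) (hmain : ∀ x y, P.Main x y → Bdd (a x y) M)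
    {b : Blk} {l j : ℕ} (hl : l < P.ns) (hb : b.At P.tile l j) {cs : List Con} (hcs : b.cons = cs)
    (hrooms : (cs.all fun c => decide (∀ r ∈ c.rooms, r ∈ b.rooms)) = true)
    (hins : (b.rooms.all fun r => b.inside r.1 r.2) = true) (hw : b.w = 1) :
    ∀ c ∈ cs, -(18 * M ^ 2) ≤ c.slack (loc a l j) := by
  intro c hc
  refine slack_ge hM (holds_loc hr hb (hcs ▸ hc)) fun r h => ?_
  have h1 : r ∈ b.rooms := of_decide_eq_true (List.all_eq_true.1 hrooms c hc) r h
  have h2 := List.all_eq_true.1 hins r h1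
  have h3 := act_of_room hb h1
  obtain ⟨⟨h4, h5⟩, h6, h7⟩ := Blk.inside_iff.1 h2
  rw [hw] at h5
  refine hmain _ _ ⟨h3, ?_, ?_, ?_⟩
  · omega
  · omega
  · omega

theorem cross_m38 {id : ℕ} (h : 1 ≤ id ∧ id ≤ 4) :
    tbit masks id 3 8 = true ∧ tbit masks id 3 0 = true ∧ tbit masks id 2 8 = false := by
  have : ∀ id < 5, 1 ≤ id → tbit masks id 3 8 = true ∧ tbit masks id 3 0 = true ∧ tbit masks id 2 8 = false := by
    decide +kernel
  exact this id (by omega) h.1

theorem cross_m0 (i k : ℤ) : tbit masks 0 i k = false := by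
  simp [tbit, masks]

/-- the strings of the crossbar pass through every tile -/
theorem cross_str {l j : ℕ} (hl : l < P.ns) (hj : j < P.nl) :
    (netOf P.tile).act (9 * (l : ℤ) + 3) (9 * (j : ℤ) + 8) = true ∧
    (netOf P.tile).act (9 * (l : ℤ) + 3) (9 * (j : ℤ)) = true ∧
    (netOf P.tile).act (9 * (l : ℤ) + 2) (9 * (j : ℤ) + 8) = false := by
  have h1 : 1 ≤ P.tile l j ∧ P.tile l j ≤ 4 := by
    rw [tile_cross hl hj]
    have := tt_cases P l j
    omega
  have h2 := cross_m38 h1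
  refine ⟨?_, ?_, ?_⟩
  · exact aux_act (l : ℤ) (j : ℤ) 3 8 rfl rfl (by omega) (by omega) (by omega) (by omega) h2.1
  · exact aux_act (l : ℤ) (j : ℤ) 3 0 rfl (by ring) (by omega) (by omega) (by omega) (by omega) h2.2.1
  · exact aux_act (l : ℤ) (j : ℤ) 2 8 rfl rfl (by omega) (by omega) (by omega) (by omega) h2.2.2

/-- the lanes pass through the border of two tiles -/
theorem cross_lane {l j : ℕ} (hl : l < P.ns) (hj : j < P.nl) (he : P.ended (l + 1) j = true) :
    (netOf P.tile).act (9 * (l : ℤ) + 8) (9 * (j : ℤ) + 5) = true ∧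
    (netOf P.tile).act (9 * (l : ℤ) + 8 + 1) (9 * (j : ℤ) + 5) = true := by
  refine ⟨?_, ?_⟩
  · have h1 := aux_left (P := P) (l := l + 1) (by omega) hj he
    have h2 : (((l + 1 : ℕ) : ℤ) - 1) = (l : ℤ) := by push_cast; ring
    rw [h2] at h1
    exact aux_act (l : ℤ) (j : ℤ) 8 5 rfl rfl (by omega) (by omega) (by omega) (by omega) (aux_m85 h1)
  · have h1 := aux_m0 (aux_right hl hj he)
    exact aux_act ((l : ℤ) + 1) (j : ℤ) 0 5 (by ring) rfl (by omega) (by omega) (by omega) (by omega) h1.2.2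

/-- **The crossbar.** With `E = 18 M²` all slacks of constraints between main rooms are `≥ -E` (`slack_ge`); apply
`crossbar_arrays` with `m = 70`, `tap = P.tap`, `ended = P.ended`, `yin l j = (a (9l+8) (9j+5)).1`,
`yout l j = -(a (9l) (9j+5)).2`, `sin l j = a3 (a (9l+3) (9j))`, `sout l j = -(a (9l+3) (9j+8)).2`. The local inequalities are
`V_str`, `T_str`, `X_lane`, `X_str`, `A_lane`, `A_str` for `loc a l j`; the wires between the tiles are the constraints
`h1 (9l+8) (9j+5)` and `h3 (9l+3) (9j)`, the ends of the strings `p3 (9l+3) 0`, `p2 (9l+3) (9nl-1)` (present by `act_at` and the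
tile facts; pins give `a_i > 0` exactly, as `Q = 0`). The bounds for the rooms: `cover`, `V_bd`, …. -/
theorem cross_snd (hP : P.OK) (hr : (netOf P.tile).Red a) {M : ℝ} (hM : 0 ≤ M)
    (hmain : ∀ x y, P.Main x y → Bdd (a x y) M) :
    (∀ l < P.ns, ((List.range P.nl).map fun j => if P.tap l j then srcv P a j else 0).sum ≤
        6300 * (P.ns + P.nl) ^ 2 * M ^ 2) ∧
    ∀ Bd : ℝ, 0 ≤ Bd → (∀ j < P.nl, -Bd ≤ srcv P a j) →
      (∀ j < P.nl, srcv P a j ≤ 12 * (P.ns + P.nl) ^ 2 * (Bd + 1260 * M ^ 2)) ∧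
      ∀ x y, (netOf P.tile).act x y = true → 0 ≤ y → x < 9 * P.ns →
        Bdd (a x y) (10000 * (P.ns + P.nl) ^ 2 * (Bd + 1260 * M ^ 2)) := by
  have hE : 0 ≤ 18 * M ^ 2 := by positivity
  have hns : 0 < P.ns := ns_pos hP
  have hnl : 0 < P.nl := by unfold Lay.nl; omega
  -- local slacks
  have sV : ∀ l < P.ns, ∀ j < P.nl, P.tt l j = 1 → ∀ c ∈ cV, -(18 * M ^ 2) ≤ c.slack (loc a l j) :=
    fun l hl j hj h => tile_slack hr hM hmain hl (at_V hP hl hj h) cons_V rooms_V inside_V rfl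
  have sT : ∀ l < P.ns, ∀ j < P.nl, P.tt l j = 2 → ∀ c ∈ cT, -(18 * M ^ 2) ≤ c.slack (loc a l j) :=
    fun l hl j hj h => tile_slack hr hM hmain hl (at_T hP hl hj h) cons_T rooms_T inside_T rfl
  have sX : ∀ l < P.ns, ∀ j < P.nl, P.tt l j = 3 → ∀ c ∈ cX, -(18 * M ^ 2) ≤ c.slack (loc a l j) :=
    fun l hl j hj h => tile_slack hr hM hmain hl (at_X hP hl hj h) cons_X rooms_X inside_X rfl
  have sA : ∀ l < P.ns, ∀ j < P.nl, P.tt l j = 4 → ∀ c ∈ cA, -(18 * M ^ 2) ≤ c.slack (loc a l j) :=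
    fun l hl j hj h => tile_slack hr hM hmain hl (at_A hP hl hj h) cons_A rooms_A inside_A rfl
  obtain ⟨k1, k2⟩ := crossbar_arrays hns hnl P.tap P.ended (ended_zero P) (fun l hl j => ended_succ P hl j)
    (fun j hj => ended_all hP hj) hE (m := 70) (by norm_num)
    (fun l j => (loc a l j 8 5).1) (fun l j => -(loc a l j 0 5).2) (fun l j => a3 (loc a l j 3 0))
    (fun l j => -(loc a l j 3 8).2) (srcv P a)
    (by
      intro l hl j hj he
      rcases tt_cases P l j with h | h | h | h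
      · rw [tt_eq_one, he] at h
        exact absurd h.1 (by decide)
      · rw [tt_eq_two, he] at h
        exact absurd h.1 (by decide)
      · exact X_lane hE (sX l hl j hj h)
      · exact A_lane hE (sA l hl j hj h))
    (by
      intro l hl j hj he
      have h1 := cross_lane (P := P) (l := l) (by omega) hj he
      have h2 := cross_slack hr hM hmain (c := .h1 (9 * (l : ℤ) + 8) (9 * (j : ℤ) + 5))
        (by simp only [Con.In, h1.1, h1.2, Bool.and_self]) (by
          simp only [Con.rooms, List.mem_cons, List.not_mem_nil, or_false, forall_eq_or_imp, forall_eq]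
          refine ⟨⟨h1.2, by omega, by omega, by omega⟩, ⟨h1.1, by omega, by omega, by omega⟩⟩)
      simp only [Con.slack] at h2
      simp only [loc]
      have e1 : (9 * ((l + 1 : ℕ) : ℤ) + 0) = 9 * (l : ℤ) + 8 + 1 := by push_cast; ring
      rw [e1]
      linarith)
    (by
      intro j hj
      have h1 := cross_lane (P := P) (l := P.ns - 1) (by omega) hj
        (by rw [Nat.sub_add_cancel hns]; exact ended_all hP hj)
      have h2 := cross_slack hr hM hmain (c := .h1 (9 * ((P.ns - 1 : ℕ) : ℤ) + 8) (9 * (j : ℤ) + 5))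
        (by simp only [Con.In, h1.1, h1.2, Bool.and_self]) (by
          simp only [Con.rooms, List.mem_cons, List.not_mem_nil, or_false, forall_eq_or_imp, forall_eq]
          refine ⟨⟨h1.2, by omega, by omega, by omega⟩, ⟨h1.1, by omega, by omega, by omega⟩⟩)
      simp only [Con.slack] at h2
      simp only [loc, srcv]
      have e1 : (9 * ((P.ns - 1 : ℕ) : ℤ) + 8 + 1) = 9 * (P.ns : ℤ) := by omega
      rw [e1] at h2
      linarith)
    (by
      intro l hl j hj
      rcases tt_cases P l j with h | h | h | h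
      · have h3 := (tt_eq_one.1 h).2
        have h4 := V_str hE (sV l hl j hj h)
        simp only [h3, Bool.false_eq_true, if_false, add_zero]
        exact h4
      · have h3 := (tt_eq_two.1 h).2
        have h4 := T_str hE (sT l hl j hj h)
        simp only [h3, if_true]
        exact h4
      · have h3 := (tt_eq_three.1 h).2
        have h4 := X_str hE (sX l hl j hj h)
        simp only [h3, Bool.false_eq_true, if_false, add_zero]
        exact h4
      · have h3 := (tt_eq_four.1 h).2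
        have h4 := A_str hE (sA l hl j hj h)
        simp only [h3, if_true]
        exact h4)
    (by
      intro l hl j hj
      have h1 := (cross_str (P := P) hl (j := j) (by omega)).1
      have h1' := (cross_str (P := P) hl (j := j + 1) hj).2.1
      have e2 : (9 * ((j + 1 : ℕ) : ℤ)) - 1 = 9 * (j : ℤ) + 8 := by push_cast; ring
      have h2 := cross_slack hr hM hmain (c := .h3 (9 * (l : ℤ) + 3) (9 * ((j + 1 : ℕ) : ℤ)))
        (by simp only [Con.In, e2, h1, h1', Bool.and_self]) (by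
          simp only [Con.rooms, List.mem_cons, List.not_mem_nil, or_false, forall_eq_or_imp, forall_eq, e2]
          refine ⟨⟨h1, by omega, by omega, by omega⟩, ⟨h1', by omega, by omega, by omega⟩⟩)
      simp only [Con.slack, e2] at h2
      simp only [loc, add_zero]
      linarith)
    (by
      intro l hl
      have h1 := (cross_str (P := P) hl (j := 0) hnl).2.1
      have h0 : P.tile (l : ℤ) (-1) = 0 := tile_cross_out (by exact_mod_cast hl) (Or.inl (by omega))
      have h2 : (netOf P.tile).act (9 * (l : ℤ) + 3) (9 * ((0 : ℕ) : ℤ) - 1) = false :=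
        aux_act (l : ℤ) (-1) 3 8 rfl (by norm_num) (by omega) (by omega) (by omega) (by omega) (by rw [h0]; exact cross_m0 _ _)
      have h3 : (netOf P.tile).act (9 * (l : ℤ) + 3 - 1) (9 * ((0 : ℕ) : ℤ) - 1) = false :=
        aux_act (l : ℤ) (-1) 2 8 (by ring) (by norm_num) (by omega) (by omega) (by omega) (by omega)
          (by rw [h0]; exact cross_m0 _ _)
      have h4 := hr (.p3 (9 * (l : ℤ) + 3) (9 * ((0 : ℕ) : ℤ))) (by simp only [Con.In, h1, h2, h3]; simp)
      unfold Con.Holds at h4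
      simp only [Con.Q, Con.slack] at h4
      simp only [loc, add_zero]
      linarith)
    (by
      intro l hl
      have h1 := (cross_str (P := P) hl (j := P.nl - 1) (by omega))
      have h0 : P.tile (l : ℤ) (P.nl : ℤ) = 0 := tile_cross_out (by exact_mod_cast hl) (Or.inr le_rfl)
      have h2 : (netOf P.tile).act (9 * (l : ℤ) + 3) (9 * ((P.nl - 1 : ℕ) : ℤ) + 8 + 1) = false :=
        aux_act (l : ℤ) (P.nl : ℤ) 3 0 rfl (by omega) (by omega) (by omega) (by omega) (by omega)
          (by rw [h0]; exact cross_m0 _ _)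
      have e1 : 9 * (l : ℤ) + 3 - 1 = 9 * (l : ℤ) + 2 := by ring
      have h4 := hr (.p2 (9 * (l : ℤ) + 3) (9 * ((P.nl - 1 : ℕ) : ℤ) + 8))
        (by simp only [Con.In, e1, h1.1, h1.2.2, h2]; simp)
      unfold Con.Holds at h4
      simp only [Con.Q, Con.slack] at h4
      simp only [loc]
      linarith)
  refine ⟨fun l hl => ?_, fun Bd hBd hsrc => ?_⟩
  · refine (k1 l hl).trans (le_of_eq ?_)
    ring
  obtain ⟨k3, k4, k5, k6⟩ := k2 Bd hBd hsrc
  have e70 : Bd + 70 * (18 * M ^ 2) = Bd + 1260 * M ^ 2 := by ring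
  rw [e70] at k3 k4 k5 k6
  refine ⟨k3, fun x y hact hy hx => ?_⟩
  obtain ⟨n, hn⟩ : ∃ n : ℝ, n = (P.ns : ℝ) + P.nl := ⟨_, rfl⟩
  have hn1 : 1 ≤ n := by
    rw [hn]
    have h1 : (1 : ℝ) ≤ P.ns := by exact_mod_cast hns
    have h2 : (0 : ℝ) ≤ P.nl := by positivity
    linarith
  rw [← hn] at k3 k4 k5 k6 ⊢
  have hB : 0 ≤ Bd + 1260 * M ^ 2 := by positivity
  have hn2 : 1 ≤ n ^ 2 := one_le_pow₀ hn1
  have hX : 100 * (3 * (12 * n ^ 2 * (Bd + 1260 * M ^ 2)) + 70 * (18 * M ^ 2)) ≤
      10000 * n ^ 2 * (Bd + 1260 * M ^ 2) := by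
    have h1 : (Bd + 1260 * M ^ 2) ≤ n ^ 2 * (Bd + 1260 * M ^ 2) := le_mul_of_one_le_left hB hn2
    have h2 : 70 * (18 * M ^ 2) ≤ Bd + 1260 * M ^ 2 := by linarith
    nlinarith
  -- the block of the room
  obtain ⟨b, L, J, hb, hin⟩ := cover hP hact
  obtain ⟨⟨g1, g2⟩, g3, g4⟩ := Blk.inside_iff.1 hin
  have fin : ∀ (b : Blk) (l j : ℕ), b.At P.tile l j → b.inside (x - 9 * l) (y - 9 * j) = true →
      (∀ r ∈ b.rooms, |(loc a l j r.1 r.2).1| ≤ 100 * (3 * (12 * n ^ 2 * (Bd + 1260 * M ^ 2)) + 70 * (18 * M ^ 2)) ∧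
        |(loc a l j r.1 r.2).2| ≤ 100 * (3 * (12 * n ^ 2 * (Bd + 1260 * M ^ 2)) + 70 * (18 * M ^ 2))) →
      Bdd (a x y) (10000 * n ^ 2 * (Bd + 1260 * M ^ 2)) := by
    intro b l j hb hin hh
    have h1 : (x - 9 * (l : ℤ), y - 9 * (j : ℤ)) ∈ b.rooms := by
      refine room_of_act hb hin ?_
      simp only
      rw [show 9 * (l : ℤ) + (x - 9 * l) = x by ring, show 9 * (j : ℤ) + (y - 9 * j) = y by ring]
      exact hact
    have h2 := hh _ h1
    simp only [loc] at h2
    rw [show 9 * (l : ℤ) + (x - 9 * l) = x by ring, show 9 * (j : ℤ) + (y - 9 * j) = y by ring] at h2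
    exact ⟨h2.1.trans hX, h2.2.trans hX⟩
  cases hb with
  | V l j hl hj h =>
    refine fin _ l j (at_V hP hl hj h) hin (V_bd hE (sV l hl j hj h) (k6 l hl j hj).1 ?_)
    have h2 := (k6 l hl j hj).2
    rwa [abs_neg] at h2
  | T l j hl hj h =>
    have he1 : P.ended (l + 1) j = true := by rw [ended_succ P hl, (tt_eq_two.1 h).2, Bool.or_true]
    refine fin _ l j (at_T hP hl hj h) hin (T_bd hE (sT l hl j hj h) (k6 l hl j hj).1 ?_ (k4 l hl j hj he1))
    have h2 := (k6 l hl j hj).2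
    rwa [abs_neg] at h2
  | X l j hl hj h =>
    have he : P.ended l j = true := (tt_eq_three.1 h).1
    have he1 : P.ended (l + 1) j = true := by rw [ended_succ P hl, he, Bool.true_or]
    refine fin _ l j (at_X hP hl hj h) hin (X_bd hE (sX l hl j hj h) (k6 l hl j hj).1 ?_ (k4 l hl j hj he1) ?_)
    · have h2 := (k6 l hl j hj).2
      rwa [abs_neg] at h2
    · have h2 := k5 l hl j hj he
      rwa [abs_neg] at h2
  | A l j hl hj h =>
    have he : P.ended l j = true := (tt_eq_four.1 h).1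
    have he1 : P.ended (l + 1) j = true := by rw [ended_succ P hl, he, Bool.true_or]
    refine fin _ l j (at_A hP hl hj h) hin (A_bd hE (sA l hl j hj h) (k6 l hl j hj).1 ?_ (k4 l hl j hj he1) ?_)
    · have h2 := (k6 l hl j hj).2
      rwa [abs_neg] at h2
    · have h2 := k5 l hl j hj he
      rwa [abs_neg] at h2
  | G0 g h => omega
  | G1 g h => omega
  | S v h => omega
  | U => omega
  | E k h1 h2 => omega
  | F => omega

end Pool.Agent.Lib.MP_6ff0c5_lc.N
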