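import Pool.Agent.Lib.MP_6ff0c5_lc.Net.Rooms
import Pool.Agent.Lib.MP_6ff0c5_lc.K.Comp
import Pool.Agent.Lib.MP_6ff0c5_lc.LQ.Def
import Pool.Agent.Lib.MP_6ff0c5_lc.Net.Snd.Cross

section

/-!
MP_6ff0c5_lc, part B: more relations (generated data, checked here).
-/

set_option autoImplicit false
set_option linter.unusedSimpArgs false

namespace Pool.Agent.Lib.MP_6ff0c5_lc.N

/-- the constraints of `rE0` that are not in `rE2n` -/
def rE0r : List Con :=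
  [.h1 4 2, .cp 5 2, .p3 5 2, .cp 6 3, .p2 6 3, .cp 7 4, .p2 7 4, .p1 8 5, .h1 8 6, .h3 8 6, .cp 9 6, .p3 9 6,
   .p1 10 7, .h3 10 8, .p1 10 8, .h3 10 9, .p1 10 9, .h3 10 10, .p1 10 10, .h3 10 11, .p1 10 11, .h3 10 12,
   .p1 10 12, .h3 10 13, .p1 10 13, .h3 10 14, .p1 10 14, .h3 10 15, .p1 10 15, .h3 10 16, .p1 10 16, .h3 10 17,
   .p1 10 17]

theorem rE0r_eq (a : ℤ → ℤ → ℝ × ℝ) :
    (rE2n.map fun c => c.slack a).sum + (rE0r.map fun c => c.slack a).sum = -(a 10 17).2 := by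
  simp only [rE2n, rE0r, List.map_cons, List.map_nil, List.sum_cons, List.sum_nil, Con.slack, a3]
  norm_num
  ring

theorem rE0r_sub : (rE0r.all fun c => decide (c ∈ cE)) = true := by decide +kernel

theorem rE2n_sub : (rE2n.all fun c => decide (c ∈ cE)) = true := by decide +kernel

theorem cov_E2 : (cE.all fun c => decide (c ∈ rE0) || decide (c ∈ rE1) || decide (c ∈ rE2)) = true := by decide +kernel

theorem cUr_sub_rU0 : (cUr.all fun c => decide (c ∈ rU0)) = true := by decide +kernel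

theorem cUu_eq : cUu = cS := by decide +kernel

theorem rU1_eq_rS1 : rU1 = rS1 := by decide +kernel

theorem rU2_eq_rS2 : rU2 = rS2 := by decide +kernel

theorem bS_rooms_sub : (bS.rooms.all fun r => decide (r ∈ bU.rooms ∧ r.1 < 4 ∧ r.2 < 15)) = true := by decide +kernel

theorem bU_rooms_sub : (bU.rooms.all fun r => decide (r.1 < 4 ∧ r.2 < 15 → r ∈ bS.rooms)) = true := by decide +kernel

end Pool.Agent.Lib.MP_6ff0c5_lc.N
end

section

section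

/-!
MP_6ff0c5_lc, part B, soundness: the lanes and the bounds of the gates, and the difference of the second order terms.
-/

set_option autoImplicit false

namespace Pool.Agent.Lib.MP_6ff0c5_lc.N

variable {v w : ℤ → ℤ → ℝ × ℝ} {E : ℝ}

/-- The difference of two products. -/
private theorem gl_prod {x x' y y' A A' B B' : ℝ} (hx : |x| ≤ A) (hy' : |y'| ≤ B) (hx' : |x - x'| ≤ A')
    (hy : |y - y'| ≤ B') : |x * y - x' * y'| ≤ A * B' + A' * B := by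
  have e : x * y - x' * y' = x * (y - y') + (x - x') * y' := by ring
  rw [e]
  exact (abs_add_le _ _).trans (add_le_add (abs_mul_le' hx hy) (abs_mul_le' hx' hy'))

private theorem gl_sub {a b : ℝ × ℝ} {D : ℝ} (h : |a.1 - b.1| ≤ D ∧ |a.2 - b.2| ≤ D) :
    |(a - b).1| ≤ D ∧ |(a - b).2| ≤ D := h

private theorem gl_e1 {a b : ℝ × ℝ} {D : ℝ} (h : |a.1 - b.1| ≤ D ∧ |a.2 - b.2| ≤ D) :
    |e1 a - e1 b| ≤ 23465 * D := by
  have e : e1 a - e1 b = e1 (a - b) := by unfold e1; simp only [Prod.fst_sub, Prod.snd_sub]; ring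
  rw [e]; exact abs_e1_le (gl_sub h)

private theorem gl_e2 {a b : ℝ × ℝ} {D : ℝ} (h : |a.1 - b.1| ≤ D ∧ |a.2 - b.2| ≤ D) :
    |e2 a - e2 b| ≤ 33462 * D := by
  have e : e2 a - e2 b = e2 (a - b) := by unfold e2; simp only [Prod.fst_sub, Prod.snd_sub]; ring
  rw [e]; exact abs_e2_le (gl_sub h)

private theorem gl_e3 {a b : ℝ × ℝ} {D : ℝ} (h : |a.1 - b.1| ≤ D ∧ |a.2 - b.2| ≤ D) :
    |e3 a - e3 b| ≤ 6435 * D := by
  have e : e3 a - e3 b = e3 (a - b) := by unfold e3; simp only [Prod.fst_sub, Prod.snd_sub]; ring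
  rw [e]; exact abs_e3_le (gl_sub h)

private theorem gl_f1 {a b : ℝ × ℝ} {D : ℝ} (h : |a.1 - b.1| ≤ D ∧ |a.2 - b.2| ≤ D) :
    |f1 a - f1 b| ≤ 66785 * D := by
  have e : f1 a - f1 b = f1 (a - b) := by unfold f1; simp only [Prod.fst_sub, Prod.snd_sub]; ring
  rw [e]; exact abs_f1_le (gl_sub h)

private theorem gl_f3 {a b : ℝ × ℝ} {D : ℝ} (h : |a.1 - b.1| ≤ D ∧ |a.2 - b.2| ≤ D) :
    |f3 a - f3 b| ≤ 18315 * D := by
  have e : f3 a - f3 b = f3 (a - b) := by unfold f3; simp only [Prod.fst_sub, Prod.snd_sub]; ring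
  rw [e]; exact abs_f3_le (gl_sub h)

private theorem gl_a3 {a b : ℝ × ℝ} {D : ℝ} (h : |a.1 - b.1| ≤ D ∧ |a.2 - b.2| ≤ D) :
    |a3 a - a3 b| ≤ 2 * D := by
  have e : a3 a - a3 b = a3 (a - b) := by unfold a3; simp only [Prod.fst_sub, Prod.snd_sub]; ring
  rw [e]; exact abs_a3_le (gl_sub h)

/-- The second order terms of two nearby states. -/
theorem Q_diff' {M D : ℝ} (hM : 0 ≤ M) (hD : 0 ≤ D) {c : Con}
    (hv : ∀ r ∈ c.rooms, |(v r.1 r.2).1| ≤ M ∧ |(v r.1 r.2).2| ≤ M)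
    (hw : ∀ r ∈ c.rooms, |(w r.1 r.2).1| ≤ M ∧ |(w r.1 r.2).2| ≤ M)
    (hd : ∀ r ∈ c.rooms, |(v r.1 r.2).1 - (w r.1 r.2).1| ≤ D ∧ |(v r.1 r.2).2 - (w r.1 r.2).2| ≤ D) :
    |c.Q v - c.Q w| ≤ 2 * 151885 * M * D := by
  have hMD : 0 ≤ M * D := mul_nonneg hM hD
  rcases c with ⟨x, y⟩ | ⟨x, y⟩ | ⟨x, y⟩ | ⟨x, y⟩ | ⟨x, y⟩ | ⟨x, y⟩ <;> simp only [Con.rooms, List.mem_cons,
    List.not_mem_nil, or_false, forall_eq_or_imp, forall_eq] at hv hw hd <;> simp only [Con.Q]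
  · obtain ⟨v1, v2⟩ := hv
    obtain ⟨w1, w2⟩ := hw
    obtain ⟨d1, d2⟩ := hd
    have k1 := gl_prod v2.1 (abs_e2_le w1) d2.1 (gl_e2 d1)
    have k2 := gl_prod v1.2 (abs_e1_le w2) d1.2 (gl_e1 d2)
    have e : (v x y).1 * e2 (v (x + 1) y) - (v (x + 1) y).2 * e1 (v x y) -
        ((w x y).1 * e2 (w (x + 1) y) - (w (x + 1) y).2 * e1 (w x y)) =
        ((v x y).1 * e2 (v (x + 1) y) - (w x y).1 * e2 (w (x + 1) y)) -
          ((v (x + 1) y).2 * e1 (v x y) - (w (x + 1) y).2 * e1 (w x y)) := by ring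
    rw [e]
    refine (abs_sub _ _).trans ((add_le_add k1 k2).trans ?_)
    nlinarith
  · obtain ⟨v1, v2⟩ := hv
    obtain ⟨w1, w2⟩ := hw
    obtain ⟨d1, d2⟩ := hd
    have k1 := gl_prod (abs_a3_le v2) (abs_e2_le w1) (gl_a3 d2) (gl_e2 d1)
    have k2 := gl_prod v1.2 (abs_e3_le w2) d1.2 (gl_e3 d2)
    have e : a3 (v x y) * e2 (v x (y - 1)) - (v x (y - 1)).2 * e3 (v x y) -
        (a3 (w x y) * e2 (w x (y - 1)) - (w x (y - 1)).2 * e3 (w x y)) =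
        (a3 (v x y) * e2 (v x (y - 1)) - a3 (w x y) * e2 (w x (y - 1))) -
          ((v x (y - 1)).2 * e3 (v x y) - (w x (y - 1)).2 * e3 (w x y)) := by ring
    rw [e]
    refine (abs_sub _ _).trans ((add_le_add k1 k2).trans ?_)
    nlinarith
  · obtain ⟨v1, v2⟩ := hv
    obtain ⟨w1, w2⟩ := hw
    obtain ⟨d1, d2⟩ := hd
    have k1 := gl_prod (abs_a3_le v2) (abs_f1_le w1) (gl_a3 d2) (gl_f1 d1)
    have k2 := gl_prod v1.1 (abs_f3_le w2) d1.1 (gl_f3 d2)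
    have e : a3 (v (x + 1) (y + 1)) * f1 (v x y) - (v x y).1 * f3 (v (x + 1) (y + 1)) -
        (a3 (w (x + 1) (y + 1)) * f1 (w x y) - (w x y).1 * f3 (w (x + 1) (y + 1))) =
        (a3 (v (x + 1) (y + 1)) * f1 (v x y) - a3 (w (x + 1) (y + 1)) * f1 (w x y)) -
          ((v x y).1 * f3 (v (x + 1) (y + 1)) - (w x y).1 * f3 (w (x + 1) (y + 1))) := by ring
    rw [e]
    refine (abs_sub _ _).trans ((add_le_add k1 k2).trans ?_)
    nlinarith
  all_goals rw [sub_zero, abs_zero]; positivity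

/-- The sum over a relation is bounded below. -/
private theorem gl_sum {l cs : List Con} (hE : 0 ≤ E)
    (hsub : (l.all fun c => decide (c ∈ cs)) = true) (h : ∀ c ∈ cs, -E ≤ c.slack v)
    (hlen : l.length ≤ 144) : -(144 * E) ≤ (l.map fun c => c.slack v).sum := by
  have h1 := sum_ge (v := v) (E := E) l fun c hc =>
    h c (by simpa using List.all_eq_true.1 hsub c hc)
  have h2 : (l.length : ℝ) * E ≤ 144 * E :=
    mul_le_mul_of_nonneg_right (by exact_mod_cast hlen) hE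
  linarith

/-- The members of a relation are bounded above. -/
private theorem gl_le {l cs : List Con} (hE : 0 ≤ E)
    (hsub : (l.all fun c => decide (c ∈ cs)) = true) (h : ∀ c ∈ cs, -E ≤ c.slack v)
    (hlen : l.length ≤ 144) {Y : ℝ} (hs : (l.map fun c => c.slack v).sum ≤ Y) {c : Con}
    (hc : c ∈ l) : c.slack v ≤ Y + 144 * E := by
  have h1 := le_sum_of_ge (E := E) l (fun c => c.slack v) hE
    (fun c hc => h c (by simpa using List.all_eq_true.1 hsub c hc)) hc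
  have h2 : (l.length : ℝ) * E ≤ 144 * E :=
    mul_le_mul_of_nonneg_right (by exact_mod_cast hlen) hE
  linarith

/-- The slacks of a block. -/
private theorem gl_slack {M : ℝ} (hM : 0 ≤ M) {cs : List Con} {rooms : List (ℤ × ℤ)}
    (hr : (cs.all fun c => decide (∀ r ∈ c.rooms, r ∈ rooms)) = true)
    (hb : ∀ r ∈ rooms, |(v r.1 r.2).1| ≤ M ∧ |(v r.1 r.2).2| ≤ M)
    (hc : ∀ c ∈ cs, c.Holds v) : ∀ c ∈ cs, -(18 * M ^ 2) ≤ c.slack v := by
  intro c h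
  have h1 : ∀ r ∈ c.rooms, r ∈ rooms := of_decide_eq_true (List.all_eq_true.1 hr c h)
  exact slack_ge hM (hc c h) fun r hr' => hb r (h1 r hr')

/-- Bounds of the rooms. -/
private theorem gl_bd {l : List Step} {inp : List Port} {cs : List Con} {m : ℕ}
    {rooms : List (ℤ × ℤ)} (hm : m ≤ 100) (hchk : chkSteps l inp cs m rooms = true)
    {B : ℝ} (hB : 0 ≤ B) (hinp : ∀ p ∈ inp, |pval v p| ≤ B) (h : ∀ c ∈ cs, -B ≤ c.slack v)
    (h' : ∀ c ∈ cs, c.slack v ≤ B) :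
    ∀ r ∈ rooms, |(v r.1 r.2).1| ≤ 100 * B ∧ |(v r.1 r.2).2| ≤ 100 * B := by
  intro r hr
  have h1 := chkSteps_spec (a := v) (B := B) hchk hB hinp
    (fun c hc => abs_le.2 ⟨h c hc, h' c hc⟩) hr
  have h2 : (m : ℝ) * B ≤ 100 * B := mul_le_mul_of_nonneg_right (by exact_mod_cast hm) hB
  exact ⟨h1.1.trans h2, h1.2.trans h2⟩

theorem G0_lanes' {M : ℝ} (hM : 0 ≤ M) (hb : ∀ r ∈ bG0.rooms, |(v r.1 r.2).1| ≤ M ∧ |(v r.1 r.2).2| ≤ M)
    (hc : ∀ c ∈ cG0, c.Holds v) (i : ℕ) (hi : i < 3) :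
    (v 2 (5 + 18 * i)).1 - 3000 * M ^ 2 ≤ -(v 0 (5 + 18 * i)).2 ∧
      -(v 2 (5 + 18 * i)).1 - 3000 * M ^ 2 ≤ -(v 0 (14 + 18 * i)).2 := by
  have hM2 : 0 ≤ M ^ 2 := by positivity
  have hE : 0 ≤ 18 * M ^ 2 := by positivity
  have h := gl_slack hM rooms_G0 hb hc
  have p0 := gl_sum (v := v) hE sub_rG0p0 h (by decide)
  have p1 := gl_sum (v := v) hE sub_rG0p1 h (by decide)
  have p2 := gl_sum (v := v) hE sub_rG0p2 h (by decide)
  have m0 := gl_sum (v := v) hE sub_rG0m0 h (by decide +kernel)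
  have m1 := gl_sum (v := v) hE sub_rG0m1 h (by decide +kernel)
  have m2 := gl_sum (v := v) hE sub_rG0m2 h (by decide +kernel)
  rw [rG0p0_eq] at p0
  rw [rG0p1_eq] at p1
  rw [rG0p2_eq] at p2
  rw [rG0m0_eq] at m0
  rw [rG0m1_eq] at m1
  rw [rG0m2_eq] at m2
  have hi' : i = 0 ∨ i = 1 ∨ i = 2 := by omega
  rcases hi' with rfl | rfl | rfl
  · have e1 : (5 : ℤ) + 18 * ((0 : ℕ) : ℤ) = 5 := by norm_num
    have e2 : (14 : ℤ) + 18 * ((0 : ℕ) : ℤ) = 14 := by norm_num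
    rw [e1, e2]
    constructor <;> linarith
  · have e1 : (5 : ℤ) + 18 * ((1 : ℕ) : ℤ) = 23 := by norm_num
    have e2 : (14 : ℤ) + 18 * ((1 : ℕ) : ℤ) = 32 := by norm_num
    rw [e1, e2]
    constructor <;> linarith
  · have e1 : (5 : ℤ) + 18 * ((2 : ℕ) : ℤ) = 41 := by norm_num
    have e2 : (14 : ℤ) + 18 * ((2 : ℕ) : ℤ) = 50 := by norm_num
    rw [e1, e2]
    constructor <;> linarith

theorem G0_bd' {M : ℝ} (hM : 0 ≤ M) (hb : ∀ r ∈ bG0.rooms, |(v r.1 r.2).1| ≤ M ∧ |(v r.1 r.2).2| ≤ M)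
    (hc : ∀ c ∈ cG0, c.Holds v) {X : ℝ} (hX : ∀ i : ℕ, i < 6 → |(v 0 (5 + 9 * i)).2| ≤ X) :
    ∀ r ∈ bG0.rooms, |(v r.1 r.2).1| ≤ 100 * (3 * X + 10000 * M ^ 2) ∧
      |(v r.1 r.2).2| ≤ 100 * (3 * X + 10000 * M ^ 2) := by
  have hM2 : 0 ≤ M ^ 2 := by positivity
  have hE : 0 ≤ 18 * M ^ 2 := by positivity
  have h := gl_slack hM rooms_G0 hb hc
  have x0 : |(v 0 5).2| ≤ X := hX 0 (by norm_num)
  have x1 : |(v 0 14).2| ≤ X := hX 1 (by norm_num)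
  have x2 : |(v 0 23).2| ≤ X := hX 2 (by norm_num)
  have x3 : |(v 0 32).2| ≤ X := hX 3 (by norm_num)
  have x4 : |(v 0 41).2| ≤ X := hX 4 (by norm_num)
  have x5 : |(v 0 50).2| ≤ X := hX 5 (by norm_num)
  have hX0 : 0 ≤ X := (abs_nonneg _).trans x0
  rw [abs_le] at x0 x1 x2 x3 x4 x5
  have l0 : (v 2 5).1 - 3000 * M ^ 2 ≤ -(v 0 5).2 ∧ -(v 2 5).1 - 3000 * M ^ 2 ≤ -(v 0 14).2 :=
    G0_lanes' hM hb hc 0 (by norm_num)
  have l1 : (v 2 23).1 - 3000 * M ^ 2 ≤ -(v 0 23).2 ∧ -(v 2 23).1 - 3000 * M ^ 2 ≤ -(v 0 32).2 :=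
    G0_lanes' hM hb hc 1 (by norm_num)
  have l2 : (v 2 41).1 - 3000 * M ^ 2 ≤ -(v 0 41).2 ∧ -(v 2 41).1 - 3000 * M ^ 2 ≤ -(v 0 50).2 :=
    G0_lanes' hM hb hc 2 (by norm_num)
  refine gl_bd (B := 3 * X + 10000 * M ^ 2) (by norm_num) sG0_chk (by linarith) ?_
    (fun c hc' => by linarith [h c hc']) ?_
  · intro p hp
    simp only [List.mem_cons, List.not_mem_nil, or_false] at hp
    rcases hp with rfl | rfl | rfl
    · show |(v 2 5).1| ≤ _
      rw [abs_le]; constructor <;> linarith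
    · show |(v 2 23).1| ≤ _
      rw [abs_le]; constructor <;> linarith
    · show |(v 2 41).1| ≤ _
      rw [abs_le]; constructor <;> linarith
  · intro c hc
    have hc' : (((((c ∈ rG00 ∨ c ∈ rG0p0) ∨ c ∈ rG0m0) ∨ c ∈ rG0p1) ∨ c ∈ rG0m1) ∨ c ∈ rG0p2) ∨ c ∈ rG0m2 := by
      simpa using List.all_eq_true.1 cov_G0 c hc
    rcases hc' with (((((hc' | hc') | hc') | hc') | hc') | hc') | hc'
    · have h1 := gl_le (Y := 0) hE sub_rG00 h (by decide +kernel) (by rw [rG00_eq]) hc'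
      linarith
    · have h1 := gl_le (Y := 2 * X + 3000 * M ^ 2) hE sub_rG0p0 h (by decide) (by rw [rG0p0_eq]; linarith) hc'
      linarith
    · have h1 := gl_le (Y := 2 * X + 3000 * M ^ 2) hE sub_rG0m0 h (by decide +kernel)
        (by rw [rG0m0_eq]; linarith) hc'
      linarith
    · have h1 := gl_le (Y := 2 * X + 3000 * M ^ 2) hE sub_rG0p1 h (by decide) (by rw [rG0p1_eq]; linarith) hc'
      linarith
    · have h1 := gl_le (Y := 2 * X + 3000 * M ^ 2) hE sub_rG0m1 h (by decide +kernel)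
        (by rw [rG0m1_eq]; linarith) hc'
      linarith
    · have h1 := gl_le (Y := 2 * X + 3000 * M ^ 2) hE sub_rG0p2 h (by decide) (by rw [rG0p2_eq]; linarith) hc'
      linarith
    · have h1 := gl_le (Y := 2 * X + 3000 * M ^ 2) hE sub_rG0m2 h (by decide +kernel)
        (by rw [rG0m2_eq]; linarith) hc'
      linarith

theorem G1_lanes' {M : ℝ} (hM : 0 ≤ M) (hb : ∀ r ∈ bG1.rooms, |(v r.1 r.2).1| ≤ M ∧ |(v r.1 r.2).2| ≤ M)
    (hc : ∀ c ∈ cG1, c.Holds v) (i : ℕ) (hi : i < 3) :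
    (v 2 (5 + 18 * i)).1 - 3000 * M ^ 2 ≤ -(v 0 (5 + 18 * i)).2 ∧
      -(v 2 (5 + 18 * i)).1 - 3000 * M ^ 2 ≤ -(v 0 (14 + 18 * i)).2 := by
  have hM2 : 0 ≤ M ^ 2 := by positivity
  have hE : 0 ≤ 18 * M ^ 2 := by positivity
  have h := gl_slack hM rooms_G1 hb hc
  have p0 := gl_sum (v := v) hE sub_rG1p0 h (by decide)
  have p1 := gl_sum (v := v) hE sub_rG1p1 h (by decide)
  have p2 := gl_sum (v := v) hE sub_rG1p2 h (by decide)
  have m0 := gl_sum (v := v) hE sub_rG1m0 h (by decide +kernel)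
  have m1 := gl_sum (v := v) hE sub_rG1m1 h (by decide +kernel)
  have m2 := gl_sum (v := v) hE sub_rG1m2 h (by decide +kernel)
  rw [rG1p0_eq] at p0
  rw [rG1p1_eq] at p1
  rw [rG1p2_eq] at p2
  rw [rG1m0_eq] at m0
  rw [rG1m1_eq] at m1
  rw [rG1m2_eq] at m2
  have hi' : i = 0 ∨ i = 1 ∨ i = 2 := by omega
  rcases hi' with rfl | rfl | rfl
  · have e1 : (5 : ℤ) + 18 * ((0 : ℕ) : ℤ) = 5 := by norm_num
    have e2 : (14 : ℤ) + 18 * ((0 : ℕ) : ℤ) = 14 := by norm_num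
    rw [e1, e2]
    constructor <;> linarith
  · have e1 : (5 : ℤ) + 18 * ((1 : ℕ) : ℤ) = 23 := by norm_num
    have e2 : (14 : ℤ) + 18 * ((1 : ℕ) : ℤ) = 32 := by norm_num
    rw [e1, e2]
    constructor <;> linarith
  · have e1 : (5 : ℤ) + 18 * ((2 : ℕ) : ℤ) = 41 := by norm_num
    have e2 : (14 : ℤ) + 18 * ((2 : ℕ) : ℤ) = 50 := by norm_num
    rw [e1, e2]
    constructor <;> linarith

theorem G1_bd' {M : ℝ} (hM : 0 ≤ M) (hb : ∀ r ∈ bG1.rooms, |(v r.1 r.2).1| ≤ M ∧ |(v r.1 r.2).2| ≤ M)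
    (hc : ∀ c ∈ cG1, c.Holds v) {X : ℝ} (hX : ∀ i : ℕ, i < 6 → |(v 0 (5 + 9 * i)).2| ≤ X) :
    ∀ r ∈ bG1.rooms, |(v r.1 r.2).1| ≤ 100 * (3 * X + 10000 * M ^ 2) ∧
      |(v r.1 r.2).2| ≤ 100 * (3 * X + 10000 * M ^ 2) := by
  have hM2 : 0 ≤ M ^ 2 := by positivity
  have hE : 0 ≤ 18 * M ^ 2 := by positivity
  have h := gl_slack hM rooms_G1 hb hc
  have x0 : |(v 0 5).2| ≤ X := hX 0 (by norm_num)
  have x1 : |(v 0 14).2| ≤ X := hX 1 (by norm_num)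
  have x2 : |(v 0 23).2| ≤ X := hX 2 (by norm_num)
  have x3 : |(v 0 32).2| ≤ X := hX 3 (by norm_num)
  have x4 : |(v 0 41).2| ≤ X := hX 4 (by norm_num)
  have x5 : |(v 0 50).2| ≤ X := hX 5 (by norm_num)
  have hX0 : 0 ≤ X := (abs_nonneg _).trans x0
  rw [abs_le] at x0 x1 x2 x3 x4 x5
  have l0 : (v 2 5).1 - 3000 * M ^ 2 ≤ -(v 0 5).2 ∧ -(v 2 5).1 - 3000 * M ^ 2 ≤ -(v 0 14).2 :=
    G1_lanes' hM hb hc 0 (by norm_num)
  have l1 : (v 2 23).1 - 3000 * M ^ 2 ≤ -(v 0 23).2 ∧ -(v 2 23).1 - 3000 * M ^ 2 ≤ -(v 0 32).2 :=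
    G1_lanes' hM hb hc 1 (by norm_num)
  have l2 : (v 2 41).1 - 3000 * M ^ 2 ≤ -(v 0 41).2 ∧ -(v 2 41).1 - 3000 * M ^ 2 ≤ -(v 0 50).2 :=
    G1_lanes' hM hb hc 2 (by norm_num)
  refine gl_bd (B := 3 * X + 10000 * M ^ 2) (by norm_num) sG1_chk (by linarith) ?_
    (fun c hc' => by linarith [h c hc']) ?_
  · intro p hp
    simp only [List.mem_cons, List.not_mem_nil, or_false] at hp
    rcases hp with rfl | rfl | rfl
    · show |(v 2 5).1| ≤ _
      rw [abs_le]; constructor <;> linarith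
    · show |(v 2 23).1| ≤ _
      rw [abs_le]; constructor <;> linarith
    · show |(v 2 41).1| ≤ _
      rw [abs_le]; constructor <;> linarith
  · intro c hc
    have hc' : (((((c ∈ rG10 ∨ c ∈ rG1p0) ∨ c ∈ rG1m0) ∨ c ∈ rG1p1) ∨ c ∈ rG1m1) ∨ c ∈ rG1p2) ∨ c ∈ rG1m2 := by
      simpa using List.all_eq_true.1 cov_G1 c hc
    rcases hc' with (((((hc' | hc') | hc') | hc') | hc') | hc') | hc'
    · have h1 := gl_le (Y := 0) hE sub_rG10 h (by decide +kernel) (by rw [rG10_eq]) hc'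
      linarith
    · have h1 := gl_le (Y := 2 * X + 3000 * M ^ 2) hE sub_rG1p0 h (by decide) (by rw [rG1p0_eq]; linarith) hc'
      linarith
    · have h1 := gl_le (Y := 2 * X + 3000 * M ^ 2) hE sub_rG1m0 h (by decide +kernel)
        (by rw [rG1m0_eq]; linarith) hc'
      linarith
    · have h1 := gl_le (Y := 2 * X + 3000 * M ^ 2) hE sub_rG1p1 h (by decide) (by rw [rG1p1_eq]; linarith) hc'
      linarith
    · have h1 := gl_le (Y := 2 * X + 3000 * M ^ 2) hE sub_rG1m1 h (by decide +kernel)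
        (by rw [rG1m1_eq]; linarith) hc'
      linarith
    · have h1 := gl_le (Y := 2 * X + 3000 * M ^ 2) hE sub_rG1p2 h (by decide) (by rw [rG1p2_eq]; linarith) hc'
      linarith
    · have h1 := gl_le (Y := 2 * X + 3000 * M ^ 2) hE sub_rG1m2 h (by decide +kernel)
        (by rw [rG1m2_eq]; linarith) hc'
      linarith

end Pool.Agent.Lib.MP_6ff0c5_lc.N
end

section

/-!
MP_6ff0c5_lc, part B, soundness: the quadratic inequalities of the gates (`G0_gate'`, `G1_gate'`).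
-/

set_option autoImplicit false

namespace Pool.Agent.Lib.MP_6ff0c5_lc.N

variable {v w : ℤ → ℤ → ℝ × ℝ}

private theorem glb_mem {α : Type*} {l : List α} {p : α → Prop} [DecidablePred p]
    (h : (l.all fun c => decide (p c)) = true) {c : α} (hc : c ∈ l) : p c := by
  simpa using List.all_eq_true.1 h c hc

private theorem glb_prod {x x' y y' X Y D : ℝ} (hX : 0 ≤ X) (hY : 0 ≤ Y) (hD : 0 ≤ D) {M : ℝ} (hM : 0 ≤ M)
    (h1 : |x| ≤ X * M) (h2 : |y'| ≤ Y * M) (h3 : |x - x'| ≤ X * D) (h4 : |y - y'| ≤ Y * D) :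
    |x * y - x' * y'| ≤ 2 * (X * Y) * (M * D) := by
  have e : x * y - x' * y' = x * (y - y') + (x - x') * y' := by ring
  rw [e]
  calc |x * (y - y') + (x - x') * y'| ≤ |x * (y - y')| + |(x - x') * y'| := abs_add_le _ _
    _ ≤ (X * M) * (Y * D) + (X * D) * (Y * M) := add_le_add (abs_mul_le' h1 h4) (abs_mul_le' h3 h2)
    _ = _ := by ring

/-- The second order terms of two nearby states. -/
theorem Q_diffB {M D : ℝ} (hM : 0 ≤ M) (hD : 0 ≤ D) {c : Con}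
    (hv : ∀ r ∈ c.rooms, |(v r.1 r.2).1| ≤ M ∧ |(v r.1 r.2).2| ≤ M)
    (hw : ∀ r ∈ c.rooms, |(w r.1 r.2).1| ≤ M ∧ |(w r.1 r.2).2| ≤ M)
    (hd : ∀ r ∈ c.rooms, |(v r.1 r.2).1 - (w r.1 r.2).1| ≤ D ∧ |(v r.1 r.2).2 - (w r.1 r.2).2| ≤ D) :
    |c.Q v - c.Q w| ≤ 2 * 151885 * M * D := by
  have hMD : 0 ≤ M * D := mul_nonneg hM hD
  have d3 : ∀ {p q : ℝ × ℝ}, |p.1 - q.1| ≤ D ∧ |p.2 - q.2| ≤ D → |a3 p - a3 q| ≤ 2 * D := by
    intro p q h
    have e : a3 p - a3 q = a3 (p - q) := by simp only [a3, Prod.fst_sub, Prod.snd_sub]; ring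
    rw [e]
    exact abs_a3_le h
  have de1 : ∀ {p q : ℝ × ℝ}, |p.1 - q.1| ≤ D ∧ |p.2 - q.2| ≤ D → |e1 p - e1 q| ≤ 23465 * D := by
    intro p q h
    have e : e1 p - e1 q = e1 (p - q) := by simp only [e1, Prod.fst_sub, Prod.snd_sub]; ring
    rw [e]
    exact abs_e1_le h
  have de2 : ∀ {p q : ℝ × ℝ}, |p.1 - q.1| ≤ D ∧ |p.2 - q.2| ≤ D → |e2 p - e2 q| ≤ 33462 * D := by
    intro p q h
    have e : e2 p - e2 q = e2 (p - q) := by simp only [e2, Prod.fst_sub, Prod.snd_sub]; ring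
    rw [e]
    exact abs_e2_le h
  have de3 : ∀ {p q : ℝ × ℝ}, |p.1 - q.1| ≤ D ∧ |p.2 - q.2| ≤ D → |e3 p - e3 q| ≤ 6435 * D := by
    intro p q h
    have e : e3 p - e3 q = e3 (p - q) := by simp only [e3, Prod.fst_sub, Prod.snd_sub]; ring
    rw [e]
    exact abs_e3_le h
  have df1 : ∀ {p q : ℝ × ℝ}, |p.1 - q.1| ≤ D ∧ |p.2 - q.2| ≤ D → |f1 p - f1 q| ≤ 66785 * D := by
    intro p q h
    have e : f1 p - f1 q = f1 (p - q) := by simp only [f1, Prod.fst_sub, Prod.snd_sub]; ring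
    rw [e]
    exact abs_f1_le h
  have df3 : ∀ {p q : ℝ × ℝ}, |p.1 - q.1| ≤ D ∧ |p.2 - q.2| ≤ D → |f3 p - f3 q| ≤ 18315 * D := by
    intro p q h
    have e : f3 p - f3 q = f3 (p - q) := by simp only [f3, Prod.fst_sub, Prod.snd_sub]; ring
    rw [e]
    exact abs_f3_le h
  have one : ∀ {x : ℝ}, |x| ≤ M → |x| ≤ 1 * M := fun h => by rw [one_mul]; exact h
  have oned : ∀ {x : ℝ}, |x| ≤ D → |x| ≤ 1 * D := fun h => by rw [one_mul]; exact h
  have fin : ∀ {p q p' q' : ℝ} {a b : ℝ}, |p - p'| ≤ 2 * a * (M * D) → |q - q'| ≤ 2 * b * (M * D) →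
      a + b ≤ 151885 → |p - q - (p' - q')| ≤ 2 * 151885 * M * D := by
    intro p q p' q' a b h1 h2 h3
    have e : p - q - (p' - q') = (p - p') - (q - q') := by ring
    rw [e]
    refine (abs_sub _ _).trans ?_
    nlinarith
  rcases c with ⟨x, y⟩ | ⟨x, y⟩ | ⟨x, y⟩ | ⟨x, y⟩ | ⟨x, y⟩ | ⟨x, y⟩ <;> simp only [Con.rooms, List.mem_cons,
    List.not_mem_nil, or_false, forall_eq_or_imp, forall_eq] at hv hw hd <;> simp only [Con.Q]
  · exact fin
      (glb_prod (X := 1) (Y := 33462) (by norm_num) (by norm_num) hD hM (one hv.2.1) (abs_e2_le hw.1) (oned hd.2.1)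
        (de2 hd.1))
      (glb_prod (X := 1) (Y := 23465) (by norm_num) (by norm_num) hD hM (one hv.1.2) (abs_e1_le hw.2) (oned hd.1.2)
        (de1 hd.2)) (by norm_num)
  · exact fin
      (glb_prod (X := 2) (Y := 33462) (by norm_num) (by norm_num) hD hM (abs_a3_le hv.2) (abs_e2_le hw.1) (d3 hd.2)
        (de2 hd.1))
      (glb_prod (X := 1) (Y := 6435) (by norm_num) (by norm_num) hD hM (one hv.1.2) (abs_e3_le hw.2) (oned hd.1.2)
        (de3 hd.2)) (by norm_num)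
  · exact fin
      (glb_prod (X := 2) (Y := 66785) (by norm_num) (by norm_num) hD hM (abs_a3_le hv.2) (abs_f1_le hw.1) (d3 hd.2)
        (df1 hd.1))
      (glb_prod (X := 1) (Y := 18315) (by norm_num) (by norm_num) hD hM (one hv.1.1) (abs_f3_le hw.2) (oned hd.1.1)
        (df3 hd.2)) (by norm_num)
  all_goals
    rw [sub_self, abs_zero]
    nlinarith

/-! ### Integer tables as real states -/

private noncomputable def glbC (t : ℤ → ℤ → ℤ × ℤ) (x y : ℤ) : ℝ × ℝ := (((t x y).1 : ℝ), ((t x y).2 : ℝ))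

private theorem glb_Q (t : ℤ → ℤ → ℤ × ℤ) (c : Con) : c.Q (glbC t) = ((c.Q t : ℤ) : ℝ) := by
  rcases c with ⟨x, y⟩ | ⟨x, y⟩ | ⟨x, y⟩ | ⟨x, y⟩ | ⟨x, y⟩ | ⟨x, y⟩ <;>
    simp only [Con.Q, glbC, a3, e1, e2, e3, f1, f3] <;> push_cast <;> ring

private theorem glb_slack (t : ℤ → ℤ → ℤ × ℤ) (c : Con) : c.slack (glbC t) = ((c.slack t : ℤ) : ℝ) := by
  rcases c with ⟨x, y⟩ | ⟨x, y⟩ | ⟨x, y⟩ | ⟨x, y⟩ | ⟨x, y⟩ | ⟨x, y⟩ <;>
    simp only [Con.slack, glbC, a3] <;> push_cast <;> ring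

private theorem glb_pol (s t : ℤ → ℤ → ℤ × ℤ) (c : Con) :
    c.pol (glbC s) (glbC t) = ((c.pol s t : ℤ) : ℝ) := by
  rcases c with ⟨x, y⟩ | ⟨x, y⟩ | ⟨x, y⟩ | ⟨x, y⟩ | ⟨x, y⟩ | ⟨x, y⟩ <;>
    simp only [Con.pol, Con.Q, glbC, a3, e1, e2, e3, f1, f3, Prod.fst_add, Prod.snd_add] <;> push_cast <;> ring

/-- the combination of three states -/
private noncomputable def glbW (z0 z1 z2 : ℝ) (t0 t1 t2 : ℤ → ℤ → ℤ × ℤ) (x y : ℤ) : ℝ × ℝ :=
  (z0 * (t0 x y).1 + z1 * (t1 x y).1 + z2 * (t2 x y).1, z0 * (t0 x y).2 + z1 * (t1 x y).2 + z2 * (t2 x y).2)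

private theorem glb_W_slack (z0 z1 z2 : ℝ) (t0 t1 t2 : ℤ → ℤ → ℤ × ℤ) (c : Con) :
    c.slack (glbW z0 z1 z2 t0 t1 t2) = z0 * (c.slack t0 : ℤ) + z1 * (c.slack t1 : ℤ) + z2 * (c.slack t2 : ℤ) := by
  rcases c with ⟨x, y⟩ | ⟨x, y⟩ | ⟨x, y⟩ | ⟨x, y⟩ | ⟨x, y⟩ | ⟨x, y⟩ <;>
    simp only [Con.slack, glbW, a3] <;> push_cast <;> ring

private theorem glb_W_Q (z0 z1 z2 : ℝ) (t0 t1 t2 : ℤ → ℤ → ℤ × ℤ) (c : Con) :
    c.Q (glbW z0 z1 z2 t0 t1 t2) = z0 ^ 2 * (c.Q t0 : ℤ) + z1 ^ 2 * (c.Q t1 : ℤ) + z2 ^ 2 * (c.Q t2 : ℤ) +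
      z0 * z1 * (c.pol t0 t1 : ℤ) + z0 * z2 * (c.pol t0 t2 : ℤ) + z1 * z2 * (c.pol t1 t2 : ℤ) := by
  rcases c with ⟨x, y⟩ | ⟨x, y⟩ | ⟨x, y⟩ | ⟨x, y⟩ | ⟨x, y⟩ | ⟨x, y⟩ <;>
    simp only [Con.pol, Con.Q, glbW, a3, e1, e2, e3, f1, f3, Prod.fst_add, Prod.snd_add] <;> push_cast <;> ring

private theorem glb_look {l : List (ℤ × ℤ × ℤ × ℤ)} (h : (l.all fun e => decide (|e.2.2.1| ≤ 1 ∧ |e.2.2.2| ≤ 1)) = true)
    (x y : ℤ) : |((look4 l x y).1 : ℝ)| ≤ 1 ∧ |((look4 l x y).2 : ℝ)| ≤ 1 := by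
  induction l with
  | nil => simp [look4]
  | cons e l ih =>
    rw [List.all_cons, Bool.and_eq_true] at h
    unfold look4
    split_ifs with h1
    · have h2 : |e.2.2.1| ≤ 1 ∧ |e.2.2.2| ≤ 1 := by simpa using h.1
      exact ⟨by exact_mod_cast h2.1, by exact_mod_cast h2.2⟩
    · exact ih h.2

private theorem glb_W_bd {M z0 z1 z2 : ℝ} (h0 : |z0| ≤ M) (h1 : |z1| ≤ M) (h2 : |z2| ≤ M)
    {t0 t1 t2 : ℤ → ℤ → ℤ × ℤ} (b0 : ∀ x y, |((t0 x y).1 : ℝ)| ≤ 1 ∧ |((t0 x y).2 : ℝ)| ≤ 1)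
    (b1 : ∀ x y, |((t1 x y).1 : ℝ)| ≤ 1 ∧ |((t1 x y).2 : ℝ)| ≤ 1)
    (b2 : ∀ x y, |((t2 x y).1 : ℝ)| ≤ 1 ∧ |((t2 x y).2 : ℝ)| ≤ 1) (x y : ℤ) :
    |(glbW z0 z1 z2 t0 t1 t2 x y).1| ≤ 3 * M ∧ |(glbW z0 z1 z2 t0 t1 t2 x y).2| ≤ 3 * M := by
  have key : ∀ a b c : ℝ, |a| ≤ 1 → |b| ≤ 1 → |c| ≤ 1 → |z0 * a + z1 * b + z2 * c| ≤ 3 * M := by
    intro a b c ha hb hc
    have k0 := abs_mul_le' h0 ha
    have k1 := abs_mul_le' h1 hb
    have k2 := abs_mul_le' h2 hc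
    have j1 := abs_add_le (z0 * a + z1 * b) (z2 * c)
    have j2 := abs_add_le (z0 * a) (z1 * b)
    linarith
  exact ⟨key _ _ _ (b0 x y).1 (b1 x y).1 (b2 x y).1, key _ _ _ (b0 x y).2 (b1 x y).2 (b2 x y).2⟩

private theorem glb_sum_add (l : List Con) (f g h : Con → ℝ) (a b c : ℝ) :
    (l.map fun c' => a * f c' + b * g c' + c * h c').sum = a * (l.map f).sum + b * (l.map g).sum + c * (l.map h).sum := by
  induction l with
  | nil => simp
  | cons e l ih =>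
    simp only [List.map_cons, List.sum_cons, ih]
    ring

private theorem glb_sum_cast (l : List Con) (f : Con → ℤ) : (l.map fun c => (f c : ℝ)).sum = (((l.map f).sum : ℤ) : ℝ) := by
  induction l with
  | nil => simp
  | cons e l ih =>
    simp only [List.map_cons, List.sum_cons, ih]
    push_cast
    ring

private theorem glb_sum_le (l : List Con) (f g : Con → ℝ) (K : ℝ) (h : ∀ c ∈ l, f c ≤ g c + K) :
    (l.map f).sum ≤ (l.map g).sum + l.length * K := by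
  induction l with
  | nil => simp
  | cons e l ih =>
    simp only [List.map_cons, List.sum_cons, List.length_cons]
    have h1 := h e List.mem_cons_self
    have h2 := ih fun c hc => h c (List.mem_cons_of_mem _ hc)
    push_cast
    linarith

private theorem glb_sum_mul (l : List Con) (f : Con → ℝ) (K : ℝ) :
    (l.map fun c => K * f c).sum = K * (l.map f).sum := by
  induction l with
  | nil => simp
  | cons e l ih =>
    simp only [List.map_cons, List.sum_cons, ih]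
    ring

/-- The gate inequality for a closed relation. -/
private theorem glb_gate {M : ℝ} (hM : 0 ≤ M) {rG : List Con} {rr br : List (ℤ × ℤ)} {st : List Step} {n : ℕ}
    (hn : n ≤ 68) (hlen : rG.length ≤ 130)
    (hst : chkSteps st [(2, 5, .one), (2, 23, .one), (2, 41, .one)] rG n rr = true)
    (hrooms : (rG.all fun c => decide (∀ r ∈ c.rooms, r ∈ rr)) = true)
    (hsub : (rr.all fun r => decide (r ∈ br)) = true)
    (hb : ∀ r ∈ br, |(v r.1 r.2).1| ≤ M ∧ |(v r.1 r.2).2| ≤ M)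
    (h5 : ((2 : ℤ), (5 : ℤ)) ∈ br) (h23 : ((2 : ℤ), (23 : ℤ)) ∈ br) (h41 : ((2 : ℤ), (41 : ℤ)) ∈ br)
    (hc : ∀ c ∈ rG, c.Holds v) (hsum : (rG.map fun c => c.slack v).sum = 0)
    {t0 t1 t2 : ℤ → ℤ → ℤ × ℤ} {s0 s1 s2 : ℤ}
    (b0 : ∀ x y, |((t0 x y).1 : ℝ)| ≤ 1 ∧ |((t0 x y).2 : ℝ)| ≤ 1)
    (b1 : ∀ x y, |((t1 x y).1 : ℝ)| ≤ 1 ∧ |((t1 x y).2 : ℝ)| ≤ 1)
    (b2 : ∀ x y, |((t2 x y).1 : ℝ)| ≤ 1 ∧ |((t2 x y).2 : ℝ)| ≤ 1)
    (k0 : ∀ c ∈ rG, c.slack t0 = 0) (k1 : ∀ c ∈ rG, c.slack t1 = 0) (k2 : ∀ c ∈ rG, c.slack t2 = 0)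
    (v0 : (t0 2 5).1 = 1 ∧ (t0 2 23).1 = 0 ∧ (t0 2 41).1 = 0) (v1 : (t1 2 5).1 = 0 ∧ (t1 2 23).1 = 1 ∧ (t1 2 41).1 = 0)
    (v2 : (t2 2 5).1 = 0 ∧ (t2 2 23).1 = 0 ∧ (t2 2 41).1 = 1)
    (q0 : (rG.map fun c => c.Q t0).sum = s0) (q1 : (rG.map fun c => c.Q t1).sum = s1)
    (q2 : (rG.map fun c => c.Q t2).sum = s2)
    (p01 : ∀ c ∈ rG, c.pol t0 t1 = 0) (p02 : ∀ c ∈ rG, c.pol t0 t2 = 0) (p12 : ∀ c ∈ rG, c.pol t1 t2 = 0) :
    (v 2 5).1 ^ 2 * s0 + (v 2 23).1 ^ 2 * s1 + (v 2 41).1 ^ 2 * s2 ≤ 32750 * (10 ^ 10 * M ^ 3) := by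
  obtain ⟨z0, hz0⟩ : ∃ z : ℝ, z = (v 2 5).1 := ⟨_, rfl⟩
  obtain ⟨z1, hz1⟩ : ∃ z : ℝ, z = (v 2 23).1 := ⟨_, rfl⟩
  obtain ⟨z2, hz2⟩ : ∃ z : ℝ, z = (v 2 41).1 := ⟨_, rfl⟩
  have m0 : |z0| ≤ M := by rw [hz0]; exact (hb _ h5).1
  have m1 : |z1| ≤ M := by rw [hz1]; exact (hb _ h23).1
  have m2 : |z2| ≤ M := by rw [hz2]; exact (hb _ h41).1
  rw [← hz0, ← hz1, ← hz2]
  obtain ⟨w, hw⟩ : ∃ w : ℤ → ℤ → ℝ × ℝ, w = glbW z0 z1 z2 t0 t1 t2 := ⟨_, rfl⟩
  have hbr : ∀ c ∈ rG, ∀ r ∈ c.rooms, r ∈ rr := fun c hc => glb_mem hrooms hc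
  have hbv : ∀ c ∈ rG, ∀ r ∈ c.rooms, |(v r.1 r.2).1| ≤ M ∧ |(v r.1 r.2).2| ≤ M := fun c hc r hr =>
    hb r (glb_mem hsub (hbr c hc r hr))
  have hbw : ∀ x y, |(w x y).1| ≤ 3 * M ∧ |(w x y).2| ≤ 3 * M := by
    rw [hw]
    exact glb_W_bd m0 m1 m2 b0 b1 b2
  have hM2 : 0 ≤ M ^ 2 := by positivity
  have hM3 : 0 ≤ M ^ 3 := by positivity
  -- slacks of `v`
  have hlow : ∀ c ∈ rG, -(18 * M ^ 2) ≤ c.slack v := fun c hc' => slack_ge hM (hc c hc') (hbv c hc')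
  have hlenR : (rG.length : ℝ) ≤ 130 := by exact_mod_cast hlen
  have hsl : ∀ c ∈ rG, |c.slack v| ≤ 2340 * M ^ 2 := by
    intro c hc'
    have h1 := le_sum_of_ge rG (fun c => c.slack v) (E := 18 * M ^ 2) (by positivity) hlow hc'
    rw [hsum, zero_add] at h1
    have h2 : (rG.length : ℝ) * (18 * M ^ 2) ≤ 130 * (18 * M ^ 2) :=
      mul_le_mul_of_nonneg_right hlenR (by positivity)
    rw [abs_le]
    exact ⟨by linarith [hlow c hc'], by linarith⟩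
  -- the difference
  obtain ⟨d, hd⟩ : ∃ d : ℤ → ℤ → ℝ × ℝ, d = fun x y => v x y - w x y := ⟨_, rfl⟩
  have hds : ∀ c ∈ rG, c.slack d = c.slack v := by
    intro c hc'
    have e1 : c.slack d = c.slack v - c.slack w := by
      rw [hd]
      rcases c with ⟨x, y⟩ | ⟨x, y⟩ | ⟨x, y⟩ | ⟨x, y⟩ | ⟨x, y⟩ | ⟨x, y⟩ <;>
        simp only [Con.slack, a3, Prod.fst_sub, Prod.snd_sub] <;> ring
    rw [e1, hw, glb_W_slack, k0 c hc', k1 c hc', k2 c hc']
    simp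
  have hdi : ∀ p ∈ [((2 : ℤ), (5 : ℤ), K.one), ((2 : ℤ), (23 : ℤ), K.one), ((2 : ℤ), (41 : ℤ), K.one)],
      |pval d p| ≤ 2340 * M ^ 2 := by
    intro p hp
    simp only [List.mem_cons, List.not_mem_nil, or_false] at hp
    rcases hp with rfl | rfl | rfl
    · have e : pval d ((2 : ℤ), (5 : ℤ), K.one) = 0 := by
        show (d 2 5).1 = 0
        rw [hd, hw]
        simp only [Prod.fst_sub, glbW, v0.1, v1.1, v2.1, ← hz0]
        push_cast
        ring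
      rw [e, abs_zero]
      positivity
    · have e : pval d ((2 : ℤ), (23 : ℤ), K.one) = 0 := by
        show (d 2 23).1 = 0
        rw [hd, hw]
        simp only [Prod.fst_sub, glbW, v0.2.1, v1.2.1, v2.2.1, ← hz1]
        push_cast
        ring
      rw [e, abs_zero]
      positivity
    · have e : pval d ((2 : ℤ), (41 : ℤ), K.one) = 0 := by
        show (d 2 41).1 = 0
        rw [hd, hw]
        simp only [Prod.fst_sub, glbW, v0.2.2, v1.2.2, v2.2.2, ← hz2]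
        push_cast
        ring
      rw [e, abs_zero]
      positivity
  have hdd : ∀ r ∈ rr, |(d r.1 r.2).1| ≤ 68 * (2340 * M ^ 2) ∧ |(d r.1 r.2).2| ≤ 68 * (2340 * M ^ 2) := by
    intro r hr
    have h1 := chkSteps_spec hst (B := 2340 * M ^ 2) (by positivity) hdi
      (fun c hc' => by rw [hds c hc']; exact hsl c hc') hr
    have hnR : (n : ℝ) ≤ 68 := by exact_mod_cast hn
    have h2 : (n : ℝ) * (2340 * M ^ 2) ≤ 68 * (2340 * M ^ 2) := mul_le_mul_of_nonneg_right hnR (by positivity)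
    exact ⟨h1.1.trans h2, h1.2.trans h2⟩
  have hQ : ∀ c ∈ rG, c.Q w ≤ c.Q v + 2 * 151885 * (3 * M) * (68 * (2340 * M ^ 2)) := by
    intro c hc'
    have h1 := Q_diffB (v := v) (w := w) (M := 3 * M) (D := 68 * (2340 * M ^ 2)) (by positivity) (by positivity) (c := c)
      (fun r hr => by
        obtain ⟨g1, g2⟩ := hbv c hc' r hr
        exact ⟨by linarith, by linarith⟩)
      (fun r _ => hbw _ _)
      (fun r hr => by
        have := hdd r (hbr c hc' r hr)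
        rw [hd] at this
        exact this)
    have h2 := (abs_le.1 h1).1
    linarith
  have hS := glb_sum_le rG (fun c => c.Q w) (fun c => c.Q v) _ hQ
  have hS2 : (rG.map fun c => c.Q v).sum ≤ 0 := by
    have h1 := glb_sum_le rG (fun c => c.Q v) (fun c => 8664 * c.slack v) 0 (fun c hc' => by
      rw [add_zero]
      exact (hc c hc').le)
    rw [glb_sum_mul, hsum] at h1
    linarith
  have hS3 : (rG.map fun c => c.Q w).sum = z0 ^ 2 * s0 + z1 ^ 2 * s1 + z2 ^ 2 * s2 := by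
    have e : (rG.map fun c => c.Q w) = rG.map fun c => z0 ^ 2 * ((c.Q t0 : ℤ) : ℝ) + z1 ^ 2 * ((c.Q t1 : ℤ) : ℝ) +
        z2 ^ 2 * ((c.Q t2 : ℤ) : ℝ) := by
      refine List.map_congr_left fun c hc' => ?_
      rw [hw, glb_W_Q, p01 c hc', p02 c hc', p12 c hc']
      push_cast
      ring
    rw [e, glb_sum_add, glb_sum_cast, glb_sum_cast, glb_sum_cast, q0, q1, q2]
  rw [hS3] at hS
  have h1 : (rG.length : ℝ) * (2 * 151885 * (3 * M) * (68 * (2340 * M ^ 2))) ≤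
      130 * (2 * 151885 * (3 * M) * (68 * (2340 * M ^ 2))) := mul_le_mul_of_nonneg_right hlenR (by positivity)
  have h2 : 130 * (2 * 151885 * (3 * M) * (68 * (2340 * M ^ 2))) ≤ 32750 * (10 ^ 10 * M ^ 3) := by
    have e : 130 * (2 * 151885 * (3 * M) * (68 * (2340 * M ^ 2))) =
        (130 * (2 * 151885 * 3 * (68 * 2340))) * M ^ 3 := by ring
    rw [e]
    nlinarith
  linarith

/-- The quadratic inequality of the gate of type I. -/
theorem G0_gate' {M : ℝ} (hM : 0 ≤ M) (hb : ∀ r ∈ bG0.rooms, |(v r.1 r.2).1| ≤ M ∧ |(v r.1 r.2).2| ≤ M)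
    (hc : ∀ c ∈ cG0, c.Holds v) :
    -(10 ^ 10 * M ^ 3) ≤ LQ.gateVal false (v 2 5).1 (v 2 23).1 (v 2 41).1 := by
  have hs : ∀ c ∈ rG00, c ∈ cG0 := fun c hc' => glb_mem sub_rG00 hc'
  have key := glb_gate (v := v) hM (n := 66) (by norm_num) (by decide +kernel) sG0r_chk rooms_G0r rooms_G0r_sub hb
    (by decide +kernel) (by decide +kernel) (by decide +kernel) (fun c hc' => hc c (hs c hc')) (rG00_eq v)
    (t0 := tzG00) (t1 := tzG01) (t2 := tzG02) (glb_look tzG00_bd) (glb_look tzG01_bd) (glb_look tzG02_bd)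
    (fun c hc' => glb_mem tzG00_slack (hs c hc')) (fun c hc' => glb_mem tzG01_slack (hs c hc'))
    (fun c hc' => glb_mem tzG02_slack (hs c hc'))
    ⟨tzG00_val.1, tzG00_val.2.1, tzG00_val.2.2.1⟩ ⟨tzG01_val.1, tzG01_val.2.1, tzG01_val.2.2.1⟩
    ⟨tzG02_val.1, tzG02_val.2.1, tzG02_val.2.2.1⟩ tzG00_Q tzG01_Q tzG02_Q
    (fun c hc' => glb_mem tG0_pol01 hc') (fun c hc' => glb_mem tG0_pol02 hc') (fun c hc' => glb_mem tG0_pol12 hc')
  push_cast at key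
  have e : LQ.gateVal false (v 2 5).1 (v 2 23).1 (v 2 41).1 = (v 2 5).1 ^ 2 - (v 2 23).1 ^ 2 - (v 2 41).1 ^ 2 := by
    simp [LQ.gateVal]
  rw [e]
  linarith

/-- The quadratic inequality of the gate of type II. -/
theorem G1_gate' {M : ℝ} (hM : 0 ≤ M) (hb : ∀ r ∈ bG1.rooms, |(v r.1 r.2).1| ≤ M ∧ |(v r.1 r.2).2| ≤ M)
    (hc : ∀ c ∈ cG1, c.Holds v) :
    -(10 ^ 10 * M ^ 3) ≤ LQ.gateVal true (v 2 5).1 (v 2 23).1 (v 2 41).1 := by
  have hs : ∀ c ∈ rG10, c ∈ cG1 := fun c hc' => glb_mem sub_rG10 hc'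
  have key := glb_gate (v := v) hM (n := 68) (by norm_num) (by decide +kernel) sG1r_chk rooms_G1r rooms_G1r_sub hb
    (by decide +kernel) (by decide +kernel) (by decide +kernel) (fun c hc' => hc c (hs c hc')) (rG10_eq v)
    (t0 := tzG10) (t1 := tzG11) (t2 := tzG12) (glb_look tzG10_bd) (glb_look tzG11_bd) (glb_look tzG12_bd)
    (fun c hc' => glb_mem tzG10_slack (hs c hc')) (fun c hc' => glb_mem tzG11_slack (hs c hc'))
    (fun c hc' => glb_mem tzG12_slack (hs c hc'))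
    ⟨tzG10_val.1, tzG10_val.2.1, tzG10_val.2.2.1⟩ ⟨tzG11_val.1, tzG11_val.2.1, tzG11_val.2.2.1⟩
    ⟨tzG12_val.1, tzG12_val.2.1, tzG12_val.2.2.1⟩ tzG10_Q tzG11_Q tzG12_Q
    (fun c hc' => glb_mem tG1_pol01 hc') (fun c hc' => glb_mem tG1_pol02 hc') (fun c hc' => glb_mem tG1_pol12 hc')
  push_cast at key
  have e : LQ.gateVal true (v 2 5).1 (v 2 23).1 (v 2 41).1 = (v 2 5).1 ^ 2 + (v 2 23).1 ^ 2 - (v 2 41).1 ^ 2 := by
    simp [LQ.gateVal]
  rw [e]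
  linarith

end Pool.Agent.Lib.MP_6ff0c5_lc.N
end

section

/-!
MP_6ff0c5_lc, part B, soundness: the sources of pairs of lanes (block `S`, and the same rooms in the block `U`).
-/

set_option autoImplicit false

namespace Pool.Agent.Lib.MP_6ff0c5_lc.N

variable {v : ℤ → ℤ → ℝ × ℝ} {E : ℝ}

private theorem sl_sum {l cs : List Con} (hE : 0 ≤ E)
    (hsub : (l.all fun c => decide (c ∈ cs)) = true) (h : ∀ c ∈ cs, -E ≤ c.slack v) {n : ℕ}
    (hlen : l.length ≤ n) : -(n * E) ≤ (l.map fun c => c.slack v).sum := by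
  have h1 := sum_ge (v := v) (E := E) l fun c hc =>
    h c (by simpa using List.all_eq_true.1 hsub c hc)
  have h2 : (l.length : ℝ) * E ≤ n * E :=
    mul_le_mul_of_nonneg_right (by exact_mod_cast hlen) hE
  linarith

private theorem sl_le {l cs : List Con} (hE : 0 ≤ E)
    (hsub : (l.all fun c => decide (c ∈ cs)) = true) (h : ∀ c ∈ cs, -E ≤ c.slack v) {n : ℕ}
    (hlen : l.length ≤ n) {Y : ℝ} (hs : (l.map fun c => c.slack v).sum ≤ Y) {c : Con}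
    (hc : c ∈ l) : c.slack v ≤ Y + n * E := by
  have h1 := le_sum_of_ge (E := E) l (fun c => c.slack v) hE
    (fun c hc => h c (by simpa using List.all_eq_true.1 hsub c hc)) hc
  have h2 : (l.length : ℝ) * E ≤ n * E :=
    mul_le_mul_of_nonneg_right (by exact_mod_cast hlen) hE
  linarith

/-- relation `rS1_eq` -/
theorem S_pos (hE : 0 ≤ E) (h : ∀ c ∈ cS, -E ≤ c.slack v) : (v 2 5).1 - 30 * E ≤ -(v 0 5).2 := by
  have h1 := sl_sum (v := v) hE sub_rS1 h (n := 30) (by decide)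
  rw [rS1_eq] at h1
  push_cast at h1
  linarith

/-- relation `rS2_eq` -/
theorem S_neg (hE : 0 ≤ E) (h : ∀ c ∈ cS, -E ≤ c.slack v) : -(v 2 5).1 - 30 * E ≤ -(v 0 14).2 := by
  have h1 := sl_sum (v := v) hE sub_rS2 h (n := 30) (by decide)
  rw [rS2_eq] at h1
  push_cast at h1
  linarith

/-- The slacks are at most `2 X + 48 E` (`cov_S`), `|(v 2 5).1| ≤ X + 24 E`; steps `sS_chk`. -/
theorem S_bd (hE : 0 ≤ E) (h : ∀ c ∈ cS, -E ≤ c.slack v) {X : ℝ} (h1 : |(v 0 5).2| ≤ X) (h2 : |(v 0 14).2| ≤ X) :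
    ∀ r ∈ bS.rooms, |(v r.1 r.2).1| ≤ 100 * (3 * X + 70 * E) ∧ |(v r.1 r.2).2| ≤ 100 * (3 * X + 70 * E) := by
  intro r hr
  have hX : 0 ≤ X := (abs_nonneg _).trans h1
  have hp := S_pos hE h
  have hn := S_neg hE h
  have ha := neg_abs_le (v 0 5).2
  have hb := neg_abs_le (v 0 14).2
  have ha' := le_abs_self (v 0 5).2
  have hb' := le_abs_self (v 0 14).2
  have hB : 0 ≤ 3 * X + 70 * E := by linarith
  have hz : |(v 2 5).1| ≤ 3 * X + 70 * E := abs_le.2 ⟨by linarith, by linarith⟩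
  have hcs : ∀ c ∈ cS, |c.slack v| ≤ 3 * X + 70 * E := by
    intro c hc
    refine abs_le.2 ⟨by linarith [h c hc], ?_⟩
    have hc' : c ∈ rS1 ∨ c ∈ rS2 := by simpa using List.all_eq_true.1 cov_S c hc
    rcases hc' with hc' | hc'
    · have h3 := sl_le (v := v) (n := 5) hE sub_rS1 h (by decide) (Y := 2 * X + 30 * E)
        (by rw [rS1_eq]; linarith) hc'
      push_cast at h3
      linarith
    · have h3 := sl_le (v := v) (n := 24) hE sub_rS2 h (by decide) (Y := 2 * X + 30 * E)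
        (by rw [rS2_eq]; linarith) hc'
      push_cast at h3
      linarith
  have h3 := chkSteps_spec (a := v) (B := 3 * X + 70 * E) sS_chk hB
    (fun p hp => by
      simp only [List.mem_cons, List.not_mem_nil, or_false] at hp
      subst hp
      exact hz) hcs hr
  have h4 : ((25 : ℕ) : ℝ) * (3 * X + 70 * E) ≤ 100 * (3 * X + 70 * E) :=
    mul_le_mul_of_nonneg_right (by norm_num) hB
  exact ⟨h3.1.trans h4, h3.2.trans h4⟩

end Pool.Agent.Lib.MP_6ff0c5_lc.N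
end

section

/-!
MP_6ff0c5_lc, part B, soundness: the gates.
-/

set_option autoImplicit false

namespace Pool.Agent.Lib.MP_6ff0c5_lc.N

variable {v w : ℤ → ℤ → ℝ × ℝ}

/-- The second order terms of two nearby states. (`Q` is a quadratic form: `Q v - Q w = B(v, v - w) + B(v - w, w)` with the
obvious bilinear forms; the proof of `Q_bound` gives `|B(x, y)| ≤ 151885 |x| |y|`.) -/
theorem Q_diff {M D : ℝ} (hM : 0 ≤ M) (hD : 0 ≤ D) {c : Con}
    (hv : ∀ r ∈ c.rooms, |(v r.1 r.2).1| ≤ M ∧ |(v r.1 r.2).2| ≤ M)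
    (hw : ∀ r ∈ c.rooms, |(w r.1 r.2).1| ≤ M ∧ |(w r.1 r.2).2| ≤ M)
    (hd : ∀ r ∈ c.rooms, |(v r.1 r.2).1 - (w r.1 r.2).1| ≤ D ∧ |(v r.1 r.2).2 - (w r.1 r.2).2| ≤ D) :
    |c.Q v - c.Q w| ≤ 2 * 151885 * M * D :=
  Q_diff' hM hD hv hw hd

/-- `M` bounds the rooms of the gate. Then every slack is `≥ -18 M²` (`slack_ge`, `rooms_G0`). Relations `rG0p0_eq`,
`rG0m0_eq` etc. (at most 144 terms). -/
theorem G0_lanes {M : ℝ} (hM : 0 ≤ M) (hb : ∀ r ∈ bG0.rooms, |(v r.1 r.2).1| ≤ M ∧ |(v r.1 r.2).2| ≤ M)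
    (hc : ∀ c ∈ cG0, c.Holds v) (i : ℕ) (hi : i < 3) :
    (v 2 (5 + 18 * i)).1 - 3000 * M ^ 2 ≤ -(v 0 (5 + 18 * i)).2 ∧
      -(v 2 (5 + 18 * i)).1 - 3000 * M ^ 2 ≤ -(v 0 (14 + 18 * i)).2 :=
  G0_lanes' hM hb hc i hi

/-- If the output lanes are bounded by `X`, then all rooms are bounded. (Relation `rG00_eq`: the slacks of the relation are
between `-18 M²` and `126 * 18 M²`; the others are at most `2 X + 6000 M²`; `|(v 2 (5+18i)).1| ≤ X + 3000 M²`; steps `sG0_chk`,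
`cov_G0`.) -/
theorem G0_bd {M : ℝ} (hM : 0 ≤ M) (hb : ∀ r ∈ bG0.rooms, |(v r.1 r.2).1| ≤ M ∧ |(v r.1 r.2).2| ≤ M)
    (hc : ∀ c ∈ cG0, c.Holds v) {X : ℝ} (hX : ∀ i : ℕ, i < 6 → |(v 0 (5 + 9 * i)).2| ≤ X) :
    ∀ r ∈ bG0.rooms, |(v r.1 r.2).1| ≤ 100 * (3 * X + 10000 * M ^ 2) ∧
      |(v r.1 r.2).2| ≤ 100 * (3 * X + 10000 * M ^ 2) :=
  G0_bd' hM hb hc hX

/-- The quadratic inequality. Let `z_i = (v 2 (5+18i)).1`, `w x y = ∑ z_i • (tzG0i x y : ℝ × ℝ)` (cast of the integer tables).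
The slacks of `w` vanish (`tzG00_slack` etc.), so the state `v - w` has input ports 0 and slacks at most `2300 M²` on `rG00`;
by `sG0r_chk` (`chkSteps_spec`) `|v - w| ≤ 68 * 2300 M²` on the rooms `rG0r`, which contain the rooms of `rG00` (`rooms_G0r`).
`∑_{c ∈ rG00} Q w c = ∑ z_i² (∑ Q tzG0i c) = -32750 z_0² + 32750 z_1² + 32750 z_2²` by `tzG00_Q` etc. and the vanishing polar
forms `tG0_pol01` etc. Finally `0 = ∑ slack > ∑ Q v / 8664` over `rG00` and `Q_diff`. -/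
theorem G0_gate {M : ℝ} (hM : 0 ≤ M) (hb : ∀ r ∈ bG0.rooms, |(v r.1 r.2).1| ≤ M ∧ |(v r.1 r.2).2| ≤ M)
    (hc : ∀ c ∈ cG0, c.Holds v) :
    -(10 ^ 10 * M ^ 3) ≤ LQ.gateVal false (v 2 5).1 (v 2 23).1 (v 2 41).1 :=
  G0_gate' hM hb hc

theorem G1_lanes {M : ℝ} (hM : 0 ≤ M) (hb : ∀ r ∈ bG1.rooms, |(v r.1 r.2).1| ≤ M ∧ |(v r.1 r.2).2| ≤ M)
    (hc : ∀ c ∈ cG1, c.Holds v) (i : ℕ) (hi : i < 3) :
    (v 2 (5 + 18 * i)).1 - 3000 * M ^ 2 ≤ -(v 0 (5 + 18 * i)).2 ∧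
      -(v 2 (5 + 18 * i)).1 - 3000 * M ^ 2 ≤ -(v 0 (14 + 18 * i)).2 :=
  G1_lanes' hM hb hc i hi

theorem G1_bd {M : ℝ} (hM : 0 ≤ M) (hb : ∀ r ∈ bG1.rooms, |(v r.1 r.2).1| ≤ M ∧ |(v r.1 r.2).2| ≤ M)
    (hc : ∀ c ∈ cG1, c.Holds v) {X : ℝ} (hX : ∀ i : ℕ, i < 6 → |(v 0 (5 + 9 * i)).2| ≤ X) :
    ∀ r ∈ bG1.rooms, |(v r.1 r.2).1| ≤ 100 * (3 * X + 10000 * M ^ 2) ∧
      |(v r.1 r.2).2| ≤ 100 * (3 * X + 10000 * M ^ 2) :=
  G1_bd' hM hb hc hX

theorem G1_gate {M : ℝ} (hM : 0 ≤ M) (hb : ∀ r ∈ bG1.rooms, |(v r.1 r.2).1| ≤ M ∧ |(v r.1 r.2).2| ≤ M)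
    (hc : ∀ c ∈ cG1, c.Holds v) :
    -(10 ^ 10 * M ^ 3) ≤ LQ.gateVal true (v 2 5).1 (v 2 23).1 (v 2 41).1 :=
  G1_gate' hM hb hc

end Pool.Agent.Lib.MP_6ff0c5_lc.N
end

section

/-!
MP_6ff0c5_lc, part B, soundness: the local states of the source blocks.
-/

set_option autoImplicit false

namespace Pool.Agent.Lib.MP_6ff0c5_lc.N

variable {P : Lay} {a : ℤ → ℤ → ℝ × ℝ}

theorem loc_eq {L J x y X Y : ℤ} (hX : 9 * L + x = X) (hY : 9 * J + y = Y) : loc a L J x y = a X Y := by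
  unfold loc
  rw [hX, hY]

theorem mem_rooms_of_tbit {b : Blk} {x y : ℤ} (hin : b.inside x y = true)
    (ht : tbit masks (b.tid x y) (x % 9) (y % 9) = true) : (x, y) ∈ b.rooms := by
  obtain ⟨⟨h1, h2⟩, h3, h4⟩ := Blk.inside_iff.1 hin
  unfold Blk.rooms
  rw [List.mem_flatMap]
  refine ⟨y.toNat, ?_, ?_⟩
  · rw [List.mem_range]
    omega
  · rw [List.mem_filter]
    refine ⟨?_, ht⟩
    rw [List.mem_map]
    refine ⟨x.toNat, ?_, ?_⟩
    · rw [List.mem_range]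
      omega
    · rw [Int.toNat_of_nonneg h1, Int.toNat_of_nonneg h3]

/-- an active room inside a block is a room of the block -/
theorem mem_rooms_of_act {b : Blk} {T : ℤ → ℤ → ℕ} {L J : ℤ} (hb : b.At T L J) {x y : ℤ}
    (hin : b.inside (x - 9 * L) (y - 9 * J) = true) (ha : (netOf T).act x y = true) :
    (x - 9 * L, y - 9 * J) ∈ b.rooms := by
  refine mem_rooms_of_tbit hin ?_
  obtain ⟨h1, h2, h3⟩ := hb.tid hin
  have e1 : 9 * L + (x - 9 * L) = x := by ring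
  have e2 : 9 * J + (y - 9 * J) = y := by ring
  rw [e1, e2] at h1
  rw [e1] at h2
  rw [e2] at h3
  rw [← h1, ← h2, ← h3]
  exact ha

theorem blk_bdd {b : Blk} {J : ℤ} (hb : b.At P.tile P.ns J) (hins : (b.rooms.all fun r => b.inside r.1 r.2) = true)
    (hw : b.w = 1) (hJ : 2 ≤ J) {M : ℝ} (hmain : ∀ x y, P.Main x y → Bdd (a x y) M) :
    ∀ r ∈ b.rooms, |(loc a P.ns J r.1 r.2).1| ≤ M ∧ |(loc a P.ns J r.1 r.2).2| ≤ M := by
  intro r hr
  obtain ⟨⟨h1, h2⟩, h3, h4⟩ := Blk.inside_iff.1 (List.all_eq_true.1 hins r hr)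
  rw [hw] at h2
  exact hmain _ _ ⟨act_of_room hb hr, by omega, by omega, by omega⟩

theorem blk_slack {b : Blk} {J : ℤ} {cs : List Con} (hr : (netOf P.tile).Red a) (hb : b.At P.tile P.ns J)
    (hc : b.cons = cs) (hrm : (cs.all fun c => decide (∀ r ∈ c.rooms, r ∈ b.rooms)) = true) {M : ℝ} (hM : 0 ≤ M)
    (hbd : ∀ r ∈ b.rooms, |(loc a P.ns J r.1 r.2).1| ≤ M ∧ |(loc a P.ns J r.1 r.2).2| ≤ M) :
    ∀ c ∈ cs, -(18 * M ^ 2) ≤ c.slack (loc a P.ns J) := by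
  intro c hcc
  refine slack_ge hM (holds_loc hr hb (by rw [hc]; exact hcc)) fun r hrr => hbd r ?_
  exact (of_decide_eq_true (List.all_eq_true.1 hrm c hcc)) r hrr

/-- the state of a block `S` -/
theorem S_local (hP : P.OK) (hr : (netOf P.tile).Red a) {M : ℝ} (hM : 0 ≤ M)
    (hmain : ∀ x y, P.Main x y → Bdd (a x y) M) {v : ℕ} (hv : v < P.V) :
    ∀ c ∈ cS, -(18 * M ^ 2) ≤ c.slack (loc a P.ns (2 + 6 * P.G.length + 2 * v)) := by
  have hb := at_S hP hv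
  have h1 := blk_bdd hb inside_S rfl (by omega) hmain
  exact blk_slack hr hb cons_S rooms_S hM h1

/-- the source of the unit -/
theorem U_local (hP : P.OK) (hr : (netOf P.tile).Red a) {M : ℝ} (hM : 0 ≤ M)
    (hmain : ∀ x y, P.Main x y → Bdd (a x y) M) :
    ∀ c ∈ cS, -(18 * M ^ 2) ≤ c.slack (loc a P.ns 0) := by
  have hb := at_U hP
  intro c hc
  rw [← cUu_eq] at hc
  have hcU : c ∈ cU := of_decide_eq_true (List.all_eq_true.1 cUu_sub c hc)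
  refine slack_ge hM (holds_loc hr hb (by rw [cons_U]; exact hcU)) fun r hrr => ?_
  obtain ⟨h1, h2, h3⟩ := (of_decide_eq_true (List.all_eq_true.1 rooms_Uu c hc)) r hrr
  obtain ⟨⟨h4, h5⟩, h6, h7⟩ := Blk.inside_iff.1 (List.all_eq_true.1 inside_U r h1)
  exact hmain _ _ ⟨act_of_room hb h1, by omega, by omega, by omega⟩

/-- the state of a gate of type I -/
theorem G0_local (hP : P.OK) (hr : (netOf P.tile).Red a) {M : ℝ}
    (hmain : ∀ x y, P.Main x y → Bdd (a x y) M) {g : ℕ} (hg : P.G[g]? = some false) :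
    (∀ r ∈ bG0.rooms, |(loc a P.ns (2 + 6 * g) r.1 r.2).1| ≤ M ∧ |(loc a P.ns (2 + 6 * g) r.1 r.2).2| ≤ M) ∧
      ∀ c ∈ cG0, c.Holds (loc a P.ns (2 + 6 * g)) := by
  have hb := at_G0 hP hg
  exact ⟨blk_bdd hb inside_G0 rfl (by omega) hmain, fun c hc => holds_loc hr hb (by rw [cons_G0]; exact hc)⟩

/-- the state of a gate of type II -/
theorem G1_local (hP : P.OK) (hr : (netOf P.tile).Red a) {M : ℝ}
    (hmain : ∀ x y, P.Main x y → Bdd (a x y) M) {g : ℕ} (hg : P.G[g]? = some true) :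
    (∀ r ∈ bG1.rooms, |(loc a P.ns (2 + 6 * g) r.1 r.2).1| ≤ M ∧ |(loc a P.ns (2 + 6 * g) r.1 r.2).2| ≤ M) ∧
      ∀ c ∈ cG1, c.Holds (loc a P.ns (2 + 6 * g)) := by
  have hb := at_G1 hP hg
  exact ⟨blk_bdd hb inside_G1 rfl (by omega) hmain, fun c hc => holds_loc hr hb (by rw [cons_G1]; exact hc)⟩

/-- the rooms of the block `U` in the column of the sources -/
theorem U_rooms_main : (bU.rooms.all fun r => decide (r.1 < 9 ∧ r.2 ≠ 15 → r ∈ bS.rooms)) = true := by decide +kernel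

/-! ### The lanes at the sources -/

/-- `2 + 2 v` and `3 + 2 v` are the lanes of the variable `v`. -/
private theorem ma_G {g i : ℕ} {M : ℝ}
    (h : (loc a P.ns (2 + 6 * g) 2 (5 + 18 * i)).1 - 3000 * M ^ 2 ≤ -(loc a P.ns (2 + 6 * g) 0 (5 + 18 * i)).2 ∧
      -(loc a P.ns (2 + 6 * g) 2 (5 + 18 * i)).1 - 3000 * M ^ 2 ≤ -(loc a P.ns (2 + 6 * g) 0 (14 + 18 * i)).2)
    {v : ℕ} (hv : v = 3 * g + i) :
    (a (9 * P.ns + 2) (9 * (2 + 2 * v) + 5)).1 - 3000 * M ^ 2 ≤ srcv P a (2 + 2 * v) ∧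
      -(a (9 * P.ns + 2) (9 * (2 + 2 * v) + 5)).1 - 3000 * M ^ 2 ≤ srcv P a (3 + 2 * v) := by
  subst hv
  rw [loc_eq (X := 9 * P.ns + 2) (Y := 9 * (2 + 2 * ((3 * g + i : ℕ) : ℤ)) + 5) rfl (by push_cast; ring),
    loc_eq (X := 9 * P.ns) (Y := 9 * ((2 + 2 * (3 * g + i) : ℕ) : ℤ) + 5) (by ring) (by push_cast; ring),
    loc_eq (X := 9 * P.ns) (Y := 9 * ((3 + 2 * (3 * g + i) : ℕ) : ℤ) + 5) (by ring) (by push_cast; ring)] at h
  exact h

theorem main_srcv_ge (hP : P.OK) (hr : (netOf P.tile).Red a) {M : ℝ} (hM : 0 ≤ M)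
    (hmain : ∀ x y, P.Main x y → Bdd (a x y) M) :
    (a (9 * P.ns + 2) 5).1 - 3000 * M ^ 2 ≤ srcv P a 0 ∧ -(a (9 * P.ns + 2) 5).1 - 3000 * M ^ 2 ≤ srcv P a 1 ∧
      ∀ v < P.nvar, (a (9 * P.ns + 2) (9 * (2 + 2 * v) + 5)).1 - 3000 * M ^ 2 ≤ srcv P a (2 + 2 * v) ∧
        -(a (9 * P.ns + 2) (9 * (2 + 2 * v) + 5)).1 - 3000 * M ^ 2 ≤ srcv P a (3 + 2 * v) := by
  have hM2 : 0 ≤ 18 * M ^ 2 := by positivity
  have hU := U_local hP hr hM hmain
  have u1 := S_pos hM2 hU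
  have u2 := S_neg hM2 hU
  rw [loc_eq (X := 9 * P.ns + 2) (Y := 5) rfl (by norm_num),
    loc_eq (X := 9 * P.ns) (Y := 9 * ((0 : ℕ) : ℤ) + 5) (by ring) (by norm_num)] at u1
  rw [loc_eq (X := 9 * P.ns + 2) (Y := 5) rfl (by norm_num),
    loc_eq (X := 9 * P.ns) (Y := 9 * ((1 : ℕ) : ℤ) + 5) (by ring) (by norm_num)] at u2
  refine ⟨?_, ?_, fun v hv => ?_⟩
  · unfold srcv
    linarith
  · unfold srcv
    linarith
  · have hn : P.nvar = 3 * P.G.length + P.V := rfl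
    rcases Nat.lt_or_ge v (3 * P.G.length) with h | h
    · have hg : v / 3 < P.G.length := by omega
      have hget : P.G[v / 3]? = some P.G[v / 3] := List.getElem?_eq_getElem hg
      cases ht : P.G[v / 3] with
      | false =>
        rw [ht] at hget
        obtain ⟨h1, h2⟩ := G0_local hP hr hmain hget
        exact ma_G (G0_lanes hM h1 h2 (v % 3) (Nat.mod_lt v (by norm_num)))
          (by omega)
      | true =>
        rw [ht] at hget
        obtain ⟨h1, h2⟩ := G1_local hP hr hmain hget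
        exact ma_G (G1_lanes hM h1 h2 (v % 3) (Nat.mod_lt v (by norm_num)))
          (by omega)
    · obtain ⟨w, rfl⟩ : ∃ w, v = 3 * P.G.length + w := ⟨v - 3 * P.G.length, by omega⟩
      have hw : w < P.V := by omega
      have hS := S_local hP hr hM hmain hw
      have s1 := S_pos hM2 hS
      have s2 := S_neg hM2 hS
      rw [loc_eq (X := 9 * P.ns + 2) (Y := 9 * (2 + 2 * ((3 * P.G.length + w : ℕ) : ℤ)) + 5) rfl
          (by push_cast; ring),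
        loc_eq (X := 9 * P.ns) (Y := 9 * ((2 + 2 * (3 * P.G.length + w) : ℕ) : ℤ) + 5) (by ring)
          (by push_cast; ring)] at s1
      rw [loc_eq (X := 9 * P.ns + 2) (Y := 9 * (2 + 2 * ((3 * P.G.length + w : ℕ) : ℤ)) + 5) rfl
          (by push_cast; ring),
        loc_eq (X := 9 * P.ns) (Y := 9 * ((3 + 2 * (3 * P.G.length + w) : ℕ) : ℤ) + 5) (by ring)
          (by push_cast; ring)] at s2
      unfold srcv
      constructor <;> linarith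

/-! ### The rooms of the sources -/

private theorem ma_Bdd {p : ℝ × ℝ} {m m' : ℝ} (h : |p.1| ≤ m ∧ |p.2| ≤ m) (hm : m ≤ m') : Bdd p m' :=
  ⟨h.1.trans hm, h.2.trans hm⟩

theorem main_src_bd (hP : P.OK) (hr : (netOf P.tile).Red a) {M : ℝ} (hM : 0 ≤ M)
    (hmain : ∀ x y, P.Main x y → Bdd (a x y) M)
    {X : ℝ} (hX : ∀ j < P.nl, |srcv P a j| ≤ X) {x y : ℤ} (h : P.Main x y) (hx : 9 * (P.ns : ℤ) ≤ x) :
    Bdd (a x y) (300 * X + 1000000 * M ^ 2) := by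
  have hM2 : 0 ≤ 18 * M ^ 2 := by positivity
  have hM3 : 0 ≤ M ^ 2 := by positivity
  have hnl : P.nl = 2 + 2 * (3 * P.G.length + P.V) := rfl
  -- the lanes
  have hl : ∀ {J : ℤ} {y' : ℤ} (j : ℕ), j < P.nl → 9 * J + y' = 9 * (j : ℤ) + 5 →
      |(loc a P.ns J 0 y').2| ≤ X := by
    intro J y' j hj he
    rw [loc_eq (X := 9 * P.ns) (Y := 9 * (j : ℤ) + 5) (by ring) he]
    have h1 := hX j hj
    unfold srcv at h1
    rwa [abs_neg] at h1
  obtain ⟨hact, hy0, hx1, hy15⟩ := h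
  have hback : ∀ {L J : ℤ}, loc a L J (x - 9 * L) (y - 9 * J) = a x y := fun {L J} =>
    loc_eq (by ring) (by ring)
  obtain ⟨b, L, J, hb, hin⟩ := cover hP hact
  obtain ⟨⟨i1, i2⟩, i3, i4⟩ := Blk.inside_iff.1 hin
  cases hb with
  | V l j hl' hj h => simp only [bV] at i2; omega
  | T l j hl' hj h => simp only [bT] at i2; omega
  | X l j hl' hj h => simp only [bX] at i2; omega
  | A l j hl' hj h => simp only [bA] at i2; omega
  | E k h1 h2 => omega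
  | F => omega
  | G0 g hg =>
    have hbb := at_G0 hP hg
    have hr' := mem_rooms_of_act hbb hin hact
    have hgl : g < P.G.length := by
      by_contra hge
      rw [List.getElem?_eq_none (by omega)] at hg
      exact absurd hg (by simp)
    obtain ⟨h1, h2⟩ := G0_local hP hr hmain hg
    have h3 := G0_bd hM h1 h2 (X := X) (fun i hi => hl (2 + 6 * g + i) (by omega) (by push_cast; ring)) _ hr'
    simp only [hback] at h3
    exact ma_Bdd h3 (by linarith)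
  | G1 g hg =>
    have hbb := at_G1 hP hg
    have hr' := mem_rooms_of_act hbb hin hact
    have hgl : g < P.G.length := by
      by_contra hge
      rw [List.getElem?_eq_none (by omega)] at hg
      exact absurd hg (by simp)
    obtain ⟨h1, h2⟩ := G1_local hP hr hmain hg
    have h3 := G1_bd hM h1 h2 (X := X) (fun i hi => hl (2 + 6 * g + i) (by omega) (by push_cast; ring)) _ hr'
    simp only [hback] at h3
    exact ma_Bdd h3 (by linarith)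
  | S v hv =>
    have hbb := at_S hP hv
    have hr' := mem_rooms_of_act hbb hin hact
    have hS := S_local hP hr hM hmain hv
    have h3 := S_bd hM2 hS (X := X) (hl (2 + 6 * P.G.length + 2 * v) (by omega) (by push_cast; ring))
      (hl (3 + 6 * P.G.length + 2 * v) (by omega) (by push_cast; ring)) _ hr'
    simp only [hback] at h3
    exact ma_Bdd h3 (by linarith)
  | U =>
    have hbb := at_U hP
    have hr' := mem_rooms_of_act hbb hin hact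
    have hU := U_local hP hr hM hmain
    have hr'' := (of_decide_eq_true (List.all_eq_true.1 U_rooms_main _ hr')) ⟨by omega, by omega⟩
    have h3 := S_bd hM2 hU (X := X) (hl 0 (by omega) (by norm_num)) (hl 1 (by omega) (by norm_num)) _ hr''
    simp only [hback] at h3
    exact ma_Bdd h3 (by linarith)

/-- the gates -/
theorem main_gate_ge (hP : P.OK) (hr : (netOf P.tile).Red a) {M : ℝ} (hM : 0 ≤ M)
    (hmain : ∀ x y, P.Main x y → Bdd (a x y) M) {g : ℕ} {t : Bool} (hg : P.G[g]? = some t) :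
    -(10 ^ 10 * M ^ 3) ≤ LQ.gateVal t (a (9 * P.ns + 2) (9 * (2 + 2 * ((3 * g : ℕ) : ℤ)) + 5)).1
      (a (9 * P.ns + 2) (9 * (2 + 2 * ((3 * g + 1 : ℕ) : ℤ)) + 5)).1
      (a (9 * P.ns + 2) (9 * (2 + 2 * ((3 * g + 2 : ℕ) : ℤ)) + 5)).1 := by
  have e0 : loc a P.ns (2 + 6 * g) 2 5 = a (9 * P.ns + 2) (9 * (2 + 2 * ((3 * g : ℕ) : ℤ)) + 5) :=
    loc_eq rfl (by push_cast; ring)
  have e1 : loc a P.ns (2 + 6 * g) 2 23 = a (9 * P.ns + 2) (9 * (2 + 2 * ((3 * g + 1 : ℕ) : ℤ)) + 5) :=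
    loc_eq rfl (by push_cast; ring)
  have e2 : loc a P.ns (2 + 6 * g) 2 41 = a (9 * P.ns + 2) (9 * (2 + 2 * ((3 * g + 2 : ℕ) : ℤ)) + 5) :=
    loc_eq rfl (by push_cast; ring)
  rw [← e0, ← e1, ← e2]
  cases t with
  | false =>
    obtain ⟨h1, h2⟩ := G0_local hP hr hmain hg
    exact G0_gate hM h1 h2
  | true =>
    obtain ⟨h1, h2⟩ := G1_local hP hr hmain hg
    exact G1_gate hM h1 h2

end Pool.Agent.Lib.MP_6ff0c5_lc.N
end
end

section

/-!
MP_6ff0c5_lc, part B, soundness: the blocks of the chain and the comparator, local inequalities.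
-/

set_option autoImplicit false

namespace Pool.Agent.Lib.MP_6ff0c5_lc.N

variable {v : ℤ → ℤ → ℝ × ℝ} {E : ℝ}

private theorem el_mem {l : List Con} {p : Con → Prop} [DecidablePred p]
    (h : (l.all fun c => decide (p c)) = true) {c : Con} (hc : c ∈ l) : p c := by
  simpa using List.all_eq_true.1 h c hc

private theorem el_sum (hE : 0 ≤ E) {l l' : List Con} (hs : (l.all fun c => decide (c ∈ l')) = true)
    (h : ∀ c ∈ l', -E ≤ c.slack v) : -(l.length * E) ≤ (l.map fun c => c.slack v).sum :=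
  sum_ge l fun c hc => h c (el_mem hs hc)

private theorem el_le (hE : 0 ≤ E) {l l' : List Con} (hs : (l.all fun c => decide (c ∈ l')) = true)
    (h : ∀ c ∈ l', -E ≤ c.slack v) {c : Con} (hc : c ∈ l) :
    c.slack v ≤ (l.map fun c => c.slack v).sum + l.length * E :=
  le_sum_of_ge l (fun c => c.slack v) hE (fun c hc => h c (el_mem hs hc)) hc

/-- relation `rE0_eq` -/
theorem E_out (hE : 0 ≤ E) (h : ∀ c ∈ cE, -E ≤ c.slack v) : -(43 * E) ≤ -(v 10 17).2 := by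
  have h1 := el_sum hE sub_rE0 h
  rw [rE0_eq, show rE0.length = 43 from by decide] at h1
  exact_mod_cast h1

/-- relation `rF0_eq` -/
theorem F_out (hE : 0 ≤ E) (h : ∀ c ∈ cF, -E ≤ c.slack v) : -(43 * E) ≤ -(v 10 17).2 := by
  have h1 := el_sum hE sub_rF0 h
  rw [rF0_eq, show rF0.length = 43 from by decide] at h1
  exact_mod_cast h1

/-- The four sums over the relations. -/
private theorem el_rel (hE : 0 ≤ E) (h : ∀ c ∈ cE, -E ≤ c.slack v) :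
    ∃ s0 s1 s2 : ℝ, s0 = (rE0.map fun c => c.slack v).sum ∧ s1 = (rE1.map fun c => c.slack v).sum ∧
      s2 = (rE2.map fun c => c.slack v).sum ∧ s0 = -(v 10 17).2 ∧ s1 = -a3 (v 10 0) - (v 4 2).1 ∧
      s1 + s2 ≤ -(2 * a3 (v 10 0)) + -(v 10 17).2 + 33 * E ∧ -(43 * E) ≤ s0 ∧ -(25 * E) ≤ s1 ∧
      -(56 * E) ≤ s2 := by
  have h0 := el_sum hE sub_rE0 h
  have h1 := el_sum hE sub_rE1 h
  have h2 := el_sum hE sub_rE2 h
  have h3 := el_sum hE rE0r_sub h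
  rw [show rE0.length = 43 from by decide] at h0
  rw [show rE1.length = 25 from by decide] at h1
  rw [show rE2.length = 56 from by decide] at h2
  rw [show rE0r.length = 33 from by decide] at h3
  have r0 := rE0_eq v
  have r1 := rE1_eq v
  have r2 := rE2_eq v
  have r3 := rE0r_eq v
  push_cast at h0 h1 h2 h3
  refine ⟨_, _, _, rfl, rfl, rfl, r0, r1, ?_, by linarith, by linarith, by linarith⟩
  linarith

/-- `rE1_eq` and `rE2_eq` give `-2 a3 (v 10 0) = ∑ rE1 + ∑ rE2 - ∑ rE2n`, and `∑ rE2n = -(v 10 17).2 - ∑ rE0r` (`rE0r_eq`). -/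
theorem E_in (hE : 0 ≤ E) (h : ∀ c ∈ cE, -E ≤ c.slack v) : 2 * a3 (v 10 0) ≤ -(v 10 17).2 + 130 * E := by
  obtain ⟨s0, s1, s2, -, -, -, e0, e1, e2, h0, h1, h2⟩ := el_rel hE h
  linarith

/-- All slacks are at most `2 |y| + X + 200 E` with `y = a3 (v 10 0)`, `X = -(v 10 17).2` (`cov_E2`); `|(v 4 2).1| ≤ 3 |y| + X +
200 E`; steps `sE_chk`. -/
theorem E_bd (hE : 0 ≤ E) (h : ∀ c ∈ cE, -E ≤ c.slack v) :
    ∀ r ∈ bE.rooms, |(v r.1 r.2).1| ≤ 1000 * (|a3 (v 10 0)| - (v 10 17).2 + 200 * E) ∧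
      |(v r.1 r.2).2| ≤ 1000 * (|a3 (v 10 0)| - (v 10 17).2 + 200 * E) := by
  intro r hr
  obtain ⟨s0, s1, s2, d0, d1, d2, e0, e1, e2, h0, h1, h2⟩ := el_rel hE h
  have hy := abs_nonneg (a3 (v 10 0))
  have hy1 := le_abs_self (a3 (v 10 0))
  have hy2 := neg_abs_le (a3 (v 10 0))
  obtain ⟨B, hB⟩ : ∃ B : ℝ, B = 3 * |a3 (v 10 0)| - (v 10 17).2 + 200 * E := ⟨_, rfl⟩
  have hB0 : 0 ≤ B := by rw [hB]; linarith
  have hsl : ∀ c ∈ cE, |c.slack v| ≤ B := by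
    intro c hc
    have hlow := h c hc
    have hup : c.slack v ≤ B := by
      have hcov := List.all_eq_true.1 cov_E2 c hc
      simp only [Bool.or_eq_true, decide_eq_true_eq] at hcov
      rcases hcov with (hc | hc) | hc
      · have k := el_le hE sub_rE0 h hc
        rw [← d0, show rE0.length = 43 from by decide] at k
        push_cast at k
        rw [hB]
        linarith
      · have k := el_le hE sub_rE1 h hc
        rw [← d1, show rE1.length = 25 from by decide] at k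
        push_cast at k
        rw [hB]
        linarith
      · have k := el_le hE sub_rE2 h hc
        rw [← d2, show rE2.length = 56 from by decide] at k
        push_cast at k
        rw [hB]
        linarith
    rw [abs_le]
    exact ⟨by rw [hB]; linarith, hup⟩
  have hinp : ∀ p ∈ [((10 : ℤ), (0 : ℤ), K.three), ((4 : ℤ), (2 : ℤ), K.one)], |pval v p| ≤ B := by
    intro p hp
    simp only [List.mem_cons, List.not_mem_nil, or_false] at hp
    rcases hp with rfl | rfl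
    · show |a3 (v 10 0)| ≤ B
      rw [hB]
      linarith
    · show |(v 4 2).1| ≤ B
      rw [abs_le]
      constructor <;> rw [hB] <;> linarith
  have key := chkSteps_spec sE_chk hB0 hinp hsl hr
  have hfin : ((45 : ℕ) : ℝ) * B ≤ 1000 * (|a3 (v 10 0)| - (v 10 17).2 + 200 * E) := by
    rw [hB]
    push_cast
    linarith
  exact ⟨key.1.trans hfin, key.2.trans hfin⟩

/-- relation `rU0_eq` (`-(v 2 5).1` is the unit `u`) -/
theorem U_cmp (hE : 0 ≤ E) (h : ∀ c ∈ cU, -E ≤ c.slack v) : a3 (v 19 0) - (v 2 5).1 ≤ 100 * E := by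
  have h1 := el_sum hE sub_rU0 h
  rw [rU0_eq, show rU0.length = 82 from by decide] at h1
  push_cast at h1
  linarith

private theorem el_cS {M : ℝ} (hM : ∀ r ∈ bS.rooms, |(v r.1 r.2).1| ≤ M ∧ |(v r.1 r.2).2| ≤ M) {c : Con}
    (hc : c ∈ cS) : |c.slack v| ≤ 4 * M := by
  have hr := el_mem rooms_S hc
  have hM0 : 0 ≤ M := by
    have : ∃ r, r ∈ c.rooms := by
      rcases c with ⟨x, y⟩ | ⟨x, y⟩ | ⟨x, y⟩ | ⟨x, y⟩ | ⟨x, y⟩ | ⟨x, y⟩ <;> simp [Con.rooms]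
    obtain ⟨r, hr'⟩ := this
    exact (abs_nonneg _).trans (hM r (hr r hr')).1
  have hr' : ∀ r ∈ c.rooms, |(v r.1 r.2).1| ≤ M ∧ |(v r.1 r.2).2| ≤ M := fun r h => hM r (hr r h)
  rcases c with ⟨x, y⟩ | ⟨x, y⟩ | ⟨x, y⟩ | ⟨x, y⟩ | ⟨x, y⟩ | ⟨x, y⟩ <;> simp only [Con.rooms, List.mem_cons,
    List.not_mem_nil, or_false, forall_eq_or_imp, forall_eq] at hr' <;> simp only [Con.slack]
  · refine (abs_add_le _ _).trans ?_
    linarith [hr'.1.2, hr'.2.1]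
  · refine (abs_add_le _ _).trans ?_
    linarith [hr'.1.2, abs_a3_le hr'.2]
  · refine (abs_add_le _ _).trans ?_
    linarith [hr'.1.1, abs_a3_le hr'.2]
  · linarith [hr'.1]
  · linarith [hr'.2]
  · linarith [abs_a3_le hr']

/-- The rooms of the source of the unit are bounded by `M`; slacks of `cUu` are at most `4 M`; the slacks of `cUr ⊆ rU0`
(`cUr_sub_rU0`) are at most `-y - u + 82 E`, `y = a3 (v 19 0)`, `u = -(v 2 5).1`; `cU_split`; steps `sU_chk`. -/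
theorem U_bd (hE : 0 ≤ E) (h : ∀ c ∈ cU, -E ≤ c.slack v) {M : ℝ}
    (hM : ∀ r ∈ bS.rooms, |(v r.1 r.2).1| ≤ M ∧ |(v r.1 r.2).2| ≤ M) :
    ∀ r ∈ bU.rooms, |(v r.1 r.2).1| ≤ 5000 * (|a3 (v 19 0)| + M + E) ∧
      |(v r.1 r.2).2| ≤ 5000 * (|a3 (v 19 0)| + M + E) := by
  intro r hr
  have h25 : ((2 : ℤ), (5 : ℤ)) ∈ bS.rooms := by decide +kernel
  have hu := (hM _ h25).1
  have hM0 : 0 ≤ M := (abs_nonneg _).trans hu
  have hy := abs_nonneg (a3 (v 19 0))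
  have hy1 := le_abs_self (a3 (v 19 0))
  have hy2 := neg_abs_le (a3 (v 19 0))
  have hu1 := le_abs_self (v 2 5).1
  obtain ⟨B, hB⟩ : ∃ B : ℝ, B = |a3 (v 19 0)| + 4 * M + 82 * E := ⟨_, rfl⟩
  have hB0 : 0 ≤ B := by rw [hB]; positivity
  have hsl : ∀ c ∈ cU, |c.slack v| ≤ B := by
    intro c hc
    have hlow := h c hc
    have hsp := el_mem cU_split hc
    rcases hsp with hc' | hc'
    · rw [cUu_eq] at hc'
      refine (el_cS hM hc').trans ?_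
      rw [hB]
      linarith
    · have hc2 : c ∈ rU0 := el_mem cUr_sub_rU0 hc'
      have k := el_le hE sub_rU0 h hc2
      rw [rU0_eq, show rU0.length = 82 from by decide] at k
      push_cast at k
      rw [abs_le]
      constructor <;> rw [hB] <;> linarith
  have hinp : ∀ p ∈ [((2 : ℤ), (5 : ℤ), K.one), ((19 : ℤ), (0 : ℤ), K.three)], |pval v p| ≤ B := by
    intro p hp
    simp only [List.mem_cons, List.not_mem_nil, or_false] at hp
    rcases hp with rfl | rfl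
    · show |(v 2 5).1| ≤ B
      rw [hB]
      linarith
    · show |a3 (v 19 0)| ≤ B
      rw [hB]
      linarith
  have key := chkSteps_spec sU_chk hB0 hinp hsl hr
  have hfin : ((42 : ℕ) : ℝ) * B ≤ 5000 * (|a3 (v 19 0)| + M + E) := by
    rw [hB]
    push_cast
    linarith
  exact ⟨key.1.trans hfin, key.2.trans hfin⟩

end Pool.Agent.Lib.MP_6ff0c5_lc.N
end
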