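import Pool.Agent.Lib.MP_6ff0c5_lc.Net.Snd.Cross
import Pool.Agent.Lib.MP_6ff0c5_lc.Net.Snd.ELoc
import Pool.Agent.Lib.MP_6ff0c5_lc.Net.Cover

/-!
MP_6ff0c5_lc, part B, soundness: the main network.
-/

set_option autoImplicit false

namespace Pool.Agent.Lib.MP_6ff0c5_lc.N

open LQ (Inst Form)

/-- the unit `u` -/
def uval (P : Lay) (a : ℤ → ℤ → ℝ × ℝ) : ℝ := -(a (9 * P.ns + 2) 5).1

/-- the value `z_v u` of a variable -/
def zval (P : Lay) (a : ℤ → ℤ → ℝ × ℝ) (v : ℕ) : ℝ := (a (9 * P.ns + 2) (9 * (2 + 2 * v) + 5)).1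

/-- the size of a layout -/
def Lay.n (P : Lay) : ℝ := P.ns + P.nl

variable {P : Lay} {a : ℤ → ℤ → ℝ × ℝ}

/-- **Lanes at the sources** (any layout). `M` bounds the main rooms.
Proof. `S_pos`, `S_neg` for the blocks `S` and (with `cUu_eq`) for the rooms of the block `U` at `(ns, 0)`; `G0_lanes`,
`G1_lanes` for the gates; `srcv P a j` is `-(v 0 5).2` resp. `-(v 0 14).2` etc. of the local states. All slacks `≥ -18 M²`. -/
theorem srcv_ge (hP : P.OK) (hr : (netOf P.tile).Red a) {M : ℝ} (hM : 0 ≤ M) (hmain : ∀ x y, P.Main x y → Bdd (a x y) M) :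
    -uval P a - 3000 * M ^ 2 ≤ srcv P a 0 ∧ uval P a - 3000 * M ^ 2 ≤ srcv P a 1 ∧
      ∀ v < P.nvar, zval P a v - 3000 * M ^ 2 ≤ srcv P a (2 + 2 * v) ∧ -zval P a v - 3000 * M ^ 2 ≤ srcv P a (3 + 2 * v) := by
  obtain ⟨h1, h2, h3⟩ := main_srcv_ge hP hr hM hmain
  unfold uval zval
  rw [neg_neg]
  exact ⟨h1, h2, h3⟩

/-- **Rooms of the sources** (any layout). If `|srcv P a j| ≤ X` for all lanes, then the rooms of the sources are bounded.
(`S_bd`, `G0_bd`, `G1_bd`; a main room with `9 ns ≤ x` is in a block `S`, `G0`, `G1` or in the block `U` with local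
coordinates `< 4`, `< 15`: `cover`, `bU_rooms_sub`.) -/
theorem src_bd (hP : P.OK) (hr : (netOf P.tile).Red a) {M : ℝ} (hM : 0 ≤ M) (hmain : ∀ x y, P.Main x y → Bdd (a x y) M)
    {X : ℝ} (hX : ∀ j < P.nl, |srcv P a j| ≤ X) {x y : ℤ} (h : P.Main x y) (hx : 9 * (P.ns : ℤ) ≤ x) :
    Bdd (a x y) (300 * X + 1000000 * M ^ 2) :=
  main_src_bd hP hr hM hmain hX h hx

/-- **Gates** (any layout): `G0_gate`, `G1_gate`. -/
theorem gate_ge (hP : P.OK) (hr : (netOf P.tile).Red a) {M : ℝ} (hM : 0 ≤ M) (hmain : ∀ x y, P.Main x y → Bdd (a x y) M)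
    {g : ℕ} {t : Bool} (hg : P.G[g]? = some t) :
    -(10 ^ 10 * M ^ 3) ≤ LQ.gateVal t (zval P a (3 * g)) (zval P a (3 * g + 1)) (zval P a (3 * g + 2)) :=
  main_gate_ge hP hr hM hmain hg

/-- `n ≥ 2` -/
private theorem n_facts (I : Inst) (K : ℕ) : (2 : ℝ) ≤ (layOf I K).n ∧
    ((layOf I K).nl : ℝ) ≤ (layOf I K).n ∧ 2 ≤ (layOf I K).nl := by
  have h1 := layOf_ns I K
  have h2 : (layOf I K).nl = 2 + 2 * (layOf I K).nvar := rfl
  have h3 : (2 : ℝ) ≤ (layOf I K).ns := by exact_mod_cast (by omega : 2 ≤ (layOf I K).ns)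
  have h4 : (0 : ℝ) ≤ (layOf I K).nl := Nat.cast_nonneg _
  unfold Lay.n
  exact ⟨by linarith, by linarith, by omega⟩

private theorem sum_range_eq (n : ℕ) (φ : ℕ → ℝ) :
    ((List.range n).map φ).sum = ∑ j ∈ Finset.range n, φ j := by
  induction n with
  | zero => simp
  | succ n ih =>
    rw [List.range_succ, List.map_append, List.sum_append, ih, Finset.sum_range_succ]
    simp

private theorem sum_one (φ : ℕ → ℝ) {n c : ℕ} (hc : c < n) :
    ((List.range n).map fun j => if j = c then φ j else 0).sum = φ c := by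
  rw [sum_range_eq, Finset.sum_ite_eq', if_pos (Finset.mem_range.2 hc)]

private theorem sum_two (φ : ℕ → ℝ) {n c d : ℕ} (hc : c < n) (hd : d < n) (hne : c ≠ d) :
    ((List.range n).map fun j => if j = c ∨ j = d then φ j else 0).sum = φ c + φ d := by
  rw [sum_range_eq, ← Finset.sum_filter]
  have h1 : (Finset.range n).filter (fun j => j = c ∨ j = d) = {c, d} := by
    ext j
    simp only [Finset.mem_filter, Finset.mem_range, Finset.mem_insert, Finset.mem_singleton]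
    constructor
    · exact fun h => h.2
    · rintro (rfl | rfl)
      · exact ⟨hc, Or.inl rfl⟩
      · exact ⟨hd, Or.inr rfl⟩
  rw [h1, Finset.sum_pair hne]

/-- **The strings of the network of an instance**: `P = layOf I K`, `E' = 10^4 n² M²`.
Proof. First part of `cross_snd` for the strings `1`, `2 + 2 v`, `3 + 2 v` and the strings of the forms (`tap_one`, `tap_neg`,
`tap_pos`, `tap_form`, `formTaps_le`), with `srcv_ge`. -/
theorem strings_snd {I : Inst} (hI : I.WF) {K : ℕ} (hP : P = layOf I K) (hr : (netOf P.tile).Red a) {M : ℝ} (hM : 0 ≤ M)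
    (hmain : ∀ x y, P.Main x y → Bdd (a x y) M) :
    -(10 ^ 4 * P.n ^ 2 * M ^ 2) ≤ uval P a ∧
    (∀ v < I.N + 1, -(10 ^ 4 * P.n ^ 2 * M ^ 2) ≤ zval P a v ∧
      zval P a v ≤ uval P a + 10 ^ 4 * P.n ^ 2 * M ^ 2) ∧
    ∀ f ∈ I.forms, -(10 ^ 4 * P.n ^ 2 * M ^ 2) ≤ (f.1 : ℝ) * uval P a + LQ.lsum (zval P a) f.2 := by
  subst hP
  have hok := layOf_ok I K
  obtain ⟨hc, -⟩ := cross_snd hok hr hM hmain
  obtain ⟨h0, h1, hv⟩ := srcv_ge hok hr hM hmain
  obtain ⟨hn2, hnl, hn⟩ := n_facts I K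
  have hM2 : 0 ≤ M ^ 2 := by positivity
  set P := layOf I K with hPdef
  set n : ℝ := P.n with hndef
  have hn1 : 1 ≤ n ^ 2 := by nlinarith
  have hnM : M ^ 2 ≤ n ^ 2 * M ^ 2 := by nlinarith
  have hn4 : 4 * M ^ 2 ≤ n ^ 2 * M ^ 2 :=
    mul_le_mul_of_nonneg_right (by nlinarith : (4 : ℝ) ≤ n ^ 2) hM2
  have hnlM : (P.nl : ℝ) * M ^ 2 ≤ n ^ 2 * M ^ 2 := by
    refine mul_le_mul_of_nonneg_right ?_ hM2
    nlinarith
  have hc' : ∀ l < P.ns, ((List.range P.nl).map fun j => if P.tap l j then srcv P a j else 0).sum ≤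
      6300 * n ^ 2 * M ^ 2 := hc
  refine ⟨?_, ?_, ?_⟩
  · have h2 := hc' 1 (by rw [hPdef, layOf_ns]; omega)
    simp only [hPdef, tap_one, decide_eq_true_eq] at h2
    rw [← hPdef, sum_one _ (by omega : 0 < P.nl)] at h2
    nlinarith
  · intro v hvN
    have hvn : v < P.nvar := by rw [hPdef, layOf_nvar]; exact hvN
    have hnv : P.nl = 2 + 2 * P.nvar := rfl
    obtain ⟨h3, h4⟩ := hv v hvn
    constructor
    · have h2 := hc' (2 + 2 * v) (by rw [hPdef, layOf_ns]; omega)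
      simp only [hPdef, tap_neg I K _ hvN, decide_eq_true_eq] at h2
      rw [← hPdef, sum_one _ (by omega : 3 + 2 * v < P.nl)] at h2
      nlinarith
    · have h2 := hc' (3 + 2 * v) (by rw [hPdef, layOf_ns]; omega)
      simp only [hPdef, tap_pos I K _ hvN, decide_eq_true_eq] at h2
      rw [← hPdef, sum_two _ (by omega : 2 + 2 * v < P.nl) (by omega : 0 < P.nl) (by omega)] at h2
      nlinarith
  · intro f hf
    obtain ⟨i, hi, hfi⟩ := List.getElem_of_mem hf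
    have hfi' : I.forms[i]? = some f := by rw [List.getElem?_eq_getElem hi, hfi]
    have h2 := hc' (2 + 2 * (I.N + 1) + i) (by rw [hPdef, layOf_ns]; omega)
    simp only [hPdef, tap_form I K _ hfi', decide_eq_true_eq] at h2
    rw [← hPdef] at h2
    have hN : ∀ v < I.N, v < P.nvar := by
      intro v hvN
      rw [hPdef, layOf_nvar]
      omega
    have h3 := formTaps_le I hI K hf (srcv P a) (uval P a) (3000 * M ^ 2) (zval P a) (by positivity)
      h0 h1 (fun v hvN => (hv v (hN v hvN)).1) (fun v hvN => (hv v (hN v hvN)).2)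
    rw [← hPdef] at h3
    nlinarith

/-- **All main rooms are bounded by the unit**: second part of `cross_snd` with `Bd = |u| + 3 * 10^4 n² M²` (from `srcv_ge` and
`strings_snd`: `-z_v ≥ -u - 10^4 n² M²` etc.), and `src_bd`. -/
theorem main_bd {I : Inst} (hI : I.WF) {K : ℕ} (hP : P = layOf I K) (hr : (netOf P.tile).Red a) {M : ℝ} (hM : 0 ≤ M)
    (hmain : ∀ x y, P.Main x y → Bdd (a x y) M) {x y : ℤ} (h : P.Main x y) :
    Bdd (a x y) (10 ^ 10 * P.n ^ 4 * (|uval P a| + M ^ 2)) := by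
  have hok : P.OK := by rw [hP]; exact layOf_ok I K
  obtain ⟨hu, hz, -⟩ := strings_snd hI hP hr hM hmain
  obtain ⟨-, hc⟩ := cross_snd hok hr hM hmain
  obtain ⟨h0, h1, hv⟩ := srcv_ge hok hr hM hmain
  have hnf := n_facts I K
  rw [← hP] at hnf
  obtain ⟨hn2, hnl, hn⟩ := hnf
  have hnvar : P.nvar = I.N + 1 := by rw [hP, layOf_nvar]
  have hnv : P.nl = 2 + 2 * P.nvar := rfl
  have hM2 : 0 ≤ M ^ 2 := by positivity
  have hndef : (P.ns : ℝ) + P.nl = P.n := rfl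
  rw [hndef] at hc
  set n : ℝ := P.n
  set u : ℝ := uval P a with hudef
  have hn1 : 1 ≤ n ^ 2 := by nlinarith
  have hnM : M ^ 2 ≤ n ^ 2 * M ^ 2 := by nlinarith
  have hua := neg_abs_le u
  have hub := le_abs_self u
  have hu0 := abs_nonneg u
  have hnM0 : 0 ≤ n ^ 2 * M ^ 2 := by positivity
  set Bd : ℝ := |u| + 3 * 10 ^ 4 * n ^ 2 * M ^ 2 with hBd
  have hBd0 : 0 ≤ Bd := by positivity
  have hlow : ∀ j < P.nl, -Bd ≤ srcv P a j := by
    intro j hj
    by_cases hj0 : j = 0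
    · rw [hj0]
      linarith
    by_cases hj1 : j = 1
    · rw [hj1]
      linarith
    rcases Nat.mod_two_eq_zero_or_one j with h2 | h2
    · obtain ⟨v, rfl⟩ : ∃ v, j = 2 + 2 * v := ⟨(j - 2) / 2, by omega⟩
      have h3 := (hv v (by omega)).1
      have h4 := (hz v (by omega)).1
      linarith
    · obtain ⟨v, rfl⟩ : ∃ v, j = 3 + 2 * v := ⟨(j - 3) / 2, by omega⟩
      have h3 := (hv v (by omega)).2
      have h4 := (hz v (by omega)).2
      linarith
  obtain ⟨hup, hcr⟩ := hc Bd hBd0 hlow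
  have hn4 : n ^ 2 ≤ n ^ 4 := by nlinarith
  have hnn : n ^ 2 * (n ^ 2 * M ^ 2) = n ^ 4 * M ^ 2 := by ring
  have hnu : n ^ 2 * |u| ≤ n ^ 4 * |u| := mul_le_mul_of_nonneg_right hn4 hu0
  have hnm : n ^ 2 * M ^ 2 ≤ n ^ 4 * M ^ 2 := mul_le_mul_of_nonneg_right hn4 hM2
  have hnm0 : 0 ≤ n ^ 4 * M ^ 2 := by positivity
  have hnu0 : 0 ≤ n ^ 4 * |u| := by positivity
  have hkey : n ^ 2 * (Bd + 1260 * M ^ 2) ≤ n ^ 4 * |u| + 40000 * (n ^ 4 * M ^ 2) := by
    rw [hBd]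
    nlinarith
  by_cases hx : x < 9 * (P.ns : ℤ)
  · have h3 := hcr x y h.1 (h.2.1) hx
    refine ⟨h3.1.trans ?_, h3.2.trans ?_⟩ <;> nlinarith
  · set X : ℝ := 12 * n ^ 2 * (Bd + 1260 * M ^ 2) with hX
    have hBX : Bd ≤ X := by
      rw [hX]
      nlinarith
    have h3 := src_bd hok hr hM hmain (X := X) (fun j hj => abs_le.2 ⟨by
      have := hlow j hj
      linarith, hup j hj⟩) h (by omega)
    have h4 : 300 * X + 1000000 * M ^ 2 ≤ 10 ^ 10 * n ^ 4 * (|u| + M ^ 2) := by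
      rw [hX]
      nlinarith
    exact ⟨h3.1.trans h4, h3.2.trans h4⟩

end Pool.Agent.Lib.MP_6ff0c5_lc.N
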