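import Mathlib
import Pool.Agent.Lib.MP_6ff0c5_lc.Net.Def
import Pool.Agent.Lib.MP_6ff0c5_lc.Net.Snd.Cross
import Pool.Agent.Lib.MP_6ff0c5_lc.Net.Snd.ELoc
import Pool.Agent.Lib.MP_6ff0c5_lc.Net.Snd.Main

section

/-!
MP_6ff0c5_lc, part B, soundness: the chain as a system of inequalities for sequences (pure real inequalities).
-/

set_option autoImplicit false

namespace Pool.Agent.Lib.MP_6ff0c5_lc.N

/-- Double exponential decay along the chain.

Proof. Claim, by induction from `i = K - 1` down: `T i ≤ 4 C (V i)²`. Step: `T i ≤ 2 C V_{i+1}² + C (V_i² + V_{i+1}²)`, and by (B)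
`V_{i+1} ≤ C (C V_i² + 3 C V_{i+1}² + 4 C V_{i+1}² + V_i² + V_{i+1}²) ≤ 2 C² V_i² + 8 C² V_{i+1}²`; as `8 C² V_{i+1} ≤ 8 C² H ≤ 1/2`:
`V_{i+1} ≤ 4 C² V_i² ≤ V_i / 4`, hence `T i ≤ C V_i² + 3 C V_i² / 16 ≤ 4 C V_i²`. In particular `4 C² V_{i+1} ≤ (4 C² V_i)²`; iterate. -/
theorem chain_seq {K : ℕ} (hK : 0 < K) {C H : ℝ} (hC : 1 ≤ C) (hH : 16 * C ^ 2 * H ≤ 1) (V T : ℕ → ℝ)
    (hV0 : ∀ i < K, 0 ≤ V i) (hVH : ∀ i < K, V i ≤ H)
    (hA : ∀ i, i + 1 < K → T i ≤ 1 / 2 * T (i + 1) + C * (V i ^ 2 + V (i + 1) ^ 2))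
    (hB : ∀ i, i + 1 < K → V (i + 1) ≤ C * (T i + T (i + 1) + V i ^ 2 + V (i + 1) ^ 2))
    (hT : T (K - 1) ≤ C * V (K - 1) ^ 2) :
    4 * C ^ 2 * V (K - 1) ≤ (4 * C ^ 2 * H) ^ (2 ^ (K - 1)) := by
  have hC0 : 0 < C := by linarith
  have hC2 : 1 ≤ C ^ 2 := one_le_pow₀ hC
  have hH0 : 0 ≤ H := (hV0 0 hK).trans (hVH 0 hK)
  have step : ∀ i, i + 1 < K → T (i + 1) ≤ 4 * C * V (i + 1) ^ 2 →
      V (i + 1) ≤ 4 * C ^ 2 * V i ^ 2 ∧ T i ≤ 4 * C * V i ^ 2 := by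
    intro i hi hTi
    obtain ⟨x, hx⟩ : ∃ x, V i = x := ⟨_, rfl⟩
    obtain ⟨y, hy⟩ : ∃ y, V (i + 1) = y := ⟨_, rfl⟩
    have x0 : 0 ≤ x := hx ▸ hV0 i (by omega)
    have y0 : 0 ≤ y := hy ▸ hV0 (i + 1) hi
    have xH : x ≤ H := hx ▸ hVH i (by omega)
    have yH : y ≤ H := hy ▸ hVH (i + 1) hi
    have a1 := hA i hi
    have b1 := hB i hi
    rw [hx, hy] at a1 b1
    rw [hy] at hTi
    rw [hx, hy]
    have t1 : T i ≤ 3 * (C * y ^ 2) + C * x ^ 2 := by linarith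
    have s1 : T i + T (i + 1) + x ^ 2 + y ^ 2 ≤ 8 * (C * y ^ 2) + 2 * (C * x ^ 2) := by
      have k1 : x ^ 2 ≤ C * x ^ 2 := le_mul_of_one_le_left (sq_nonneg x) hC
      have k2 : y ^ 2 ≤ C * y ^ 2 := le_mul_of_one_le_left (sq_nonneg y) hC
      linarith
    have b2 : y ≤ 8 * (C ^ 2 * y ^ 2) + 2 * (C ^ 2 * x ^ 2) := by
      have k3 := mul_le_mul_of_nonneg_left s1 hC0.le
      have e1 : C * (8 * (C * y ^ 2) + 2 * (C * x ^ 2)) =
          8 * (C ^ 2 * y ^ 2) + 2 * (C ^ 2 * x ^ 2) := by ring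
      linarith
    have hyy : 16 * (C ^ 2 * y ^ 2) ≤ y := by
      have k3 : 16 * C ^ 2 * y ≤ 1 :=
        (mul_le_mul_of_nonneg_left yH (by positivity)).trans hH
      have k4 := mul_le_mul_of_nonneg_right k3 y0
      have e1 : 16 * C ^ 2 * y * y = 16 * (C ^ 2 * y ^ 2) := by ring
      linarith
    have hyx : y ≤ 4 * C ^ 2 * x ^ 2 := by linarith
    have hxx : 16 * (C ^ 2 * x ^ 2) ≤ x := by
      have k3 : 16 * C ^ 2 * x ≤ 1 :=
        (mul_le_mul_of_nonneg_left xH (by positivity)).trans hH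
      have k4 := mul_le_mul_of_nonneg_right k3 x0
      have e1 : 16 * C ^ 2 * x * x = 16 * (C ^ 2 * x ^ 2) := by ring
      linarith
    refine ⟨hyx, ?_⟩
    have h4 : y ≤ x := by linarith
    have h5 : y ^ 2 ≤ x ^ 2 := pow_le_pow_left₀ y0 h4 2
    have h6 := mul_le_mul_of_nonneg_left h5 hC0.le
    linarith
  have hTall : ∀ j, j < K → T (K - 1 - j) ≤ 4 * C * V (K - 1 - j) ^ 2 := by
    intro j
    induction j with
    | zero =>
      intro _
      rw [Nat.sub_zero]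
      have h1 : 0 ≤ C * V (K - 1) ^ 2 := by positivity
      linarith
    | succ j ih =>
      intro hj
      have h1 : K - 1 - j = (K - 1 - (j + 1)) + 1 := by omega
      have h2 := ih (by omega)
      rw [h1] at h2
      exact (step _ (by omega) h2).2
  have hVs : ∀ i, i + 1 < K → V (i + 1) ≤ 4 * C ^ 2 * V i ^ 2 := by
    intro i hi
    have h1 := hTall (K - 1 - (i + 1)) (by omega)
    have h2 : K - 1 - (K - 1 - (i + 1)) = i + 1 := by omega
    rw [h2] at h1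
    exact (step i hi h1).1
  have main : ∀ i, i < K → 4 * C ^ 2 * V i ≤ (4 * C ^ 2 * H) ^ (2 ^ i) := by
    intro i
    induction i with
    | zero =>
      intro _
      rw [pow_zero, pow_one]
      exact mul_le_mul_of_nonneg_left (hVH 0 hK) (by positivity)
    | succ i ih =>
      intro hi
      have h1 := ih (by omega)
      have h2 : 0 ≤ 4 * C ^ 2 * V i := mul_nonneg (by positivity) (hV0 i (by omega))
      have h3 := pow_le_pow_left₀ h2 h1 2
      rw [pow_succ 2 i, pow_mul]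
      refine le_trans ?_ h3
      have h4 := mul_le_mul_of_nonneg_left (hVs i hi) (by positivity : 0 ≤ 4 * C ^ 2)
      refine h4.trans (le_of_eq ?_)
      ring
  exact main (K - 1) (by omega)

end Pool.Agent.Lib.MP_6ff0c5_lc.N
end

section

/-!
Elimination of the rooms `B`, first direction: a solution of the full system gives a solution of the reduced system.
-/

set_option autoImplicit false

namespace Pool.Agent.Lib.MP_6ff0c5_lc.N

private theorem el1_hub1 {a a' u : ℝ × ℝ} (h1 : |a.1| ≤ 1 / 1000) (h2 : |a.2| ≤ 1 / 1000) (h1' : |a'.1| ≤ 1 / 1000)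
    (h2' : |a'.2| ≤ 1 / 1000) (hu : 0 < u.1 - u3 u) (hD2 : 0 < D2 a u) (hD1 : 0 < D1 a' u) :
    a'.1 * e2 a - a.2 * e1 a' < 8664 * (a.2 + a'.1) := by
  rw [abs_le] at h1 h2 h1' h2'
  have b1 : -100 ≤ e1 a' ∧ e1 a' ≤ 100 := by unfold e1; constructor <;> linarith
  have b2 : -100 ≤ e2 a ∧ e2 a ≤ 100 := by unfold e2; constructor <;> linarith
  have key : (8664 + e1 a') * D2 a u + (8664 - e2 a) * D1 a' u =
      (8664 * (a.2 + a'.1) + a.2 * e1 a' - a'.1 * e2 a) + (u.1 - u3 u) * (13 * ((8664 + e1 a') * (1287 / 361 * a.2) -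
        (8664 - e2 a) * (1 - 5 / 2 * a'.2))) := by
    unfold D1 D2 u3 e1 e2
    ring
  have g1 : (8664 + e1 a') * (1287 / 361 * a.2) ≤ (8664 + e1 a') * (1 / 200) :=
    mul_le_mul_of_nonneg_left (by linarith) (by linarith)
  have g2 : (8664 - e2 a) * (1 / 2) ≤ (8664 - e2 a) * (1 - 5 / 2 * a'.2) :=
    mul_le_mul_of_nonneg_left (by linarith) (by linarith)
  have g3 := mul_neg_of_pos_of_neg hu (show 13 * ((8664 + e1 a') * (1287 / 361 * a.2) -
        (8664 - e2 a) * (1 - 5 / 2 * a'.2)) < 0 by linarith)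
  have g4 : 0 < (8664 + e1 a') * D2 a u := mul_pos (by linarith) hD2
  have g5 : 0 < (8664 - e2 a) * D1 a' u := mul_pos (by linarith) hD1
  linarith

private theorem el1_hub3 {a a' u : ℝ × ℝ} (h1 : |a.1| ≤ 1 / 1000) (h2 : |a.2| ≤ 1 / 1000) (h1' : |a'.1| ≤ 1 / 1000)
    (h2' : |a'.2| ≤ 1 / 1000) (hu : 0 < u.1 - u3 u) (hD2 : 0 < D2 a u) (hD3 : 0 < D3 a' u) :
    a3 a' * e2 a - a.2 * e3 a' < 8664 * (a.2 + a3 a') := by
  rw [abs_le] at h1 h2 h1' h2'
  have b1 : -100 ≤ e3 a' ∧ e3 a' ≤ 100 := by unfold e3; constructor <;> linarith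
  have b2 : -100 ≤ e2 a ∧ e2 a ≤ 100 := by unfold e2; constructor <;> linarith
  have key : (8664 + e3 a') * D2 a u + (8664 - e2 a) * D3 a' u =
      (8664 * (a.2 + a3 a') + a.2 * e3 a' - a3 a' * e2 a) + (u.1 - u3 u) * ((8664 + e3 a') * (13 * 1287 / 361 * a.2) -
        (8664 - e2 a) * (12 + 13 * 495 / 722 * a'.2)) := by
    unfold D3 D2 u3 e3 e2 a3
    ring
  have g1 : (8664 + e3 a') * (13 * 1287 / 361 * a.2) ≤ (8664 + e3 a') * (1 / 20) :=
    mul_le_mul_of_nonneg_left (by linarith) (by linarith)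
  have g2 : (8664 - e2 a) * (1 / 2) ≤ (8664 - e2 a) * (12 + 13 * 495 / 722 * a'.2) :=
    mul_le_mul_of_nonneg_left (by linarith) (by linarith)
  have g3 := mul_neg_of_pos_of_neg hu (show (8664 + e3 a') * (13 * 1287 / 361 * a.2) -
        (8664 - e2 a) * (12 + 13 * 495 / 722 * a'.2) < 0 by linarith)
  have g4 : 0 < (8664 + e3 a') * D2 a u := mul_pos (by linarith) hD2
  have g5 : 0 < (8664 - e2 a) * D3 a' u := mul_pos (by linarith) hD3
  linarith

private theorem el1_cup {a a' u : ℝ × ℝ} (h1 : |a.1| ≤ 1 / 1000) (h2 : |a.2| ≤ 1 / 1000) (h1' : |a'.1| ≤ 1 / 1000)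
    (h2' : |a'.2| ≤ 1 / 1000) (hu : 0 < u.1 + u3 u) (hD1 : 0 < D1 a u) (hD3 : 0 < D3 a' u) :
    a3 a' * f1 a - a.1 * f3 a' < 8664 * (a.1 + a3 a') := by
  rw [abs_le] at h1 h2 h1' h2'
  have b1 : -100 ≤ f3 a' ∧ f3 a' ≤ 100 := by unfold f3; constructor <;> linarith
  have b2 : -100 ≤ f1 a ∧ f1 a ≤ 100 := by unfold f1; constructor <;> linarith
  have key : (8664 + f3 a') * D1 a u + (8664 - f1 a) * D3 a' u =
      (8664 * (a.1 + a3 a') + a.1 * f3 a' - a3 a' * f1 a) + (u.1 + u3 u) * ((8664 + f3 a') * (-(65 / 24) * a.1) -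
        (8664 - f1 a) * (1 - 2145 / 2888 * a'.1)) := by
    unfold D3 D1 u3 f3 f1 a3
    ring
  have g1 : (8664 + f3 a') * (-(65 / 24) * a.1) ≤ (8664 + f3 a') * (1 / 200) :=
    mul_le_mul_of_nonneg_left (by linarith) (by linarith)
  have g2 : (8664 - f1 a) * (1 / 2) ≤ (8664 - f1 a) * (1 - 2145 / 2888 * a'.1) :=
    mul_le_mul_of_nonneg_left (by linarith) (by linarith)
  have g3 := mul_neg_of_pos_of_neg hu (show (8664 + f3 a') * (-(65 / 24) * a.1) -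
        (8664 - f1 a) * (1 - 2145 / 2888 * a'.1) < 0 by linarith)
  have g4 : 0 < (8664 + f3 a') * D1 a u := mul_pos (by linarith) hD1
  have g5 : 0 < (8664 - f1 a) * D3 a' u := mul_pos (by linarith) hD3
  linarith

private theorem el1_pin1 {a u : ℝ × ℝ} (h2 : |a.2| ≤ 1 / 1000)
    (hu2 : |u.2| ≤ 1 / 1000) (hu : 0 < u.1 - u3 u) (hu' : 0 < 2 * u3 u - u.1) (hD1 : 0 < D1 a u) : 0 < a.1 := by
  rw [abs_le] at h2 hu2
  have g1 : 0 < u.1 := by linarith
  have g2 : 0 < u.1 * (1 - 5 / 2 * a.2) := mul_pos g1 (by linarith)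
  have key : D1 a u = a.1 * (1 + 5 / 24 * u.2) - u.1 * (1 - 5 / 2 * a.2) := by unfold D1; ring
  have g3 : 0 < a.1 * (1 + 5 / 24 * u.2) := by linarith
  exact pos_of_mul_pos_left g3 (by linarith)

private theorem el1_pin3 {a u : ℝ × ℝ} (h1 : |a.1| ≤ 1 / 1000) (h2 : |a.2| ≤ 1 / 1000)
    (hu : 0 < u.1 - u3 u) (hu' : 0 < 2 * u3 u - u.1) (hD3 : 0 < D3 a u) : 0 < a3 a := by
  rw [abs_le] at h1 h2
  have g1 : 0 < u.1 := by linarith
  have hu2 : u.2 = 12 * u.1 - 13 * u3 u := by unfold u3; ring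
  have g2 : -(6 * u.1) ≤ u.2 ∧ u.2 ≤ 6 * u.1 := by constructor <;> linarith
  have g3 : -(1 / 1000 * (6 * u.1)) ≤ a.1 * u.2 := by
    have e1 : |a.1 * u.2| ≤ 1 / 1000 * (6 * u.1) := by
      rw [abs_mul]
      exact mul_le_mul (abs_le.2 h1) (abs_le.2 g2) (abs_nonneg _) (by norm_num)
    exact (abs_le.1 e1).1
  have g4 : -(1 / 1000 * u.1) ≤ a.2 * u.1 := by
    have e1 : |a.2 * u.1| ≤ 1 / 1000 * u.1 := by
      rw [abs_mul]
      exact mul_le_mul (abs_le.2 h2) (abs_of_pos g1).le (abs_nonneg _) (by norm_num)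
    exact (abs_le.1 e1).1
  unfold D3 at hD3
  have e2 : 165 / 2888 * a.1 * u.2 = 165 / 2888 * (a.1 * u.2) := by ring
  have e3 : 495 / 722 * a.2 * u.1 = 495 / 722 * (a.2 * u.1) := by ring
  rw [e2, e3] at hD3
  linarith

private theorem el1_pin2 {a u : ℝ × ℝ} (h1 : |a.1| ≤ 1 / 1000) (h2 : |a.2| ≤ 1 / 1000)
    (hu : 0 < u.1 - u3 u) (hu' : u.1 < 0) (hD2 : 0 < D2 a u) : 0 < a.2 := by
  rw [abs_le] at h1 h2
  have hu2 : u.2 = 12 * u.1 - 13 * u3 u := by unfold u3; ring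
  have g2 : -u.1 ≤ u.2 := by linarith
  have g0 : 0 < u.2 := by linarith
  have g3 : a.1 * u.2 ≤ 1 / 1000 * u.2 := mul_le_mul_of_nonneg_right h1.2 g0.le
  have g4 : a.2 * u.1 ≤ 1 / 1000 * u.2 := by
    have e1 : |a.2 * u.1| ≤ 1 / 1000 * u.2 := by
      rw [abs_mul]
      refine mul_le_mul (abs_le.2 h2) ?_ (abs_nonneg _) (by norm_num)
      rw [abs_of_neg hu']
      exact g2
    exact (abs_le.1 e1).2
  unfold D2 at hD2
  have e2 : 429 / 1444 * a.1 * u.2 = 429 / 1444 * (a.1 * u.2) := by ring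
  have e3 : 1287 / 361 * a.2 * u.1 = 1287 / 361 * (a.2 * u.1) := by ring
  rw [e2, e3] at hD2
  linarith

/-- For small `H` a solution of the full system solves the reduced system (exactly).

Proof. Let `u = (u₁, u₂)` be the position in the room `B` of the constraint.
* Hub: put `τ = u₂`, `ρ = u₁ - u3 u > 0`; then `u₁ = -τ + 13 ρ`, `u3 u = -τ + 12 ρ`. With
`8664 ℓ₁ = e1 a'`, `8664 ℓ₂ = e2 a`, `8664 ℓ₃ = e3 a''`:
`D2 a u = a₂ - τ (1 - ℓ₂) + 13 ρ (1287/361) a₂`,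
`D1 a' u = a'₁ + τ (1 + ℓ₁) - 13 ρ (1 - (5/2) a'₂)`,
`D3 a'' u = a''₃ + τ (1 + ℓ₃) - ρ (12 + 13 (495/722) a''₂)`.
Multiply `D2` by `1 + ℓ_k > 0`, `D_k` by `1 - ℓ₂ > 0` and add: `τ` cancels and the coefficient of `ρ` is negative for
`H ≤ 1/1000`; so `a₂ (1 + ℓ_k) + a'_k (1 - ℓ₂) > 0`, which is `Con.Holds` for `h1`, `h3`.
* Cup: `t = u₁`, `ρ = u₁ + u3 u > 0`; then `u3 u = -t + ρ`, `u₂ = 25 t - 13 ρ`. With `8664 m₁ = f1 a`, `8664 m₃ = f3 a'`:
`D1 a u = a₁ - t (1 - m₁) - (65/24) ρ a₁`, `D3 a' u = a'₃ + t (1 + m₃) - ρ (1 - (2145/2888) a'₁)`.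
* `pin13`: `0 < u₁`, `0 < u3 u < u₁ < 2 u3 u`, `u₂ = 12 u₁ - 13 u3 u`, so `|u₂| ≤ 6 u₁`, and `D1`, `D3` give `a₁ > 0`, `a₃ > 0`.
* `pin2`: `u3 u < u₁ < 0`, `u₂ = 12 u₁ - 13 u3 u > 0`, `|u₁| ≤ u₂`, and `D2` gives `a₂ > 0`. -/
theorem red_of_sol {N : Net} {H : ℝ} {a b : ℤ → ℤ → ℝ × ℝ} (hH : H ≤ 1 / 1000) (h : N.Sol H a b) : N.Red a := by
  have ha : ∀ x y, N.act x y = true → |(a x y).1| ≤ 1 / 1000 ∧ |(a x y).2| ≤ 1 / 1000 := fun x y hxy =>
    ⟨(h.asize x y hxy).1.trans hH, (h.asize x y hxy).2.trans hH⟩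
  intro c hc
  cases c with
  | h1 x y =>
    simp only [Con.In, Bool.and_eq_true] at hc
    have hbt : N.bt x y = .hub := by
      unfold Net.bt
      simp [hc.1, hc.2]
    have ht := h.tight x y
    rw [hbt] at ht
    have d2 := h.d2 (x + 1) y hc.2
    rw [add_sub_cancel_right] at d2
    exact el1_hub1 (ha _ _ hc.2).1 (ha _ _ hc.2).2 (ha _ _ hc.1).1 (ha _ _ hc.1).2 ht d2 (h.d1 x y hc.1)
  | h3 x y =>
    simp only [Con.In, Bool.and_eq_true] at hc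
    have hbt : N.bt (x - 1) (y - 1) = .hub := by
      unfold Net.bt
      simp [hc.1, hc.2]
    have ht := h.tight (x - 1) (y - 1)
    rw [hbt] at ht
    have d2 := h.d2 x (y - 1) hc.2
    have d3 := h.d3 x y hc.1
    exact el1_hub3 (ha _ _ hc.2).1 (ha _ _ hc.2).2 (ha _ _ hc.1).1 (ha _ _ hc.1).2 ht d2 d3
  | cp x y =>
    simp only [Con.In, Bool.and_eq_true, Bool.not_eq_true'] at hc
    obtain ⟨⟨⟨h1, h2⟩, h3⟩, h4⟩ := hc
    have hbt : N.bt x y = .cup := by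
      unfold Net.bt
      simp [h1, h2, h3, h4]
    have ht := h.tight x y
    rw [hbt] at ht
    have d3 := h.d3 (x + 1) (y + 1) h2
    rw [add_sub_cancel_right, add_sub_cancel_right] at d3
    exact el1_cup (ha _ _ h1).1 (ha _ _ h1).2 (ha _ _ h2).1 (ha _ _ h2).2 ht (h.d1 x y h1) d3
  | p1 x y =>
    simp only [Con.In, Bool.and_eq_true, Bool.not_eq_true'] at hc
    obtain ⟨⟨h1, h2⟩, h3⟩ := hc
    have hbt : N.bt x y = .pin13 := by
      unfold Net.bt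
      cases h4 : N.cup x y <;> cases h5 : N.act (x + 1) (y + 1) <;> simp_all
    have ht := h.tight x y
    rw [hbt] at ht
    have hb := h.bsize x y (by rw [hbt]; decide)
    have := el1_pin1 (ha _ _ h1).2 (hb.2.trans hH) ht.1 ht.2 (h.d1 x y h1)
    change (0 : ℝ) < 8664 * (a x y).1
    linarith
  | p2 x y =>
    simp only [Con.In, Bool.and_eq_true, Bool.not_eq_true'] at hc
    obtain ⟨⟨h1, h2⟩, h3⟩ := hc
    have hbt : N.bt (x - 1) y = .pin2 := by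
      unfold Net.bt
      simp [h1, h2, h3]
    have ht := h.tight (x - 1) y
    rw [hbt] at ht
    have := el1_pin2 (ha _ _ h1).1 (ha _ _ h1).2 ht.1 ht.2 (h.d2 x y h1)
    change (0 : ℝ) < 8664 * (a x y).2
    linarith
  | p3 x y =>
    simp only [Con.In, Bool.and_eq_true, Bool.not_eq_true'] at hc
    obtain ⟨⟨h1, h2⟩, h3⟩ := hc
    have hbt : N.bt (x - 1) (y - 1) = .pin13 := by
      unfold Net.bt
      cases h4 : N.cup (x - 1) (y - 1) <;> cases h5 : N.act (x - 1) (y - 1) <;> simp_all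
    have ht := h.tight (x - 1) (y - 1)
    rw [hbt] at ht
    have := el1_pin3 (ha _ _ h1).1 (ha _ _ h1).2 ht.1 ht.2 (h.d3 x y h1)
    change (0 : ℝ) < 8664 * a3 (a x y)
    linarith

end Pool.Agent.Lib.MP_6ff0c5_lc.N
end

section

/-!
MP_6ff0c5_lc, part B, soundness: the chain bounds the unit.
-/

set_option autoImplicit false

namespace Pool.Agent.Lib.MP_6ff0c5_lc.N

/-- the largest coordinate of the rooms of a list -/
noncomputable def vmax (v : ℤ → ℤ → ℝ × ℝ) (l : List (ℤ × ℤ)) : ℝ :=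
  (l.map fun r => max |(v r.1 r.2).1| |(v r.1 r.2).2|).foldr max 0

theorem vmax_nonneg (v : ℤ → ℤ → ℝ × ℝ) (l : List (ℤ × ℤ)) : 0 ≤ vmax v l := by
  induction l with
  | nil => simp [vmax]
  | cons e l ih =>
    have e1 : vmax v (e :: l) = max (max |(v e.1 e.2).1| |(v e.1 e.2).2|) (vmax v l) := by simp [vmax]
    rw [e1]
    exact le_max_of_le_right ih

theorem le_vmax (v : ℤ → ℤ → ℝ × ℝ) {l : List (ℤ × ℤ)} {r : ℤ × ℤ} (hr : r ∈ l) :
    |(v r.1 r.2).1| ≤ vmax v l ∧ |(v r.1 r.2).2| ≤ vmax v l := by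
  induction l with
  | nil => simp at hr
  | cons e l ih =>
    have e1 : vmax v (e :: l) = max (max |(v e.1 e.2).1| |(v e.1 e.2).2|) (vmax v l) := by simp [vmax]
    rw [e1]
    rcases List.mem_cons.1 hr with rfl | hr
    · exact ⟨le_max_of_le_left (le_max_left _ _), le_max_of_le_left (le_max_right _ _)⟩
    · exact ⟨le_max_of_le_right (ih hr).1, le_max_of_le_right (ih hr).2⟩

theorem vmax_le {v : ℤ → ℤ → ℝ × ℝ} {l : List (ℤ × ℤ)} {M : ℝ} (hM : 0 ≤ M)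
    (h : ∀ r ∈ l, |(v r.1 r.2).1| ≤ M ∧ |(v r.1 r.2).2| ≤ M) : vmax v l ≤ M := by
  induction l with
  | nil => simpa [vmax] using hM
  | cons e l ih =>
    have e1 : vmax v (e :: l) = max (max |(v e.1 e.2).1| |(v e.1 e.2).2|) (vmax v l) := by simp [vmax]
    rw [e1]
    have h1 := h e List.mem_cons_self
    exact max_le (max_le h1.1 h1.2) (ih fun r hr => h r (List.mem_cons_of_mem _ hr))

private theorem ch_mem {α : Type*} {l : List α} {p : α → Prop} [DecidablePred p]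
    (h : (l.all fun c => decide (p c)) = true) {c : α} (hc : c ∈ l) : p c := by
  simpa using List.all_eq_true.1 h c hc

/-- the tile row of the block `i` of the chain -/
private def chJ (P : Lay) (i : ℕ) : ℤ := -(2 * ((P.K - i : ℕ) : ℤ))

private def chB (i : ℕ) : Blk := if i = 0 then bF else bE

/-- the local state of the block `i` of the chain -/
private def chv (P : Lay) (a : ℤ → ℤ → ℝ × ℝ) (i : ℕ) : ℤ → ℤ → ℝ × ℝ := loc a (P.ns + 1) (chJ P i)

private noncomputable def chV (P : Lay) (a : ℤ → ℤ → ℝ × ℝ) (i : ℕ) : ℝ := vmax (chv P a i) (chB i).rooms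

private theorem ch_at {P : Lay} (hP : P.OK) {i : ℕ} (hi : i < P.K) : (chB i).At P.tile (P.ns + 1) (chJ P i) := by
  unfold chB chJ
  split_ifs with h0
  · subst h0
    rw [Nat.sub_zero]
    exact at_F hP
  · exact at_E hP (by omega) (by omega)

/-- the bounds for the rooms of a block at its place -/
private theorem ch_bdd {P : Lay} {a : ℤ → ℤ → ℝ × ℝ} {H : ℝ}
    (hH : ∀ x y, (netOf P.tile).act x y = true → Bdd (a x y) H) {b : Blk} {L J : ℤ} (hb : b.At P.tile L J)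
    {r : ℤ × ℤ} (hr : r ∈ b.rooms) : |(loc a L J r.1 r.2).1| ≤ H ∧ |(loc a L J r.1 r.2).2| ≤ H :=
  hH _ _ (act_of_room hb hr)

/-- slacks of the constraints of a block -/
private theorem ch_low {P : Lay} {a : ℤ → ℤ → ℝ × ℝ} (hr : (netOf P.tile).Red a) {b : Blk} {L J : ℤ}
    (hb : b.At P.tile L J) (hrooms : (b.cons.all fun c => decide (∀ r ∈ c.rooms, r ∈ b.rooms)) = true) :
    ∀ c ∈ b.cons, -(18 * vmax (loc a L J) b.rooms ^ 2) ≤ c.slack (loc a L J) := fun c hc =>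
  slack_ge (vmax_nonneg _ _) (holds_loc hr hb hc) fun _ hr' => le_vmax _ (ch_mem hrooms hc _ hr')

private theorem ch_lowB {P : Lay} {a : ℤ → ℤ → ℝ × ℝ} (hP : P.OK) (hr : (netOf P.tile).Red a) {i : ℕ} (hi : i < P.K) :
    ∀ c ∈ (chB i).cons, -(18 * chV P a i ^ 2) ≤ c.slack (chv P a i) := by
  refine ch_low hr (ch_at hP hi) ?_
  unfold chB
  split_ifs
  · rw [cons_F]; exact rooms_F
  · rw [cons_E]; exact rooms_E

private theorem ch_X {P : Lay} {a : ℤ → ℤ → ℝ × ℝ} (hP : P.OK) (hr : (netOf P.tile).Red a) {i : ℕ} (hi : i < P.K) :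
    -(774 * chV P a i ^ 2) ≤ -(chv P a i 10 17).2 := by
  have h := ch_lowB (a := a) hP hr hi
  have hE : 0 ≤ 18 * chV P a i ^ 2 := by positivity
  unfold chB at h
  split_ifs at h with h0
  · rw [cons_F] at h
    have := F_out hE h
    linarith
  · rw [cons_E] at h
    have := E_out hE h
    linarith

private theorem ch_lowE {P : Lay} {a : ℤ → ℤ → ℝ × ℝ} (hP : P.OK) (hr : (netOf P.tile).Red a) {i : ℕ} (hi : i < P.K)
    (h0 : i ≠ 0) : ∀ c ∈ cE, -(18 * chV P a i ^ 2) ≤ c.slack (chv P a i) := by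
  have h := ch_lowB (a := a) hP hr hi
  unfold chB at h
  rw [if_neg h0, cons_E] at h
  exact h

private theorem ch_room {i : ℕ} : ((10 : ℤ), (17 : ℤ)) ∈ (chB i).rooms := by
  unfold chB
  split_ifs <;> decide +kernel

/-- the wire between two blocks of the chain -/
private theorem ch_wire {P : Lay} {a : ℤ → ℤ → ℝ × ℝ} (hP : P.OK) (hr : (netOf P.tile).Red a) {i : ℕ}
    (hi : i + 1 < P.K) :
    -(chv P a i 10 17).2 - 18 * (chV P a i ^ 2 + chV P a (i + 1) ^ 2) ≤ a3 (chv P a (i + 1) 10 0) := by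
  have hat := ch_at hP hi
  have hB : chB (i + 1) = bE := by unfold chB; rw [if_neg (by omega)]
  have hin : ((Con.h3 10 0).shift (9 * (P.ns + 1)) (9 * chJ P (i + 1))).In (netOf P.tile) = true := by
    rw [hB] at hat
    exact hat.chk (.h3 10 0) (by decide +kernel)
  have hh : (Con.h3 10 0).Holds (chv P a (i + 1)) := (holds_shift a _ _ _).1 (hr _ hin)
  have hJ : chJ P i = chJ P (i + 1) - 2 := by
    unfold chJ
    have : P.K - i = (P.K - (i + 1)) + 1 := by omega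
    rw [this]
    push_cast
    ring
  have hv : chv P a (i + 1) 10 (0 - 1) = chv P a i 10 17 := by
    unfold chv loc
    rw [hJ]
    congr 1
    ring
  have hr0 : ((10 : ℤ), (0 : ℤ)) ∈ (chB (i + 1)).rooms := by rw [hB]; decide +kernel
  have b1 := le_vmax (chv P a i) (ch_room (i := i))
  have b2 := le_vmax (chv P a (i + 1)) hr0
  have m1 : chV P a i ≤ max (chV P a i) (chV P a (i + 1)) := le_max_left _ _
  have m2 : chV P a (i + 1) ≤ max (chV P a i) (chV P a (i + 1)) := le_max_right _ _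
  have key := slack_ge (a := chv P a (i + 1)) (M := max (chV P a i) (chV P a (i + 1)))
    ((vmax_nonneg _ _).trans m1) hh (by
      intro r hr'
      simp only [Con.rooms, List.mem_cons, List.not_mem_nil, or_false] at hr'
      rcases hr' with rfl | rfl
      · show |(chv P a (i + 1) 10 (0 - 1)).1| ≤ _ ∧ |(chv P a (i + 1) 10 (0 - 1)).2| ≤ _
        rw [hv]
        exact ⟨b1.1.trans m1, b1.2.trans m1⟩
      · exact ⟨b2.1.trans m2, b2.2.trans m2⟩)
  have hs : (Con.h3 10 0).slack (chv P a (i + 1)) = (chv P a i 10 17).2 + a3 (chv P a (i + 1) 10 0) := by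
    show (chv P a (i + 1) 10 (0 - 1)).2 + a3 (chv P a (i + 1) 10 0) = _
    rw [hv]
  have hmax : max (chV P a i) (chV P a (i + 1)) ^ 2 ≤ chV P a i ^ 2 + chV P a (i + 1) ^ 2 := by
    rcases max_cases (chV P a i) (chV P a (i + 1)) with ⟨h, _⟩ | ⟨h, _⟩ <;> rw [h] <;>
      nlinarith [sq_nonneg (chV P a i), sq_nonneg (chV P a (i + 1))]
  rw [hs] at key
  linarith

/-- the wire between the chain and the comparator -/
private theorem ch_wireU {P : Lay} {a : ℤ → ℤ → ℝ × ℝ} (hP : P.OK) (hr : (netOf P.tile).Red a) :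
    -(chv P a (P.K - 1) 10 17).2 - 18 * (chV P a (P.K - 1) ^ 2 + vmax (loc a P.ns 0) bU.rooms ^ 2) ≤
      a3 (loc a P.ns 0 19 0) := by
  have hat := at_U hP
  have hK := hP.hK
  have hin : ((Con.h3 19 0).shift (9 * P.ns) (9 * 0)).In (netOf P.tile) = true :=
    hat.chk (.h3 19 0) (by decide +kernel)
  have hh : (Con.h3 19 0).Holds (loc a P.ns 0) := (holds_shift a _ _ _).1 (hr _ hin)
  have hJ : chJ P (P.K - 1) = -2 := by
    unfold chJ
    have : P.K - (P.K - 1) = 1 := by omega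
    rw [this]
    norm_num
  have hv : loc a P.ns 0 19 (0 - 1) = chv P a (P.K - 1) 10 17 := by
    unfold chv loc
    rw [hJ]
    congr 1
  have hr0 : ((19 : ℤ), (0 : ℤ)) ∈ bU.rooms := by decide +kernel
  have b1 := le_vmax (chv P a (P.K - 1)) (ch_room (i := P.K - 1))
  have b2 := le_vmax (loc a P.ns 0) hr0
  obtain ⟨W, hW⟩ : ∃ W : ℝ, W = vmax (loc a P.ns 0) bU.rooms := ⟨_, rfl⟩
  rw [← hW] at b2 ⊢
  have m1 : chV P a (P.K - 1) ≤ max (chV P a (P.K - 1)) W := le_max_left _ _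
  have m2 : W ≤ max (chV P a (P.K - 1)) W := le_max_right _ _
  have key := slack_ge (a := loc a P.ns 0) (M := max (chV P a (P.K - 1)) W)
    ((vmax_nonneg _ _).trans m1) hh (by
      intro r hr'
      simp only [Con.rooms, List.mem_cons, List.not_mem_nil, or_false] at hr'
      rcases hr' with rfl | rfl
      · show |(loc a P.ns 0 19 (0 - 1)).1| ≤ _ ∧ |(loc a P.ns 0 19 (0 - 1)).2| ≤ _
        rw [hv]
        exact ⟨b1.1.trans m1, b1.2.trans m1⟩
      · exact ⟨b2.1.trans m2, b2.2.trans m2⟩)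
  have hs : (Con.h3 19 0).slack (loc a P.ns 0) = (chv P a (P.K - 1) 10 17).2 + a3 (loc a P.ns 0 19 0) := by
    show (loc a P.ns 0 19 (0 - 1)).2 + a3 (loc a P.ns 0 19 0) = _
    rw [hv]
  have hmax : max (chV P a (P.K - 1)) W ^ 2 ≤ chV P a (P.K - 1) ^ 2 + W ^ 2 := by
    rcases max_cases (chV P a (P.K - 1)) W with ⟨h, _⟩ | ⟨h, _⟩ <;> rw [h] <;>
      nlinarith [sq_nonneg (chV P a (P.K - 1)), sq_nonneg W]
  rw [hs] at key
  linarith

/-- The comparator, real inequalities. -/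
private theorem ch_fin {H M R u V W X y : ℝ} (hH : 10 ^ 18 * R * H ≤ 1) (hR : 1 ≤ R) (hM0 : 0 ≤ M) (hMH : M ≤ H)
    (hu : 0 < u) (hMu : M ≤ R * u) (hV0 : 0 ≤ V) (hVH : V ≤ H) (hW0 : 0 ≤ W) (hWH : W ≤ H)
    (h1 : -(774 * V ^ 2) ≤ X) (h2 : X - 18 * (V ^ 2 + W ^ 2) ≤ y) (h3 : y + u ≤ 1800 * W ^ 2)
    (h4 : W ≤ 5000 * (|y| + M + 18 * W ^ 2)) : u ≤ 2000 * V ^ 2 ∧ X + 1000 * V ^ 2 ≤ 10 ^ 7 * V ^ 2 := by
  have hH0 : 0 ≤ H := hM0.trans hMH
  have hRH : R * H ≤ 1 / 10 ^ 18 := by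
    rw [le_div_iff₀ (by positivity)]
    linarith
  have hRH0 : 0 ≤ R * H := by positivity
  have hHs : H ≤ 1 / 10 ^ 18 := by nlinarith
  have hV2 : 0 ≤ V ^ 2 := sq_nonneg V
  have hW2 : 0 ≤ W ^ 2 := sq_nonneg W
  have hy : |y| ≤ 1818 * W ^ 2 + 792 * V ^ 2 := by
    rw [abs_le]
    constructor <;> linarith
  have hWW : W ^ 2 ≤ 1 / 10 ^ 18 * W := by
    rw [pow_two]
    exact mul_le_mul_of_nonneg_right (hWH.trans hHs) hW0
  have hVV : V ^ 2 ≤ 1 / 10 ^ 18 * V := by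
    rw [pow_two]
    exact mul_le_mul_of_nonneg_right (hVH.trans hHs) hV0
  have hW1 : W ≤ 10 ^ 4 * (792 * V ^ 2 + M) := by
    have : W ≤ 5000 * (1836 * W ^ 2 + 792 * V ^ 2 + M) := by linarith
    linarith
  have hMM : M ^ 2 ≤ 1 / 10 ^ 18 * u := by
    calc M ^ 2 = M * M := by ring
      _ ≤ H * (R * u) := mul_le_mul hMH hMu hM0 hH0
      _ = (R * H) * u := by ring
      _ ≤ 1 / 10 ^ 18 * u := mul_le_mul_of_nonneg_right hRH hu.le
  have hV4 : (V ^ 2) ^ 2 ≤ 1 / 10 ^ 30 * V ^ 2 := by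
    have hVs : V ^ 2 ≤ 1 / 10 ^ 30 := by
      have : 1 / 10 ^ 18 * V ≤ 1 / 10 ^ 18 * (1 / 10 ^ 18) :=
        mul_le_mul_of_nonneg_left (hVH.trans hHs) (by norm_num)
      have e : (1 : ℝ) / 10 ^ 18 * (1 / 10 ^ 18) ≤ 1 / 10 ^ 30 := by norm_num
      linarith
    calc (V ^ 2) ^ 2 = V ^ 2 * V ^ 2 := by ring
      _ ≤ 1 / 10 ^ 30 * V ^ 2 := mul_le_mul_of_nonneg_right hVs hV2
  have hWsq : W ^ 2 ≤ 1 / 10 ^ 10 * V ^ 2 + 1 / 10 ^ 9 * u := by
    have k1 : W ^ 2 ≤ (10 ^ 4 * (792 * V ^ 2 + M)) ^ 2 := pow_le_pow_left₀ hW0 hW1 2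
    have k2 : (10 ^ 4 * (792 * V ^ 2 + M)) ^ 2 ≤ 10 ^ 8 * (2 * 792 ^ 2 * (V ^ 2) ^ 2 + 2 * M ^ 2) := by
      nlinarith [sq_nonneg (792 * V ^ 2 - M)]
    have k3 : 10 ^ 8 * (2 * 792 ^ 2 * (V ^ 2) ^ 2 + 2 * M ^ 2) ≤
        10 ^ 8 * (2 * 792 ^ 2 * (1 / 10 ^ 30 * V ^ 2) + 2 * (1 / 10 ^ 18 * u)) := by
      have := mul_le_mul_of_nonneg_left hV4 (by norm_num : (0 : ℝ) ≤ 2 * 792 ^ 2)
      linarith
    have k4 : 10 ^ 8 * (2 * 792 ^ 2 * (1 / 10 ^ 30 * V ^ 2) + 2 * (1 / 10 ^ 18 * u)) ≤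
        1 / 10 ^ 10 * V ^ 2 + 1 / 10 ^ 9 * u := by
      have e1 : (10 : ℝ) ^ 8 * (2 * 792 ^ 2 * (1 / 10 ^ 30 * V ^ 2)) ≤ 1 / 10 ^ 10 * V ^ 2 := by
        have : (10 : ℝ) ^ 8 * (2 * 792 ^ 2 * (1 / 10 ^ 30 * V ^ 2)) =
          (10 ^ 8 * (2 * 792 ^ 2 * (1 / 10 ^ 30))) * V ^ 2 := by ring
        rw [this]
        exact mul_le_mul_of_nonneg_right (by norm_num) hV2
      have e2 : (10 : ℝ) ^ 8 * (2 * (1 / 10 ^ 18 * u)) ≤ 1 / 10 ^ 9 * u := by
        have : (10 : ℝ) ^ 8 * (2 * (1 / 10 ^ 18 * u)) = (10 ^ 8 * (2 * (1 / 10 ^ 18))) * u := by ring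
        rw [this]
        exact mul_le_mul_of_nonneg_right (by norm_num) hu.le
      linarith
    linarith
  have hu1 : u ≤ 800 * V ^ 2 := by
    have : u ≤ 1818 * W ^ 2 + 792 * V ^ 2 := by linarith
    linarith
  have hWV : W ^ 2 ≤ V ^ 2 := by linarith
  constructor
  · linarith
  · linarith

private theorem ch_mainU {x y : ℤ} (P : Lay) (hact : (netOf P.tile).act (9 * P.ns + x) (9 * 0 + y) = true)
    (hx : x < 4 ∧ y < 15) (hy : 0 ≤ y) : P.Main (9 * P.ns + x) (9 * 0 + y) :=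
  ⟨hact, by linarith, by linarith [hx.1], fun h => by have := h.2; linarith [hx.2]⟩

/-- **The chain bounds the unit.** `C` is absolute; `u = -(a (9 ns + 2) 5).1` is the unit, the main rooms are bounded by `M`,
`M ≤ R u`.

Proof. Blocks: index `i = 0, …, K - 1` at the tile row `-2 (K - i)` (`i = 0` is `bF`, the others `bE`, local states
`v_i = loc a (ns+1) (-2(K-i))`), and `bU` (local state `v_U = loc a ns 0`). `V i = vmax v_i rooms`, `V_U = vmax v_U bU.rooms`; all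
`≤ H`. Slacks in the block `i` are `≥ -18 (V i)²`. `X i = -(v_i 10 17).2`, `T i = X i + 1000 (V i)²` (so `T i ≥ 0`).
The wire between the blocks `i` and `i+1` is `h3` at the local room `(10, 0)` of the block `i+1` (`(19, 0)` for `U`), its
slack `σ = (v_i 10 17).2 + a3 (v_{i+1} 10 0)` is `≥ -18 (V_i² + V_{i+1}²)`. So `y_{i+1} = a3 (v_{i+1} 10 0) = X i + σ`.
(A) `E_in`: `2 y_{i+1} ≤ X (i+1) + 130 * 18 V_{i+1}²`, so `T i ≤ T (i+1) / 2 + C (V_i² + V_{i+1}²)`.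
(B) `E_bd` with `-C (V_i² + V_{i+1}²) ≤ y_{i+1} ≤ X (i+1) / 2 + C V_{i+1}²`.
Comparator: `U_cmp`: `y_U + u ≤ 1800 V_U²`; `U_bd`: `V_U ≤ 5000 (|y_U| + M + 18 V_U²)`, `-C (V_{K-1}² + V_U²) ≤ y_U ≤ 1800 V_U²` (as
`u > 0`), hence (`V_U ≤ H` small) `V_U ≤ C (V_{K-1}² + M)`, `u ≤ 1800 V_U² - y_U ≤ C (V_{K-1}² + M²)`, `M² ≤ H R u`, so
`u ≤ C V_{K-1}²`, `M² ≤ C V_{K-1}²`, `T (K-1) ≤ C V_{K-1}²`. Then `chain_seq`. -/
theorem chain_snd : ∃ C : ℝ, 1 ≤ C ∧ ∀ (P : Lay) (_ : P.OK) (a : ℤ → ℤ → ℝ × ℝ) (_ : (netOf P.tile).Red a) (H M R : ℝ),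
    (∀ x y, (netOf P.tile).act x y = true → Bdd (a x y) H) → 0 ≤ M → (∀ x y, P.Main x y → Bdd (a x y) M) → M ≤ H →
    0 < -(a (9 * P.ns + 2) 5).1 → 1 ≤ R → M ≤ R * -(a (9 * P.ns + 2) 5).1 → C * R * H ≤ 1 →
    -(a (9 * P.ns + 2) 5).1 ≤ (C * H) ^ (2 ^ P.K) := by
  refine ⟨10 ^ 18, by norm_num, ?_⟩
  intro P hP a hr H M R hH hM0 hmain hMH hu hR hMu hC
  have hK := hP.hK
  have hH0 : 0 ≤ H := hM0.trans hMH
  have hHs : 10 ^ 18 * H ≤ 1 := by nlinarith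
  obtain ⟨V, hV⟩ : ∃ V : ℕ → ℝ, V = fun i => chV P a i := ⟨_, rfl⟩
  obtain ⟨X, hX⟩ : ∃ X : ℕ → ℝ, X = fun i => -(chv P a i 10 17).2 := ⟨_, rfl⟩
  have hV0 : ∀ i < P.K, 0 ≤ V i := fun i _ => by rw [hV]; exact vmax_nonneg _ _
  have hVH : ∀ i < P.K, V i ≤ H := fun i hi => by
    rw [hV]
    exact vmax_le hH0 fun r hr' => ch_bdd hH (ch_at hP hi) hr'
  have hXl : ∀ i < P.K, -(774 * V i ^ 2) ≤ X i := fun i hi => by
    rw [hV, hX]
    exact ch_X hP hr hi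
  have hw : ∀ i, i + 1 < P.K → X i - 18 * (V i ^ 2 + V (i + 1) ^ 2) ≤ a3 (chv P a (i + 1) 10 0) := fun i hi => by
    rw [hV, hX]
    exact ch_wire hP hr hi
  have hin : ∀ i, i + 1 < P.K → 2 * a3 (chv P a (i + 1) 10 0) ≤ X (i + 1) + 2340 * V (i + 1) ^ 2 := fun i hi => by
    have h1 := E_in (by positivity) (ch_lowE (a := a) hP hr hi (by omega))
    rw [hV, hX]
    show _ ≤ -(chv P a (i + 1) 10 17).2 + 2340 * chV P a (i + 1) ^ 2
    linarith
  have hbd : ∀ i, i + 1 < P.K → V (i + 1) ≤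
      1000 * (|a3 (chv P a (i + 1) 10 0)| + X (i + 1) + 3600 * V (i + 1) ^ 2) := fun i hi => by
    have h1 := E_bd (by positivity) (ch_lowE (a := a) hP hr hi (by omega))
    have h0 : 0 ≤ |a3 (chv P a (i + 1) 10 0)| - (chv P a (i + 1) 10 17).2 + 200 * (18 * chV P a (i + 1) ^ 2) := by
      have h2 := ch_X (a := a) hP hr hi
      have h3 := abs_nonneg (a3 (chv P a (i + 1) 10 0))
      have h4 := sq_nonneg (chV P a (i + 1))
      linarith
    have h2 : chV P a (i + 1) ≤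
        1000 * (|a3 (chv P a (i + 1) 10 0)| - (chv P a (i + 1) 10 17).2 + 200 * (18 * chV P a (i + 1) ^ 2)) := by
      refine vmax_le (by positivity) fun r hr' => h1 r ?_
      have hB : chB (i + 1) = bE := by unfold chB; rw [if_neg (by omega)]
      rw [hB] at hr'
      exact hr'
    rw [hV, hX]
    show chV P a (i + 1) ≤
      1000 * (|a3 (chv P a (i + 1) 10 0)| + -(chv P a (i + 1) 10 17).2 + 3600 * chV P a (i + 1) ^ 2)
    linarith
  -- the comparator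
  obtain ⟨W, hW⟩ : ∃ W : ℝ, W = vmax (loc a P.ns 0) bU.rooms := ⟨_, rfl⟩
  have hW0 : 0 ≤ W := by rw [hW]; exact vmax_nonneg _ _
  have hWH : W ≤ H := by
    rw [hW]
    exact vmax_le hH0 fun r hr' => ch_bdd hH (at_U hP) hr'
  have hlU : ∀ c ∈ cU, -(18 * W ^ 2) ≤ c.slack (loc a P.ns 0) := by
    have h1 := ch_low (a := a) hr (at_U hP) (by rw [cons_U]; exact rooms_U)
    rw [cons_U, ← hW] at h1
    exact h1
  have hE0 : 0 ≤ 18 * W ^ 2 := by positivity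
  have hu2 : (loc a P.ns 0 2 5).1 = (a (9 * P.ns + 2) 5).1 := rfl
  have hcmp := U_cmp hE0 hlU
  have hSM : ∀ r ∈ bS.rooms, |(loc a P.ns 0 r.1 r.2).1| ≤ M ∧ |(loc a P.ns 0 r.1 r.2).2| ≤ M := by
    intro r hr'
    obtain ⟨h1, h2, h3⟩ := ch_mem bS_rooms_sub hr'
    have h4 : bU.inside r.1 r.2 = true := List.all_eq_true.1 inside_U r h1
    have h5 := Blk.inside_iff.1 h4
    exact hmain _ _ (ch_mainU P (act_of_room (at_U hP) h1) ⟨h2, h3⟩ h5.2.1)
  have hUb := U_bd hE0 hlU hSM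
  have hWb : W ≤ 5000 * (|a3 (loc a P.ns 0 19 0)| + M + 18 * W ^ 2) := by
    refine le_trans (le_of_eq hW) (vmax_le ?_ hUb)
    have := abs_nonneg (a3 (loc a P.ns 0 19 0))
    positivity
  have hwU := ch_wireU (a := a) hP hr
  rw [← hW] at hwU
  have hK1 : P.K - 1 < P.K := by omega
  obtain ⟨f1, f2⟩ := ch_fin (H := H) (M := M) (R := R) (u := -(a (9 * P.ns + 2) 5).1) (V := V (P.K - 1)) (W := W)
    (X := X (P.K - 1)) (y := a3 (loc a P.ns 0 19 0)) hC hR hM0 hMH hu hMu (hV0 _ hK1) (hVH _ hK1) hW0 hWH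
    (hXl _ hK1) (by rw [hV, hX]; exact hwU) (by rw [hu2] at hcmp; linarith) hWb
  have key := chain_seq (K := P.K) (by omega) (C := 10 ^ 7) (H := H) (by norm_num) (by nlinarith) V
    (fun i => X i + 1000 * V i ^ 2) hV0 hVH
    (fun i hi => by
      have g1 := hw i hi
      have g2 := hin i hi
      have g3 := sq_nonneg (V i)
      have g4 := sq_nonneg (V (i + 1))
      show X i + 1000 * V i ^ 2 ≤ 1 / 2 * (X (i + 1) + 1000 * V (i + 1) ^ 2) + 10 ^ 7 * (V i ^ 2 + V (i + 1) ^ 2)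
      linarith)
    (fun i hi => by
      have g1 := hw i hi
      have g2 := hin i hi
      have g3 := sq_nonneg (V i)
      have g4 := sq_nonneg (V (i + 1))
      have g5 := hbd i hi
      have g6 := hXl i (by omega)
      have g7 := hXl (i + 1) hi
      have g8 : |a3 (chv P a (i + 1) 10 0)| ≤ 1 / 2 * X (i + 1) + 2000 * V (i + 1) ^ 2 + 800 * V i ^ 2 := by
        rw [abs_le]
        constructor <;> linarith
      show V (i + 1) ≤ 10 ^ 7 * (X i + 1000 * V i ^ 2 + (X (i + 1) + 1000 * V (i + 1) ^ 2) + V i ^ 2 + V (i + 1) ^ 2)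
      linarith)
    f2
  have hVk := hV0 _ hK1
  calc -(a (9 * P.ns + 2) 5).1 ≤ 2000 * V (P.K - 1) ^ 2 := f1
    _ ≤ (4 * (10 ^ 7) ^ 2 * V (P.K - 1)) ^ 2 := by nlinarith [sq_nonneg (V (P.K - 1))]
    _ ≤ ((4 * (10 ^ 7) ^ 2 * H) ^ (2 ^ (P.K - 1))) ^ 2 := pow_le_pow_left₀ (by positivity) key 2
    _ = (4 * (10 ^ 7) ^ 2 * H) ^ (2 ^ P.K) := by
        rw [← pow_mul, ← pow_succ]
        congr 2
        omega
    _ ≤ (10 ^ 18 * H) ^ (2 ^ P.K) := by
        refine pow_le_pow_left₀ (by positivity) ?_ _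
        nlinarith

end Pool.Agent.Lib.MP_6ff0c5_lc.N
end

section

/-!
MP_6ff0c5_lc, part B, soundness: the final theorem.
-/

set_option autoImplicit false
set_option linter.unusedSimpArgs false

namespace Pool.Agent.Lib.MP_6ff0c5_lc.N

open LQ (Inst Form)

/-- the least bound of the main rooms -/
private theorem fin_M {P : Lay} {a : ℤ → ℤ → ℝ × ℝ} {H : ℝ} (hH0 : 0 ≤ H)
    (hH : ∀ x y, P.Main x y → Bdd (a x y) H) :
    ∃ M : ℝ, 0 ≤ M ∧ M ≤ H ∧ (∀ x y, P.Main x y → Bdd (a x y) M) ∧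
      ∀ m : ℝ, 0 ≤ m → (∀ x y, P.Main x y → Bdd (a x y) m) → M ≤ m := by
  set S : Set ℝ := {m | 0 ≤ m ∧ ∀ x y, P.Main x y → Bdd (a x y) m} with hS
  have hne : S.Nonempty := ⟨H, hH0, hH⟩
  have hbd : BddBelow S := ⟨0, fun m hm => hm.1⟩
  refine ⟨sInf S, ?_, csInf_le hbd ⟨hH0, hH⟩, ?_, ?_⟩
  · exact le_csInf hne fun m hm => hm.1
  · intro x y hxy
    exact ⟨le_csInf hne fun m hm => (hm.2 x y hxy).1, le_csInf hne fun m hm => (hm.2 x y hxy).2⟩
  · exact fun m h0 hm => csInf_le hbd ⟨h0, hm⟩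

/-- a pin of the first tile -/
private theorem fin_pin (I : Inst) (K : ℕ) {a : ℤ → ℤ → ℝ × ℝ}
    (hr : (netOf (layOf I K).tile).Red a) :
    (layOf I K).Main 4 5 ∧ 0 < a3 (a 4 5) := by
  have hok := layOf_ok I K
  have hns : 0 < (layOf I K).ns := ns_pos hok
  have hnl : 0 < (layOf I K).nl := by
    have h2 : (layOf I K).nl = 2 + 2 * (layOf I K).nvar := rfl
    omega
  have ht : (layOf I K).tt 0 0 = 2 := by
    rw [tt_eq_two]
    refine ⟨ended_zero _ _, ?_⟩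
    rw [tap_zero]
    simp
  have hb : bT.At (layOf I K).tile ((0 : ℕ) : ℤ) ((0 : ℕ) : ℤ) := at_T hok hns hnl ht
  have h1 := act_of_room hb (r := (4, 5)) (by decide +kernel)
  have h2 := holds_loc hr hb (c := .p3 4 5) (by rw [cons_T]; decide +kernel)
  norm_num at h1
  refine ⟨⟨h1, by norm_num, by omega, by omega⟩, ?_⟩
  unfold Con.Holds Con.Q Con.slack loc at h2
  norm_num at h2
  exact h2

/-- the numerical part -/
private theorem fin_num {A q u : ℝ} {K : ℕ} (hA : 1 ≤ A) (hq0 : 0 ≤ q) (hq : 4 * A * q ≤ 1)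
    (hu : u ≤ q ^ (2 ^ (K + 2))) : A * u < 1 / 2 ^ (2 ^ K) := by
  have hq1 : q ≤ 1 / 2 := by nlinarith
  obtain ⟨m, hm⟩ : ∃ m, 2 ^ (K + 2) = m + 1 ∧ 2 ^ K ≤ m := by
    refine ⟨2 ^ (K + 2) - 1, ?_, ?_⟩
    · have : 0 < 2 ^ (K + 2) := by positivity
      omega
    · have h1 : 2 ^ (K + 2) = 4 * 2 ^ K := by rw [pow_add]; ring
      have h2 : 0 < 2 ^ K := by positivity
      omega
  obtain ⟨hm, hm2⟩ := hm
  have h1 : q ^ m ≤ (1 / 2) ^ m := pow_le_pow_left₀ hq0 hq1 m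
  have h2 : ((1 : ℝ) / 2) ^ m ≤ (1 / 2) ^ (2 ^ K) :=
    pow_le_pow_of_le_one (by norm_num) (by norm_num) hm2
  have h3 : (0 : ℝ) < (1 / 2) ^ (2 ^ K) := by positivity
  have h4 : (1 : ℝ) / 2 ^ (2 ^ K) = (1 / 2) ^ (2 ^ K) := by rw [one_div_pow]
  rw [h4]
  rw [hm, pow_succ] at hu
  have h5 : q ^ m * q ≤ (1 / 2) ^ (2 ^ K) * q := mul_le_mul_of_nonneg_right (h1.trans h2) hq0
  have h6 : A * (q ^ m * q) ≤ A * ((1 / 2) ^ (2 ^ K) * q) :=
    mul_le_mul_of_nonneg_left h5 (by linarith)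
  have h7 : A * u ≤ A * (q ^ m * q) := mul_le_mul_of_nonneg_left hu (by linarith)
  have h8 : A * ((1 / 2) ^ (2 ^ K) * q) = (1 / 2) ^ (2 ^ K) * (A * q) := by ring
  have h9 : (1 / 2) ^ (2 ^ K) * (A * q) ≤ (1 / 2) ^ (2 ^ K) * (1 / 4) :=
    mul_le_mul_of_nonneg_left (by linarith) h3.le
  linarith

private theorem fin_lsum (z : ℕ → ℝ) (u : ℝ) (l : List (ℤ × ℕ)) :
    LQ.lsum (fun v => z v / u) l = LQ.lsum z l / u := by
  unfold LQ.lsum
  induction l with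
  | nil => simp
  | cons p l ih =>
    rw [List.map_cons, List.sum_cons, List.map_cons, List.sum_cons, ih]
    ring

private theorem fin_gate (t : Bool) (x y w u : ℝ) :
    LQ.gateVal t (x / u) (y / u) (w / u) = LQ.gateVal t x y w / u ^ 2 := by
  unfold LQ.gateVal
  cases t
  · simp only [Bool.false_eq_true, if_false]
    ring
  · simp only [if_true]
    ring

/-- the size `n` of the layout -/
private theorem fin_n (I : Inst) (K : ℕ) :
    2 ≤ (layOf I K).n ∧ (layOf I K).n ≤ (isize I K : ℝ) := by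
  have h1 := layOf_ns I K
  have h3 : (2 : ℝ) ≤ (layOf I K).ns := by exact_mod_cast (by omega : 2 ≤ (layOf I K).ns)
  have h4 : (0 : ℝ) ≤ (layOf I K).nl := Nat.cast_nonneg _
  have h5 : (0 : ℝ) ≤ (K : ℝ) := Nat.cast_nonneg _
  unfold Lay.n isize
  push_cast
  exact ⟨by linarith, by linarith⟩

/-- Soundness for the reduced system in unshifted coordinates.

Proof. `n = P.n`, `P = layOf I K`. Let `M` be the maximum of the coordinates of the main rooms (finitely many), `M ≤ H`.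
`main_bd`: `M ≤ 10^10 n⁴ (|u| + M²)`, so `M ≤ 2 * 10^10 n⁴ |u|` if `H ≤ 1 / (2 * 10^10 n⁴)`. If `u ≤ 0` then by `strings_snd`
`|u| ≤ 10^4 n² M² ≤ 10^4 n² H * 2 * 10^10 n⁴ |u|`, so `u = 0`, `M = 0`, but some pin is `> 0` (e.g. port 3 of the room `(3, 0)`),
contradiction. So `u > 0`; `chain_snd` with `R = 2 * 10^10 n⁴`: `u ≤ (C H)^(2^(K+2))`. Put `z v = zval P a v / u`:
all conditions of `I.Sol ε z` hold with `ε = c n^c' u` (`strings_snd`, `gate_ge`; the size of the instance is `≤ n`), and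
`c n^c' (C H)^(2^(K+2)) ≤ 1 / 2^(2^K)` if `H ≤ 1 / (C' n^c'')`. -/
theorem red_sound : ∃ C : ℝ, ∃ e : ℕ, 1 ≤ C ∧ ∀ (I : Inst) (K : ℕ) (_ : I.WF) (H : ℝ) (a : ℤ → ℤ → ℝ × ℝ),
    H * (C * (isize I K : ℝ) ^ e) ≤ 1 → (net0 I K).Red a →
    (∀ x y, (net0 I K).act x y = true → |(a x y).1| ≤ H ∧ |(a x y).2| ≤ H) →
    ∃ z, I.Sol (1 / 2 ^ (2 ^ K)) z := by
  obtain ⟨C1, hC1, hchain⟩ := chain_snd
  refine ⟨10 ^ 42 * C1, 12, by linarith, ?_⟩
  intro I K hI H a hHs hr hact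
  have hok := layOf_ok I K
  obtain ⟨hMain, hpin⟩ := fin_pin I K hr
  obtain ⟨hn2, hns⟩ := fin_n I K
  have hH0 : 0 ≤ H := (abs_nonneg _).trans (hact 4 5 hMain.1).1
  obtain ⟨M, hM0, hMH, hMb, hMmin⟩ := fin_M (P := layOf I K) (a := a) hH0
    fun x y h => hact x y h.1
  set P := layOf I K with hP
  set n : ℝ := P.n with hn
  set u : ℝ := uval P a with hu
  have hn0 : 0 < n := by linarith
  -- the numerical conditions
  have hpow : n ^ 12 ≤ (isize I K : ℝ) ^ 12 := pow_le_pow_left₀ hn0.le hns 12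
  have hH1 : H * (10 ^ 42 * C1 * n ^ 12) ≤ 1 := by
    refine le_trans ?_ hHs
    gcongr
  have hmon : ∀ i : ℕ, i ≤ 12 → n ^ i ≤ n ^ 12 := fun i hi =>
    pow_le_pow_right₀ (by linarith) hi
  have hcond : ∀ (D : ℝ) (i : ℕ), i ≤ 12 → 0 ≤ D → D ≤ 10 ^ 42 * C1 → D * n ^ i * H ≤ 1 := by
    intro D i hi hD hD1
    refine le_trans ?_ hH1
    have h1 : D * n ^ i ≤ 10 ^ 42 * C1 * n ^ 12 :=
      mul_le_mul hD1 (hmon i hi) (by positivity) (by positivity)
    calc D * n ^ i * H ≤ 10 ^ 42 * C1 * n ^ 12 * H := mul_le_mul_of_nonneg_right h1 hH0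
      _ = H * (10 ^ 42 * C1 * n ^ 12) := by ring
  have hstr := strings_snd hI hP hr hM0 hMb
  rw [← hn, ← hu] at hstr
  obtain ⟨hs1, hs2, hs3⟩ := hstr
  have hu0 := abs_nonneg u
  -- `M ≤ 2 c |u|`
  set c : ℝ := 10 ^ 10 * n ^ 4 with hc
  have hc0 : 0 < c := by positivity
  have hM1 : M ≤ c * (|u| + M ^ 2) :=
    hMmin _ (by positivity) fun x y h => main_bd hI hP hr hM0 hMb h
  have hcH : c * H ≤ 1 / 2 := by
    have := hcond (2 * 10 ^ 10) 4 (by norm_num) (by norm_num) (by nlinarith)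
    rw [hc]
    linarith
  have hM2 : M ≤ 2 * c * |u| := by
    have h1 : c * M ^ 2 ≤ 1 / 2 * M := by
      calc c * M ^ 2 = c * M * M := by ring
        _ ≤ c * H * M := by gcongr
        _ ≤ 1 / 2 * M := mul_le_mul_of_nonneg_right hcH hM0
    linarith
  -- `u > 0`
  have hupos : 0 < u := by
    by_contra hneg
    push Not at hneg
    have h1 : |u| = -u := abs_of_nonpos hneg
    have h2 : 10 ^ 4 * n ^ 2 * M ^ 2 ≤ 1 / 2 * |u| := by
      have h3 := hcond (4 * 10 ^ 14) 6 (by norm_num) (by norm_num) (by nlinarith)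
      calc 10 ^ 4 * n ^ 2 * M ^ 2 = 10 ^ 4 * n ^ 2 * (M * M) := by ring
        _ ≤ 10 ^ 4 * n ^ 2 * (H * (2 * c * |u|)) := by gcongr
        _ = 1 / 2 * (4 * 10 ^ 14 * n ^ 6 * H) * |u| := by rw [hc]; ring
        _ ≤ 1 / 2 * 1 * |u| := by gcongr
        _ = 1 / 2 * |u| := by ring
    have h4 : |u| = 0 := by linarith
    have h5 : M = 0 := by
      rw [h4, mul_zero] at hM2
      linarith
    have h6 := hMb 4 5 hMain
    rw [h5] at h6
    have h7 := abs_nonpos_iff.1 h6.1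
    have h8 := abs_nonpos_iff.1 h6.2
    unfold a3 at hpin
    rw [h7, h8] at hpin
    norm_num at hpin
  have habs : |u| = u := abs_of_pos hupos
  rw [habs] at hM2
  -- the chain
  have hchn := hchain P hok a hr H M (2 * c) (fun x y h => hact x y h) hM0 hMb hMH hupos
    (by rw [hc]; nlinarith [hmon 0 (by norm_num), pow_le_pow_right₀ (by linarith : (1 : ℝ) ≤ n) (Nat.zero_le 4)])
    hM2 (by
      have := hcond (2 * 10 ^ 10 * C1) 4 (by norm_num) (by positivity) (by nlinarith)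
      calc C1 * (2 * c) * H = 2 * 10 ^ 10 * C1 * n ^ 4 * H := by rw [hc]; ring
        _ ≤ 1 := this)
  have hPK : P.K = K + 2 := rfl
  rw [hPK] at hchn
  set A : ℝ := 8 * 10 ^ 40 * n ^ 12 with hA
  have hA1 : 1 ≤ A := by
    have h1 : (1 : ℝ) ≤ n ^ 12 := one_le_pow₀ (by linarith)
    rw [hA]
    linarith
  have hAu : A * u < 1 / 2 ^ (2 ^ K) := by
    refine fin_num hA1 (by positivity : 0 ≤ C1 * H) ?_ hchn
    have := hcond (32 * 10 ^ 40 * C1) 12 (by norm_num) (by positivity) (by nlinarith)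
    calc 4 * A * (C1 * H) = 32 * 10 ^ 40 * C1 * n ^ 12 * H := by rw [hA]; ring
      _ ≤ 1 := this
  -- the bound for the strings
  have hMsq : M ^ 2 ≤ 4 * c ^ 2 * u * u := by
    calc M ^ 2 ≤ (2 * c * u) ^ 2 := pow_le_pow_left₀ hM0 hM2 2
      _ = 4 * c ^ 2 * u * u := by ring
  have hdel : 10 ^ 4 * n ^ 2 * M ^ 2 ≤ A * u * u := by
    calc 10 ^ 4 * n ^ 2 * M ^ 2 ≤ 10 ^ 4 * n ^ 2 * (4 * c ^ 2 * u * u) := by gcongr
      _ = 4 * 10 ^ 24 * n ^ 10 * (u * u) := by rw [hc]; ring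
      _ ≤ 8 * 10 ^ 40 * n ^ 12 * (u * u) := by
        refine mul_le_mul_of_nonneg_right ?_ (by positivity)
        exact mul_le_mul (by norm_num) (hmon 10 (by norm_num)) (by positivity) (by positivity)
      _ = A * u * u := by rw [hA]; ring
  have hcub : 10 ^ 10 * M ^ 3 ≤ A * u * u ^ 2 := by
    calc 10 ^ 10 * M ^ 3 ≤ 10 ^ 10 * (2 * c * u) ^ 3 := by
          refine mul_le_mul_of_nonneg_left (pow_le_pow_left₀ hM0 hM2 3) (by norm_num)
      _ = A * u * u ^ 2 := by rw [hc, hA]; ring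
  refine ⟨fun v => zval P a v / u, ?_, ?_, ?_⟩
  · intro i hi
    obtain ⟨h1, h2⟩ := hs2 i (by omega)
    constructor
    · rw [lt_div_iff₀ hupos]
      nlinarith
    · rw [div_lt_iff₀ hupos]
      nlinarith
  · intro f hf
    have h1 := hs3 f hf
    have h2 : LQ.Form.eval (fun v => zval P a v / u) f =
        ((f.1 : ℝ) * u + LQ.lsum (zval P a) f.2) / u := by
      unfold LQ.Form.eval
      rw [fin_lsum]
      field_simp
    rw [h2, lt_div_iff₀ hupos]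
    nlinarith
  · intro g hg
    have h1 := gate_ge hok hr hM0 hMb (g := g) (t := I.gates[g]) (List.getElem?_eq_getElem hg)
    rw [fin_gate, lt_div_iff₀ (by positivity)]
    have h2 : A * u * u ^ 2 < 1 / 2 ^ (2 ^ K) * u ^ 2 :=
      mul_lt_mul_of_pos_right hAu (by positivity)
    linarith

/-- translation -/
private theorem fin_shift (N : Net) (X Y : ℤ) {a : ℤ → ℤ → ℝ × ℝ} (h : (N.shift X Y).Red a) :
    N.Red (fun x y => a (x + X) (y + Y)) := by
  have hact : ∀ x y, (N.shift X Y).act (x + X) (y + Y) = N.act x y := by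
    intro x y
    show N.act _ _ = _
    rw [add_sub_cancel_right, add_sub_cancel_right]
  have hcup : ∀ x y, (N.shift X Y).cup (x + X) (y + Y) = N.cup x y := by
    intro x y
    show N.cup _ _ = _
    rw [add_sub_cancel_right, add_sub_cancel_right]
  have e1 : ∀ x Z : ℤ, x + Z + 1 = x + 1 + Z := fun x Z => by ring
  have e2 : ∀ x Z : ℤ, x + Z - 1 = x - 1 + Z := fun x Z => by ring
  intro c hc
  cases c with
  | h1 x y =>
    have := h (.h1 (x + X) (y + Y))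
    simp only [Con.In, Con.Holds, Con.Q, Con.slack, e1, e2, hact, hcup] at this hc ⊢
    exact this hc
  | h3 x y =>
    have := h (.h3 (x + X) (y + Y))
    simp only [Con.In, Con.Holds, Con.Q, Con.slack, e1, e2, hact, hcup] at this hc ⊢
    exact this hc
  | cp x y =>
    have := h (.cp (x + X) (y + Y))
    simp only [Con.In, Con.Holds, Con.Q, Con.slack, e1, e2, hact, hcup] at this hc ⊢
    exact this hc
  | p1 x y =>
    have := h (.p1 (x + X) (y + Y))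
    simp only [Con.In, Con.Holds, Con.Q, Con.slack, e1, e2, hact, hcup] at this hc ⊢
    exact this hc
  | p2 x y =>
    have := h (.p2 (x + X) (y + Y))
    simp only [Con.In, Con.Holds, Con.Q, Con.slack, e1, e2, hact, hcup] at this hc ⊢
    exact this hc
  | p3 x y =>
    have := h (.p3 (x + X) (y + Y))
    simp only [Con.In, Con.Holds, Con.Q, Con.slack, e1, e2, hact, hcup] at this hc ⊢
    exact this hc

/-- **Soundness of the network** (`red_of_sol`, translation invariance, `red_sound`). -/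
theorem net_sound : ∃ C : ℝ, ∃ e : ℕ, 1 ≤ C ∧ ∀ (I : Inst) (K : ℕ) (_ : I.WF) (H : ℝ) (a b : ℤ → ℤ → ℝ × ℝ),
    H * (C * (isize I K : ℝ) ^ e) ≤ 1 → (net I K).Sol H a b → ∃ z, I.Sol (1 / 2 ^ (2 ^ K)) z := by
  obtain ⟨C, e, hC, hred⟩ := red_sound
  refine ⟨1000 * C, e, by linarith, ?_⟩
  intro I K hI H a b hH hsol
  have hs1 : (1 : ℝ) ≤ (isize I K : ℝ) ^ e := by
    refine one_le_pow₀ ?_
    have h1 : 1 ≤ isize I K := by unfold isize; omega
    exact_mod_cast h1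
  have hCs : 1 ≤ C * (isize I K : ℝ) ^ e := by nlinarith
  have hH1 : H ≤ 1 / 1000 := by
    by_contra h
    push Not at h
    nlinarith
  have hH2 : H * (C * (isize I K : ℝ) ^ e) ≤ 1 := by
    rcases le_or_gt H 0 with h | h
    · nlinarith
    · nlinarith [mul_pos h (by linarith : 0 < C * (isize I K : ℝ) ^ e)]
  have hR := red_of_sol hH1 hsol
  refine hred I K hI H (fun x y => a (x + 9 * (4 * isize I K)) (y + 9 * (2 * isize I K))) hH2 ?_ ?_
  · exact fin_shift _ _ _ hR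
  · intro x y hxy
    refine hsol.asize _ _ ?_
    show (net0 I K).act _ _ = true
    rw [add_sub_cancel_right, add_sub_cancel_right]
    exact hxy

end Pool.Agent.Lib.MP_6ff0c5_lc.N
end
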